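import Mathlib
import Pool.Agent.H531R2.TameDefs

/-!
# Power products of general bases in far classes: definitions
-/

set_option autoImplicit false

namespace Pool.Agent.H964R3

open MvPolynomial Pool.Agent.H531R2

/-- `g` is a polynomial in `k` polynomials of degree at most `r`. -/
def Simp {τ : Type} (k r : ℕ) (g : MvPolynomial τ ℚ) : Prop :=
  ∃ (q : Fin k → MvPolynomial τ ℚ) (G : MvPolynomial (Fin k) ℚ),
    (∀ b, (q b).totalDegree ≤ r) ∧ g = aeval q G

/-- The condition on one class of products `T_i = ∏_j g_j ^ e_ij` (the class of `T_i` is `lab i`,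
and `d j` is the degree of `g_j`). Either (a) the class has at most two different exponent vectors
and the `g_j` are pairwise relatively prime, or there is a common divisor `∏_j g_j ^ w_j` of the
products of the class `l` such that one of the following holds, where the bases which occur in the
quotients are the `g_j` with `e_ij ≠ w_j` for some `i` of the class.
(b) The quotients have degree at most `r`.
(c) The bases which occur have transcendence degree at most `k` (no `k + 1` of them are
algebraically independent).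
(d) The bases which occur have degree at most one, and the quotients have transcendence degree at
most `k`.
(e) The bases which occur have degree at most one, and the exponent vectors of the class lie in
`k` balls of radius `r` for the distance `∑_j |e_j - e'_j|`. -/
def ClassOK {A : Type} [CommRing A] [Algebra ℚ A] (k r : ℕ) {m p : ℕ} (g : Fin p → A)
    (d : Fin p → ℕ) (e : Fin m → Fin p → ℕ) (lab : Fin m → ℕ) (l : ℕ) : Prop :=
  ((∀ j j', j ≠ j' → IsRelPrime (g j) (g j')) ∧ ∀ i i' i'', lab i = l → lab i' = l →
    lab i'' = l → e i = e i' ∨ e i = e i'' ∨ e i' = e i'') ∨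
  ∃ w : Fin p → ℕ, (∀ i, lab i = l → ∀ j, w j ≤ e i j) ∧
    ((∀ i, lab i = l → ∑ j, (e i j - w j) * d j ≤ r) ∨
      (∀ u : Fin (k + 1) → Fin p, (∀ b, ∃ i, lab i = l ∧ e i (u b) ≠ w (u b)) →
        ¬ AlgebraicIndependent ℚ (fun b => g (u b))) ∨
      ((∀ i j, lab i = l → e i j ≠ w j → d j ≤ 1) ∧
        ((∀ u : Fin (k + 1) → Fin m, (∀ b, lab (u b) = l) →
          ¬ AlgebraicIndependent ℚ (fun b => ∏ j, g j ^ (e (u b) j - w j))) ∨
        ∃ (B : Fin k → Fin p → ℕ) (f : Fin m → Fin k), ∀ i, lab i = l →
          ∑ j, ((B (f i) j - e i j) + (e i j - B (f i) j)) ≤ r)))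

/-- `F` is a rational combination `∑_{i < m} c_i T_i` of `m ≤ n` power products
`T_i = ∏_{j < p} g_j ^ e_ij` of `p ≤ n` nonzero polynomials `g_j` (the bases) in at most `n`
variables, of degree at most `n`, with integer coefficients whose absolute values add up to at
most `2 ^ n`, each of which is a polynomial in `k` polynomials of degree at most `r`. The
exponents `e_ij` are at most `2 ^ n` and the `c_i` are arbitrary rational numbers. The products
are divided into classes (the class of `T_i` is `lab i`), which satisfy `ClassOK`. If there is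
more than one class then the bases are pairwise relatively prime over the rational numbers, and
for any two products `T`, `T'` of different classes one of the polynomials `T / gcd (T, T')`,
`T' / gcd (T, T')` has degree more than `m ^ 2 ∑_j deg g_j`. -/
def FewGen (k r n : ℕ) (F : MvPolynomial ℕ ℚ) : Prop :=
  ∃ (m p : ℕ) (S : Finset ℕ) (g : Fin p → MvPolynomial ℕ ℤ) (e : Fin m → Fin p → ℕ)
    (c : Fin m → ℚ) (lab : Fin m → ℕ),
    m ≤ n ∧ p ≤ n ∧ S.card ≤ n ∧
    (∀ j, g j ≠ 0 ∧ (g j).vars ⊆ S ∧ (g j).totalDegree ≤ n ∧ nrm (g j) ≤ 2 ^ n ∧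
      Simp k r (map (Int.castRingHom ℚ) (g j))) ∧
    (∀ i j, e i j ≤ 2 ^ n) ∧
    ((∀ i i', lab i = lab i') ∨ ∀ j j', j ≠ j' →
      IsRelPrime (map (Int.castRingHom ℚ) (g j)) (map (Int.castRingHom ℚ) (g j'))) ∧
    (∀ i i', lab i ≠ lab i' →
      (∑ j, (g j).totalDegree) * m ^ 2 < ∑ j, (g j).totalDegree * (e i j - e i' j) ∨
      (∑ j, (g j).totalDegree) * m ^ 2 < ∑ j, (g j).totalDegree * (e i' j - e i j)) ∧
    (∀ l, ClassOK k r (fun j => map (Int.castRingHom ℚ) (g j))
      (fun j => (g j).totalDegree) e lab l) ∧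
    F = ∑ i, C (c i) * ∏ j, map (Int.castRingHom ℚ) (g j) ^ e i j

/-- `f` divides, over the rational numbers, a product of `n` nonzero polynomials with
`FewGen k r n`, and for all prime numbers `p > n` with at most `n` exceptions, the power
`p ^ (n + 1)` does not divide all coefficients of `f`. -/
def TameGen (k r n : ℕ) (f : MvPolynomial ℕ ℤ) : Prop :=
  (∃ Q : Finset ℕ, Q.card ≤ n ∧
    ∀ p : ℕ, p.Prime → n < p → p ∉ Q → ¬ (C ((p : ℤ) ^ (n + 1)) ∣ f)) ∧
    ∃ F : Fin n → MvPolynomial ℕ ℚ, (∀ a, F a ≠ 0 ∧ FewGen k r n (F a)) ∧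
      map (Int.castRingHom ℚ) f ∣ ∏ a, F a

end Pool.Agent.H964R3
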