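import Mathlib
import Pool.Agent.H964R3.Cop
import Pool.Agent.H964R3.GenDefs

/-!
# The coefficients of a polynomial on the generic line
-/

set_option autoImplicit false

namespace Pool.Agent.H964R3

open MvPolynomial

variable {σ : Type}

/-- All coefficients have total degree at most `D`. -/
def PD {τ : Type} (D : ℕ) (f : Polynomial (MvPolynomial τ ℚ)) : Prop :=
  ∀ i, (f.coeff i).totalDegree ≤ D

theorem PD.mul {τ : Type} {a b : ℕ} {f g : Polynomial (MvPolynomial τ ℚ)} (hf : PD a f)
    (hg : PD b g) : PD (a + b) (f * g) := by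
  intro i
  rw [Polynomial.coeff_mul]
  refine (totalDegree_finsetSum _ _).trans (Finset.sup_le fun x _ => ?_)
  exact (totalDegree_mul _ _).trans (Nat.add_le_add (hf _) (hg _))

theorem PD.pow {τ : Type} {a : ℕ} {f : Polynomial (MvPolynomial τ ℚ)} (hf : PD a f) (k : ℕ) :
    PD (k * a) (f ^ k) := by
  induction k with
  | zero =>
    intro i
    rw [pow_zero, Polynomial.coeff_one]
    split_ifs <;> simp
  | succ k ih =>
    rw [pow_succ]
    have := ih.mul hf
    intro i
    exact (this i).trans (by rw [Nat.succ_mul])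

theorem PD.prod {τ ι : Type} (s : Finset ι) (a : ι → ℕ) (f : ι → Polynomial (MvPolynomial τ ℚ))
    (hf : ∀ i ∈ s, PD (a i) (f i)) : PD (∑ i ∈ s, a i) (∏ i ∈ s, f i) := by
  classical
  induction s using Finset.induction_on with
  | empty =>
    intro i
    rw [Finset.prod_empty, Polynomial.coeff_one]
    split_ifs <;> simp
  | insert i s hi ih =>
    rw [Finset.prod_insert hi, Finset.sum_insert hi]
    exact (hf i (Finset.mem_insert_self _ _)).mul
      (ih fun j hj => hf j (Finset.mem_insert_of_mem hj))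

theorem PD.sum {τ ι : Type} (s : Finset ι) (a : ℕ) (f : ι → Polynomial (MvPolynomial τ ℚ))
    (hf : ∀ i ∈ s, PD a (f i)) : PD a (∑ i ∈ s, f i) := by
  intro i
  rw [Polynomial.finsetSum_coeff]
  exact (totalDegree_finsetSum _ _).trans (Finset.sup_le fun x hx => hf x hx i)

/-- The linear polynomial attached to a variable. -/
noncomputable def lin (i : σ) : Polynomial (MvPolynomial (σ ⊕ σ) ℚ) :=
  Polynomial.C (X (Sum.inr i)) + Polynomial.X * Polynomial.C (X (Sum.inl i))

theorem tau_eq_sum (g : MvPolynomial σ ℚ) :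
    tau g = ∑ m ∈ g.support, Polynomial.C (C (coeff m g)) * ∏ i ∈ m.support, lin i ^ m i := by
  conv_lhs => rw [g.as_sum, map_sum]
  refine Finset.sum_congr rfl fun m _ => ?_
  rw [tau, aeval_monomial]
  rfl

theorem PD_lin (i : σ) : PD 1 (lin i) := by
  intro n
  rw [lin, Polynomial.coeff_add, Polynomial.coeff_C, Polynomial.X_mul_C, Polynomial.coeff_C_mul,
    Polynomial.coeff_X]
  refine (totalDegree_add _ _).trans (max_le ?_ ?_)
  · split_ifs
    · simp
    · simp
  · split_ifs
    · simp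
    · simp

theorem PD_tau (g : MvPolynomial σ ℚ) : PD g.totalDegree (tau g) := by
  rw [tau_eq_sum]
  refine PD.sum _ _ _ fun m hm => ?_
  have h1 : PD (∑ i ∈ m.support, m i * 1) (∏ i ∈ m.support, lin i ^ m i) :=
    PD.prod _ _ _ fun i _ => (PD_lin i).pow _
  have h2 : PD 0 (Polynomial.C (C (coeff m g)) : Polynomial (MvPolynomial (σ ⊕ σ) ℚ)) := by
    intro n
    rw [Polynomial.coeff_C]
    split_ifs <;> simp
  intro n
  refine ((h2.mul h1) n).trans ?_
  rw [zero_add]
  simp only [mul_one]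
  exact le_totalDegree hm

theorem natDegree_lin (i : σ) : (lin i).natDegree ≤ 1 := by
  rw [lin]
  refine (Polynomial.natDegree_add_le _ _).trans (max_le ?_ ?_)
  · simp
  · refine Polynomial.natDegree_mul_le.trans ?_
    rw [Polynomial.natDegree_C, add_zero]
    exact Polynomial.natDegree_X_le

theorem natDegree_tau (g : MvPolynomial σ ℚ) : (tau g).natDegree ≤ g.totalDegree := by
  rw [tau_eq_sum]
  refine Polynomial.natDegree_sum_le_of_forall_le _ _ fun m hm => ?_
  refine (Polynomial.natDegree_C_mul_le _ _).trans ?_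
  refine (Polynomial.natDegree_prod_le _ _).trans ?_
  refine le_trans (Finset.sum_le_sum fun i _ => ?_) (le_totalDegree hm)
  refine Polynomial.natDegree_pow_le.trans ?_
  exact (Nat.mul_le_mul_left _ (natDegree_lin i)).trans (by rw [mul_one])

/-- The point `P` is set to zero. -/
noncomputable def ev0 : MvPolynomial (σ ⊕ σ) ℚ →ₐ[ℚ] MvPolynomial σ ℚ :=
  aeval (Sum.elim X (fun _ => 0))

theorem coeff_tau_top {g : MvPolynomial σ ℚ} (hg : g ≠ 0) :
    (tau g).coeff g.totalDegree ≠ 0 := by
  classical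
  intro h0
  obtain ⟨m0, hm0, hm0d⟩ := Finset.exists_mem_eq_sup g.support
    (support_nonempty.2 hg) (fun m => m.sum fun _ k => k)
  have h1 : ((tau g).map (ev0 (σ := σ)).toRingHom) =
      ∑ m ∈ g.support, Polynomial.C (monomial m (coeff m g)) *
        Polynomial.X ^ (m.sum fun _ k => k) := by
    rw [tau_eq_sum, Polynomial.map_sum]
    refine Finset.sum_congr rfl fun m _ => ?_
    rw [Polynomial.map_mul, Polynomial.map_prod, Polynomial.map_C]
    have h2 : ∀ i : σ, (lin i).map (ev0 (σ := σ)).toRingHom =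
        Polynomial.C (X i) * Polynomial.X := by
      intro i
      rw [lin, Polynomial.map_add, Polynomial.map_mul, Polynomial.map_C, Polynomial.map_C,
        Polynomial.map_X]
      simp [ev0]
    have h3 : ∀ i ∈ m.support, (lin i ^ m i).map (ev0 (σ := σ)).toRingHom =
        Polynomial.C (X i ^ m i) * Polynomial.X ^ m i := by
      intro i _
      rw [Polynomial.map_pow, h2, mul_pow, Polynomial.C_pow]
    rw [Finset.prod_congr rfl h3, Finset.prod_mul_distrib, Finset.prod_pow_eq_pow_sum,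
      ← map_prod Polynomial.C, ← mul_assoc]
    have h4 : (ev0 (σ := σ)).toRingHom (C (coeff m g)) = C (coeff m g) := by
      change ev0 (C (coeff m g)) = _
      rw [algHom_C, algebraMap_eq]
    rw [h4, ← Polynomial.C_mul]
    congr 2
    rw [monomial_eq, Finsupp.prod]
  have h2 : ((tau g).map (ev0 (σ := σ)).toRingHom).coeff g.totalDegree = 0 := by
    rw [Polynomial.coeff_map, h0, map_zero]
  rw [h1, Polynomial.finsetSum_coeff] at h2
  have h3 := congrArg (coeff m0) h2
  rw [coeff_sum, coeff_zero, Finset.sum_eq_single m0] at h3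
  · rw [Polynomial.coeff_C_mul, Polynomial.coeff_X_pow] at h3
    have h4 : g.totalDegree = m0.sum fun _ k => k := hm0d
    rw [if_pos h4, mul_one, coeff_monomial, if_pos rfl] at h3
    exact (mem_support_iff.1 hm0) h3
  · intro m _ hne
    rw [Polynomial.coeff_C_mul, Polynomial.coeff_X_pow]
    split_ifs
    · rw [mul_one, coeff_monomial, if_neg hne]
    · rw [mul_zero, coeff_zero]
  · intro h
    exact absurd hm0 h

theorem natDegree_tau_eq {g : MvPolynomial σ ℚ} (hg : g ≠ 0) :
    (tau g).natDegree = g.totalDegree :=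
  le_antisymm (natDegree_tau g) (Polynomial.le_natDegree_of_ne_zero (coeff_tau_top hg))

/-- Membership of the coefficients in a subalgebra. -/
theorem tau_mem_lifts {k δ : ℕ} (A : Subalgebra ℚ (MvPolynomial (σ ⊕ σ) ℚ))
    (q : Fin k → MvPolynomial σ ℚ) (hq : ∀ b, (q b).totalDegree ≤ δ)
    (hA : ∀ b (i : Fin (δ + 1)), (tau (q b)).coeff i ∈ A) (G : MvPolynomial (Fin k) ℚ) :
    tau (aeval q G) ∈ Polynomial.lifts (A.val : A →+* MvPolynomial (σ ⊕ σ) ℚ) := by
  have hqb : ∀ b, tau (q b) ∈ Polynomial.lifts (A.val : A →+* MvPolynomial (σ ⊕ σ) ℚ) := by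
    intro b
    rw [Polynomial.lifts_iff_coeff_lifts]
    intro n
    by_cases hn : n < δ + 1
    · exact ⟨⟨_, hA b ⟨n, hn⟩⟩, rfl⟩
    · rw [Polynomial.coeff_eq_zero_of_natDegree_lt
        (lt_of_le_of_lt ((natDegree_tau _).trans (hq b)) (by omega))]
      exact ⟨0, by simp⟩
  induction G using MvPolynomial.induction_on with
  | C r =>
    rw [Polynomial.lifts_iff_coeff_lifts]
    intro n
    have h1 : tau (aeval q (C r)) = Polynomial.C (C r : MvPolynomial (σ ⊕ σ) ℚ) := by
      rw [algHom_C]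
      exact (tau (σ := σ)).commutes r
    rw [h1, Polynomial.coeff_C]
    split_ifs
    · exact ⟨algebraMap ℚ A r, rfl⟩
    · exact ⟨0, by simp⟩
  | add p q' hp hq' =>
    rw [map_add, map_add]
    exact add_mem hp hq'
  | mul_X p b hp =>
    rw [map_mul, map_mul, aeval_X]
    exact mul_mem hp (hqb b)

theorem coeff_mem_of_lifts {A : Subalgebra ℚ (MvPolynomial (σ ⊕ σ) ℚ)}
    {f : Polynomial (MvPolynomial (σ ⊕ σ) ℚ)}
    (hf : f ∈ Polynomial.lifts (A.val : A →+* MvPolynomial (σ ⊕ σ) ℚ)) (n : ℕ) :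
    f.coeff n ∈ A := by
  obtain ⟨x, hx⟩ := (Polynomial.lifts_iff_coeff_lifts f).1 hf n
  rw [← hx]
  exact x.2

theorem resultant_mem {A : Subalgebra ℚ (MvPolynomial (σ ⊕ σ) ℚ)}
    {f g : Polynomial (MvPolynomial (σ ⊕ σ) ℚ)}
    (hf : f ∈ Polynomial.lifts (A.val : A →+* MvPolynomial (σ ⊕ σ) ℚ))
    (hg : g ∈ Polynomial.lifts (A.val : A →+* MvPolynomial (σ ⊕ σ) ℚ)) (m n : ℕ) :
    Polynomial.resultant f g m n ∈ A := by
  obtain ⟨f', hf'⟩ := (Polynomial.mem_lifts _).1 hf
  obtain ⟨g', hg'⟩ := (Polynomial.mem_lifts _).1 hg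
  rw [← hf', ← hg', Polynomial.resultant_map_map]
  exact (Polynomial.resultant f' g' m n).2

end Pool.Agent.H964R3
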