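import Mathlib
import Pool.Agent.H626R2.Clu.Cl
import Pool.Agent.H626R2.PFaith

/-!
# The secant generator is injective on algebras generated by few polynomials of low degree
-/

set_option autoImplicit false
set_option linter.unusedSectionVars false

namespace Pool.Agent.H964R3

open MvPolynomial Pool.Agent.H626R2 Pool.Agent.H626R2.Clu

variable {σ : Type} [Fintype σ]

/-- Kill the `y`'s from `T` on, and specialise the `z`'s. -/
noncomputable def spm (T : ℕ) (ζ : ℕ → ℚ) : SR ℚ →ₐ[ℚ] SR ℚ :=
  aeval (Sum.elim (fun t => if T ≤ t then 0 else X (Sum.inl t))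
    (fun t => if T ≤ t then C (ζ t) else X (Sum.inr t)))

theorem spm_y_lt {T : ℕ} (ζ : ℕ → ℚ) {t : ℕ} (h : t < T) :
    spm T ζ (X (Sum.inl t)) = X (Sum.inl t) := by
  rw [spm, aeval_X, Sum.elim_inl, if_neg (by omega)]

theorem spm_y_ge {T : ℕ} (ζ : ℕ → ℚ) {t : ℕ} (h : T ≤ t) : spm T ζ (X (Sum.inl t)) = 0 := by
  rw [spm, aeval_X, Sum.elim_inl, if_pos h]

theorem spm_z_lt {T : ℕ} (ζ : ℕ → ℚ) {t : ℕ} (h : t < T) :
    spm T ζ (X (Sum.inr t)) = X (Sum.inr t) := by
  rw [spm, aeval_X, Sum.elim_inr, if_neg (by omega)]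

theorem spm_z_ge {T : ℕ} (ζ : ℕ → ℚ) {t : ℕ} (h : T ≤ t) :
    spm T ζ (X (Sum.inr t)) = C (ζ t) := by
  rw [spm, aeval_X, Sum.elim_inr, if_pos h]

theorem spm_aeval_ge {T : ℕ} (ζ : ℕ → ℚ) {t : ℕ} (h : T ≤ t) (p : Polynomial ℚ) :
    spm T ζ (Polynomial.aeval (X (Sum.inr t)) p) = C (p.eval (ζ t)) := by
  rw [← Polynomial.aeval_algHom_apply, spm_z_ge ζ h]
  have : (C (ζ t) : SR ℚ) = algebraMap ℚ (SR ℚ) (ζ t) := rfl
  rw [this, Polynomial.aeval_algebraMap_apply]
  simp [MvPolynomial.algebraMap_eq]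

variable (b : σ → ℚ) (L : σ → Polynomial ℚ)

omit [Fintype σ] in
theorem spm_gp (T r : ℕ) (ζ : ℕ → ℚ) (i : σ) :
    spm T ζ (gp b L (T + r) i) = gp b L T i := by
  unfold gp
  rw [map_add, map_sum, Finset.sum_range_add]
  have h1 : ∀ t ∈ Finset.range r, spm T ζ (X (Sum.inl (T + t)) *
      Polynomial.aeval (X (Sum.inr (T + t))) (L i)) = 0 := by
    intro t _
    rw [map_mul, spm_y_ge ζ (by omega), zero_mul]
  rw [Finset.sum_congr rfl h1, Finset.sum_const_zero, add_zero]
  congr 1
  · exact (spm T ζ).commutes (b i)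
  · refine Finset.sum_congr rfl fun t ht => ?_
    have htj : t < T := Finset.mem_range.1 ht
    rw [map_mul, spm_y_lt ζ htj, ← Polynomial.aeval_algHom_apply, spm_z_lt ζ htj]

omit [Fintype σ] in
theorem spm_ge (T r : ℕ) (ζ : ℕ → ℚ) (Q : MvPolynomial σ ℚ) :
    spm T ζ (ge b L (T + r) Q) = ge b L T Q := by
  have h : (spm T ζ).comp (ge b L (T + r)) = ge b L T := by
    apply MvPolynomial.algHom_ext
    intro i
    rw [AlgHom.comp_apply, ge_X, ge_X, spm_gp]
  rw [← h, AlgHom.comp_apply]

/-- Preservation of algebraic independence. -/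
theorem jac_ge (hL : LinearIndependent ℚ L) {r T : ℕ} (q : Fin r → MvPolynomial σ ℚ)
    (s : Fin r → σ)
    (hT : ge b L T (Matrix.of fun a c => pderiv (s c) (q a)).det ≠ 0) :
    AlgebraicIndependent ℚ (fun a : Fin r => ge b L (T + r) (q a)) := by
  classical
  obtain ⟨ζ', hζ'⟩ := Pool.Agent.H531R2.exists_minor r
    (fun (a : Fin r) (x : ℚ) => ∑ i, ge b L T (pderiv i (q a)) * C ((L i).eval x)) (by
      intro c hc
      have h1 : ∀ i, ∑ a, c a * ge b L T (pderiv i (q a)) = 0 := by
        intro i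
        ext m
        rw [coeff_zero]
        have h2 : ∑ k, (coeff m (∑ a, c a * ge b L T (pderiv k (q a)))) • L k = 0 := by
          apply Polynomial.funext
          intro x
          have h3 := congrArg (coeff m) (hc x)
          rw [coeff_zero] at h3
          rw [Polynomial.eval_finsetSum, Polynomial.eval_zero, ← h3]
          simp only [Finset.mul_sum]
          rw [Finset.sum_comm, coeff_sum]
          refine Finset.sum_congr rfl fun k _ => ?_
          rw [Polynomial.eval_smul, smul_eq_mul]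
          have h4 : ∑ a, c a * (ge b L T (pderiv k (q a)) * C ((L k).eval x)) =
              (∑ a, c a * ge b L T (pderiv k (q a))) * C ((L k).eval x) := by
            rw [Finset.sum_mul]
            exact Finset.sum_congr rfl fun a _ => by ring
          rw [h4, mul_comm (∑ a, c a * ge b L T (pderiv k (q a))) (C _), coeff_C_mul, mul_comm]
        exact Fintype.linearIndependent_iff.1 hL _ h2 i
      have h5 : ((Matrix.of fun a c => ge b L T (pderiv (s c) (q a)))).det ≠ 0 := by
        have h6 : (Matrix.of fun a c => ge b L T (pderiv (s c) (q a))) =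
            (ge b L T).toRingHom.mapMatrix (Matrix.of fun a c => pderiv (s c) (q a)) := by
          ext1 a c
          rfl
        rw [h6, ← RingHom.map_det]
        exact hT
      apply Matrix.eq_zero_of_vecMul_eq_zero h5
      funext c'
      simp only [Matrix.vecMul, dotProduct, Matrix.of_apply, Pi.zero_apply]
      exact h1 (s c'))
  set ζ : ℕ → ℚ := fun t => if h : t - T < r then ζ' ⟨t - T, h⟩ else 0 with hζ
  have hζt : ∀ t : Fin r, ζ (T + t) = ζ' t := by
    intro t
    have : T + (t : ℕ) - T < r := by omega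
    simp only [hζ]
    rw [dif_pos this]
    congr 1
    apply Fin.ext
    simp
  apply algInd_of_det (fun t : Fin r => pderiv (Sum.inl (T + (t : ℕ))))
  intro h0
  apply hζ'
  have h1 := congrArg (spm T ζ) h0
  rw [map_zero] at h1
  have h2 : spm T ζ (Matrix.of fun (a : Fin r) (t : Fin r) => pderiv (Sum.inl (T + (t : ℕ)))
      (ge b L (T + r) (q a))).det = ((spm T ζ).toRingHom.mapMatrix (Matrix.of fun (a : Fin r)
      (t : Fin r) => pderiv (Sum.inl (T + (t : ℕ))) (ge b L (T + r) (q a)))).det := by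
    rw [← RingHom.map_det]
    rfl
  rw [h2] at h1
  rw [← h1]
  congr 1
  ext1 a t
  simp only [Matrix.of_apply, RingHom.mapMatrix_apply, Matrix.map_apply]
  change _ = spm T ζ (pderiv (Sum.inl (T + (t : ℕ))) (ge b L (T + r) (q a)))
  rw [chain_rule (ge b L (T + r)) (pderiv (Sum.inl (T + (t : ℕ)))) (q a), map_sum]
  refine Finset.sum_congr rfl fun i _ => ?_
  rw [map_mul, spm_ge, ge_X, pderiv_y_gp b L _ _ (by omega), spm_aeval_ge ζ (by omega), hζt]

theorem totalDegree_det_le' {r : ℕ} (A : Matrix (Fin r) (Fin r) (MvPolynomial σ ℚ)) (D : ℕ)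
    (h : ∀ i j, (A i j).totalDegree ≤ D) : A.det.totalDegree ≤ r * D := by
  classical
  rw [Matrix.det_apply]
  refine (totalDegree_finsetSum _ _).trans (Finset.sup_le fun τ _ => ?_)
  have h2 : (Equiv.Perm.sign τ • ∏ i, A (τ i) i).totalDegree ≤ (∏ i, A (τ i) i).totalDegree := by
    rcases Int.units_eq_one_or (Equiv.Perm.sign τ) with h | h <;> rw [h]
    · simp
    · simp
  refine h2.trans ((totalDegree_finsetProd _ _).trans ?_)
  refine (Finset.sum_le_card_nsmul _ _ D fun i _ => h _ _).trans ?_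
  simp

/-- The generator is injective on algebras generated by few polynomials of low degree. -/
theorem faithful_low (hL : LinearIndependent ℚ L) {M δ v : ℕ} (q : Fin M → MvPolynomial σ ℚ)
    (hq : ∀ a, (q a).totalDegree ≤ δ) (hv : M * δ + M ≤ v) {H : MvPolynomial σ ℚ}
    (hH : H ∈ Algebra.adjoin ℚ (Set.range q)) (h0 : ge b L v H = 0) : H = 0 := by
  classical
  apply faithful q (ge b L v) (k := M) ?_ ?_ hH h0
  · intro u hu
    have hinj : Function.Injective u := by
      intro x y hxy
      apply hu.injective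
      simp only [hxy]
    have := Fintype.card_le_of_injective u hinj
    simp at this
  · intro r hr u hu
    obtain ⟨s, hs⟩ := det_of_algInd _ hu
    obtain ⟨T, rfl⟩ : ∃ T, v = T + r := ⟨v - r, by omega⟩
    refine jac_ge b L hL (fun a => q (u a)) s fun h1 => hs ?_
    refine ge_low' b L hL (d := M * δ) (by omega) ?_ h1
    refine (totalDegree_det_le' _ δ ?_).trans (Nat.mul_le_mul_right _ hr)
    intro i j
    rw [Matrix.of_apply]
    exact (totalDegree_pderiv_le _ _).trans ((Nat.sub_le _ _).trans (hq _))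

/-- The same for arbitrary finite index types. -/
theorem faithful_low' (hL : LinearIndependent ℚ L) {ι : Type} [Fintype ι] {δ v : ℕ}
    (q : ι → MvPolynomial σ ℚ) (hq : ∀ a, (q a).totalDegree ≤ δ)
    (hv : Fintype.card ι * δ + Fintype.card ι ≤ v) {H : MvPolynomial σ ℚ}
    (hH : H ∈ Algebra.adjoin ℚ (Set.range q)) (h0 : ge b L v H = 0) : H = 0 := by
  have h1 : Set.range q = Set.range (q ∘ (Fintype.equivFin ι).symm) := by
    rw [(Fintype.equivFin ι).symm.surjective.range_comp]
  rw [h1] at hH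
  exact faithful_low b L hL (q ∘ (Fintype.equivFin ι).symm) (fun a => hq _) hv hH h0

end Pool.Agent.H964R3
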