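import Mathlib

/-!
# Linear relations among power products of coprime linear polynomials in one variable

In a minimal linear relation (over the field of constants, characteristic zero) among power
products `∏ g_j ^ e_ij` of pairwise coprime linear polynomials, all exponent vectors are close
to each other. Consequently a linear relation splits along any partition of the power products
into classes whose exponent vectors are far from each other.
-/

set_option autoImplicit false

namespace Pool.Agent.H964R3

open Polynomial

set_option linter.unusedSectionVars false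

variable {K : Type*} [Field K] [CharZero K]

/-- Proportional derivatives imply proportionality. -/
theorem prop_K {b : K[X]} (hb : b ≠ 0) {a : K[X]}
    (h : a * derivative b = b * derivative a) : ∃ x : K, a = C x * b := by
  have hcoef : ∀ (f : K[X]) (k : ℕ), (X * derivative f).coeff k = k * f.coeff k := by
    intro f k
    cases k with
    | zero => simp
    | succ k => rw [coeff_X_mul, coeff_derivative]; push_cast; ring
  have hdeg : ∀ f : K[X], (X * derivative f).natDegree ≤ f.natDegree := by
    intro f
    rw [natDegree_le_iff_coeff_eq_zero]
    intro k hk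
    rw [hcoef, coeff_eq_zero_of_natDegree_lt hk, mul_zero]
  have hb' : b.coeff b.natDegree ≠ 0 := by
    rw [coeff_natDegree]; exact leadingCoeff_ne_zero.2 hb
  have key : ∀ c : K[X], c ≠ 0 → c * derivative b = b * derivative c →
      c.natDegree = b.natDegree := by
    intro c hc h
    have h' : c * (X * derivative b) = b * (X * derivative c) := by linear_combination X * h
    have h1 := congrArg (fun p => coeff p (c.natDegree + b.natDegree)) h'
    rw [coeff_mul_add_eq_of_natDegree_le le_rfl (hdeg b), add_comm c.natDegree,
      coeff_mul_add_eq_of_natDegree_le le_rfl (hdeg c), hcoef, hcoef] at h1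
    have hc' : c.coeff c.natDegree ≠ 0 := by
      rw [coeff_natDegree]; exact leadingCoeff_ne_zero.2 hc
    have h2 : (c.coeff c.natDegree * b.coeff b.natDegree) * ((b.natDegree : K) - c.natDegree) = 0 := by
      linear_combination h1
    rcases mul_eq_zero.1 h2 with h3 | h3
    · exact absurd h3 (mul_ne_zero hc' hb')
    · have : (b.natDegree : K) = c.natDegree := sub_eq_zero.1 h3
      exact_mod_cast this.symm
  by_cases ha : a = 0
  · exact ⟨0, by simp [ha]⟩
  have hab := key a ha h
  refine ⟨a.leadingCoeff / b.leadingCoeff, ?_⟩
  by_contra hne
  set x := a.leadingCoeff / b.leadingCoeff with hx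
  set c := a - C x * b with hc
  have hc0 : c ≠ 0 := sub_ne_zero.2 hne
  have h2 : c * derivative b = b * derivative c := by
    rw [hc, derivative_sub, derivative_C_mul]
    linear_combination h
  have h3 := key c hc0 h2
  have h4 : c.coeff b.natDegree = 0 := by
    rw [hc, coeff_sub, coeff_C_mul, coeff_natDegree]
    have : a.coeff b.natDegree = a.leadingCoeff := by rw [← hab]; rfl
    rw [this, hx, div_mul_cancel₀ _ (leadingCoeff_ne_zero.2 hb), sub_self]
  rw [← h3, coeff_natDegree] at h4
  exact hc0 (leadingCoeff_eq_zero.1 h4)

/-- The Wronskian matrix. -/
noncomputable def Wm {r : ℕ} (f : Fin r → K[X]) : Matrix (Fin r) (Fin r) K[X] :=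
  Matrix.of fun b l : Fin r => (derivative^[(l : ℕ)]) (f b)

/-- If the Wronskian vanishes then the family is linearly dependent. -/
theorem wronskian_depK :
    ∀ (r : ℕ) (f : Fin r → K[X]), (Wm f).det = 0 →
      ∃ c : Fin r → K, c ≠ 0 ∧ ∑ b, C (c b) * f b = 0 := by
  intro r
  induction r with
  | zero => intro f h; simp [Wm] at h
  | succ r ih =>
    intro f h
    by_cases hW : (Wm (fun b : Fin r => f b.succ)).det = 0
    · obtain ⟨c, hc, hs⟩ := ih (fun b => f b.succ) hW
      refine ⟨Fin.cons 0 c, ?_, ?_⟩
      · intro h0
        apply hc
        funext b
        have := congrFun h0 b.succ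
        simpa using this
      · rw [Fin.sum_univ_succ]
        simp [hs]
    · obtain ⟨a, ha, hM⟩ := Matrix.exists_vecMul_eq_zero_iff.2 h
      have hrel : ∀ l : ℕ, l < r + 1 → ∑ b, a b * (derivative^[l]) (f b) = 0 := by
        intro l hl
        have := congrFun hM ⟨l, hl⟩
        simpa [Matrix.vecMul, dotProduct, Wm] using this
      have hker : ∀ u : Fin r → K[X],
          (∀ l : ℕ, l < r → ∑ b, u b * (derivative^[l]) (f b.succ) = 0) → u = 0 := by
        intro u hu
        by_contra hne
        apply hW
        refine Matrix.exists_vecMul_eq_zero_iff.1 ⟨u, hne, ?_⟩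
        funext l
        simpa [Matrix.vecMul, dotProduct, Wm] using hu l l.2
      have ha0 : a 0 ≠ 0 := by
        intro h0
        have h1 : (fun b : Fin r => a b.succ) = 0 := by
          apply hker
          intro l hl
          have := hrel l (by omega)
          rw [Fin.sum_univ_succ, h0] at this
          simpa using this
        apply ha
        funext b
        refine Fin.cases h0 (fun b => ?_) b
        exact congrFun h1 b
      have hrel' : ∀ l : ℕ, l < r → ∑ b, derivative (a b) * (derivative^[l]) (f b) = 0 := by
        intro l hl
        have h1 := hrel l (by omega)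
        have h2 := hrel (l + 1) (by omega)
        have h3 := congrArg derivative h1
        rw [derivative_sum, derivative_zero] at h3
        simp only [derivative_mul] at h3
        rw [Finset.sum_add_distrib] at h3
        simp only [Function.iterate_succ_apply'] at h2
        rw [h2, add_zero] at h3
        exact h3
      have hu : (fun b : Fin r => a 0 * derivative (a b.succ) - a b.succ * derivative (a 0)) = 0 := by
        apply hker
        intro l hl
        have h1 := hrel l (by omega)
        have h2 := hrel' l hl
        rw [Fin.sum_univ_succ] at h1 h2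
        have e : ∑ b : Fin r, (a 0 * derivative (a b.succ) - a b.succ * derivative (a 0)) *
              (derivative^[l]) (f b.succ)
            = a 0 * ∑ b : Fin r, derivative (a b.succ) * (derivative^[l]) (f b.succ)
              - derivative (a 0) * ∑ b : Fin r, a b.succ * (derivative^[l]) (f b.succ) := by
          rw [Finset.mul_sum, Finset.mul_sum, ← Finset.sum_sub_distrib]
          exact Finset.sum_congr rfl fun b _ => by ring
        rw [e]
        have e1 : ∑ b : Fin r, derivative (a b.succ) * (derivative^[l]) (f b.succ)
            = - (derivative (a 0) * (derivative^[l]) (f 0)) := by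
          linear_combination h2
        have e2 : ∑ b : Fin r, a b.succ * (derivative^[l]) (f b.succ)
            = - (a 0 * (derivative^[l]) (f 0)) := by
          linear_combination h1
        rw [e1, e2]
        ring
      have hx' : ∀ b : Fin r, ∃ x : K, a b.succ = C x * a 0 := by
        intro b
        apply prop_K ha0
        have := congrFun hu b
        simp only [Pi.zero_apply] at this
        linear_combination -this
      choose x hx' using hx'
      refine ⟨Fin.cons 1 x, ?_, ?_⟩
      · intro h0
        have := congrFun h0 0
        simp at this
      · apply mul_left_cancel₀ ha0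
        rw [mul_zero, Fin.sum_univ_succ]
        simp only [Fin.cons_zero, Fin.cons_succ, C_1]
        have h1 := hrel 0 (by omega)
        simp only [Function.iterate_zero, id_eq] at h1
        rw [Fin.sum_univ_succ] at h1
        have e : a 0 * ∑ b : Fin r, C (x b) * f b.succ = ∑ b : Fin r, a b.succ * f b.succ := by
          rw [Finset.mul_sum]
          refine Finset.sum_congr rfl fun b _ => ?_
          have := hx' b
          linear_combination (-f b.succ) * this
        rw [mul_add, e]
        linear_combination h1

/-- The Wronskian is divisible by powers of `q` if the members are. -/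
theorem pow_dvd_det_Wm {r : ℕ} (f : Fin r → K[X]) (q : K[X]) (ε : Fin r → ℕ)
    (hε : ∀ b, q ^ ε b ∣ f b) : q ^ (∑ b, (ε b - (r - 1))) ∣ (Wm f).det := by
  have h1 : ∀ b l : Fin r, ∃ z, (derivative^[(l : ℕ)]) (f b) = q ^ (ε b - (r - 1)) * z := by
    intro b l
    have h2 := pow_sub_dvd_iterate_derivative_of_pow_dvd (l : ℕ) (hε b)
    have h3 : q ^ (ε b - (r - 1)) ∣ q ^ (ε b - (l : ℕ)) := pow_dvd_pow _ (by omega)
    exact h3.trans h2
  choose z hz using h1
  have h2 : Wm f = Matrix.of fun b l => q ^ (ε b - (r - 1)) * z b l := by
    ext1 b l
    simp only [Wm, Matrix.of_apply]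
    exact hz b l
  rw [h2]
  have h3 := Matrix.det_mul_column (fun b => q ^ (ε b - (r - 1))) (Matrix.of z)
  simp only [Matrix.of_apply] at h3
  rw [h3, Finset.prod_pow_eq_pow_sum]
  exact dvd_mul_right _ _

/-- The degree of the Wronskian. -/
theorem natDegree_det_Wm {r : ℕ} (f : Fin r → K[X]) :
    (Wm f).det.natDegree ≤ ∑ b, (f b).natDegree := by
  rw [Matrix.det_apply]
  apply natDegree_sum_le_of_forall_le
  intro σ _
  refine (natDegree_smul_le _ _).trans ?_
  refine (natDegree_prod_le _ _).trans ?_
  refine le_trans (Finset.sum_le_sum fun l _ => ?_) (Equiv.sum_comp σ fun b => (f b).natDegree).le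
  simp only [Wm, Matrix.of_apply]
  exact (natDegree_iterate_derivative _ _).trans (Nat.sub_le _ _)

end Pool.Agent.H964R3
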