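import Mathlib
import Pool.Agent.H964R3.Far

/-!
# Linear relations among power products split along far classes
-/

set_option autoImplicit false

namespace Pool.Agent.H964R3

open Polynomial

set_option linter.unusedSectionVars false

variable {K : Type*} [Field K] [CharZero K] {n : ℕ} {ι : Type*} [DecidableEq ι]

/-- Exchange of one row of a Wronskian along a linear relation. -/
theorem det_exchange {m : ℕ} (f : Fin m → K[X]) (w : K[X]) (c : Fin m → K) (d : K)
    (x0 : Fin m) (hrel : C d * w + ∑ x, C (c x) * f x = 0) :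
    C (c x0) * (Wm f).det = - (C d * (Wm (Function.update f x0 w)).det) := by
  have h1 := Matrix.det_updateRow_sum (Wm f) x0 (fun x => C (c x))
  have h2 : (∑ x, C (c x) • (Wm f) x) = (- C d) • (fun l : Fin m => (derivative^[(l : ℕ)]) w) := by
    funext l
    have h3 := congrArg (derivative^[(l : ℕ)]) hrel
    have h4 : (derivative^[(l : ℕ)]) (C d * w + ∑ x, C (c x) * f x) =
        C d * (derivative^[(l : ℕ)]) w + ∑ x, C (c x) * (derivative^[(l : ℕ)]) (f x) := by
      rw [iterate_map_add, iterate_derivative_C_mul, iterate_derivative_sum]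
      simp only [iterate_derivative_C_mul]
    rw [h4, iterate_derivative_zero] at h3
    simp only [Finset.sum_apply, Pi.smul_apply, smul_eq_mul, Wm, Matrix.of_apply]
    linear_combination h3
  rw [h2, Matrix.det_updateRow_smul] at h1
  have h5 : (Wm f).updateRow x0 (fun l : Fin m => (derivative^[(l : ℕ)]) w) =
      Wm (Function.update f x0 w) := by
    ext1 b l
    by_cases hb : b = x0
    · subst hb
      simp [Wm]
    · rw [Matrix.updateRow_ne hb]
      simp [Wm, Function.update_of_ne hb]
  rw [h5] at h1
  linear_combination -h1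

/-- In a minimal relation all exponent vectors are close to each other. -/
theorem far_aux (g : Fin n → K[X]) (hg : ∀ j, (g j).natDegree = 1)
    (hco : ∀ j j', j ≠ j' → IsCoprime (g j) (g j')) (e : ι → Fin n → ℕ) (t : Finset ι)
    (d : ι → K) (hd : ∀ i ∈ t, d i ≠ 0) (hrel : ∑ i ∈ t, C (d i) * ∏ j, g j ^ e i j = 0)
    (hmin : ∀ s, s ⊂ t → ∀ c : ι → K, ∑ i ∈ s, C (c i) * ∏ j, g j ^ e i j = 0 →
      ∀ i ∈ s, c i = 0) (a b : ι) (ha : a ∈ t) (hb : b ∈ t) :
    ∑ j, (e a j - e b j) ≤ n * t.card ^ 2 := by
  classical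
  have hg0 : ∀ j, g j ≠ 0 := by
    intro j h0
    have := hg j
    rw [h0] at this
    simp at this
  set u : ι → K[X] := fun i => ∏ j, g j ^ e i j with hu
  have hudeg : ∀ i, (u i).natDegree = ∑ j, e i j := by
    intro i
    rw [hu]
    simp only
    rw [natDegree_prod _ _ fun j _ => pow_ne_zero _ (hg0 j)]
    exact Finset.sum_congr rfl fun j _ => by rw [natDegree_pow, hg, mul_one]
  set s := t.erase a with hs
  set m := s.card with hm
  let σ : Fin m ≃ s := s.equivFin.symm
  set f : Fin m → K[X] := fun x => u (σ x) with hf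
  -- the Wronskian is nonzero
  have hW : (Wm f).det ≠ 0 := by
    intro h0
    obtain ⟨c, hc, hs0⟩ := wronskian_depK m f h0
    apply hc
    have h1 := hmin s (Finset.erase_ssubset ha)
      (fun i => if h : i ∈ s then c (σ.symm ⟨i, h⟩) else 0) (by
        rw [← Finset.sum_coe_sort s, ← Equiv.sum_comp σ]
        rw [← hs0]
        refine Finset.sum_congr rfl fun x _ => ?_
        have h2 : ((σ x : s) : ι) ∈ s := (σ x).2
        simp only [dif_pos h2, Subtype.coe_eta, Equiv.symm_apply_apply]
        rfl)
    funext x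
    have h2 := h1 (σ x) (σ x).2
    simp only [dif_pos (σ x).2, Subtype.coe_eta, Equiv.symm_apply_apply] at h2
    exact h2
  have hsumf : ∀ φ : ι → ℕ, ∑ x : Fin m, φ (σ x) = ∑ i ∈ s, φ i := by
    intro φ
    rw [← Finset.sum_coe_sort s, ← Equiv.sum_comp σ]
  -- divisibility
  have hbmin : ∀ j, ∃ b ∈ t, ∀ i ∈ t, e b j ≤ e i j := fun j =>
    Finset.exists_min_image t (fun i => e i j) ⟨a, ha⟩
  choose β hβt hβ using hbmin
  have hdiv : ∀ j, g j ^ ((∑ i ∈ t, e i j) - e (β j) j - m * (m - 1)) ∣ (Wm f).det := by
    intro j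
    have hu_dvd : ∀ i, g j ^ e i j ∣ u i := fun i =>
      Finset.dvd_prod_of_mem (fun j => g j ^ e i j) (Finset.mem_univ j)
    have hsub : ∀ ε : Fin m → ℕ, (∑ x, ε x) - m * (m - 1) ≤ ∑ x, (ε x - (m - 1)) := by
      intro ε
      have h1 : ∑ x, ε x ≤ ∑ x, (ε x - (m - 1)) + ∑ _x : Fin m, (m - 1) := by
        rw [← Finset.sum_add_distrib]
        exact Finset.sum_le_sum fun x _ => by omega
      rw [Finset.sum_const, Finset.card_univ, Fintype.card_fin, smul_eq_mul] at h1
      omega
    by_cases hβa : β j = a
    · have h1 := pow_dvd_det_Wm f (g j) (fun x => e (σ x) j) (fun x => hu_dvd _)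
      refine (pow_dvd_pow _ ?_).trans h1
      refine le_trans ?_ (hsub _)
      rw [hsumf (fun i => e i j), hβa, ← Finset.add_sum_erase t (fun i => e i j) ha]
      rw [← hs]
      omega
    · have hβs : β j ∈ s := Finset.mem_erase.2 ⟨hβa, hβt j⟩
      set x0 : Fin m := σ.symm ⟨β j, hβs⟩ with hx0
      have hσx0 : ((σ x0 : s) : ι) = β j := by rw [hx0, Equiv.apply_symm_apply]
      have h1 := pow_dvd_det_Wm (Function.update f x0 (u a)) (g j)
        (Function.update (fun x => e (σ x) j) x0 (e a j)) (by
          intro x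
          by_cases hx : x = x0
          · subst hx
            rw [Function.update_self, Function.update_self]
            exact hu_dvd a
          · rw [Function.update_of_ne hx, Function.update_of_ne hx]
            exact hu_dvd _)
      have h2 := det_exchange f (u a) (fun x => d (σ x)) (d a) x0 (by
        have h3 : ∑ x : Fin m, C (d (σ x)) * f x = ∑ i ∈ s, C (d i) * u i := by
          rw [← Finset.sum_coe_sort s, ← Equiv.sum_comp σ]
        rw [h3, hs, Finset.add_sum_erase t (fun i => C (d i) * u i) ha]
        exact hrel)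
      have h3 : g j ^ ((∑ i ∈ t, e i j) - e (β j) j - m * (m - 1)) ∣ C (d (σ x0)) * (Wm f).det := by
        rw [h2, dvd_neg]
        refine Dvd.dvd.mul_left ?_ _
        refine (pow_dvd_pow _ ?_).trans h1
        refine le_trans ?_ (hsub _)
        have h4 : ∑ x, Function.update (fun x => e (σ x) j) x0 (e a j) x + e (β j) j
            = ∑ i ∈ t, e i j := by
          rw [Finset.sum_update_of_mem (Finset.mem_univ x0)]
          rw [← Finset.add_sum_erase t (fun i => e i j) ha, ← hs, ← hsumf (fun i => e i j)]
          rw [← Finset.add_sum_erase Finset.univ (fun x : Fin m => e (σ x) j)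
            (Finset.mem_univ x0), hσx0, Finset.sdiff_singleton_eq_erase]
          ring
        omega
      have h5 : IsUnit (C (d (σ x0)) : K[X]) := by
        rw [isUnit_C]
        exact (hd _ (by rw [hσx0]; exact hβt j)).isUnit
      exact (h5.dvd_mul_left).1 h3
  have hprod : ∏ j, g j ^ ((∑ i ∈ t, e i j) - e (β j) j - m * (m - 1)) ∣ (Wm f).det := by
    refine Finset.prod_dvd_of_coprime ?_ fun j _ => hdiv j
    intro j _ j' _ hjj
    exact (hco j j' hjj).pow
  have hdeg := natDegree_le_of_dvd hprod hW
  rw [natDegree_prod _ _ fun j _ => pow_ne_zero _ (hg0 j)] at hdeg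
  have hdeg2 := hdeg.trans (natDegree_det_Wm f)
  have e1 : ∑ x, (f x).natDegree = ∑ i ∈ s, ∑ j, e i j := by
    rw [← hsumf (fun i => ∑ j, e i j)]
    exact Finset.sum_congr rfl fun x _ => hudeg _
  rw [e1, Finset.sum_comm] at hdeg2
  have e2 : ∀ j, (g j ^ ((∑ i ∈ t, e i j) - e (β j) j - m * (m - 1))).natDegree
      = (∑ i ∈ t, e i j) - e (β j) j - m * (m - 1) := by
    intro j
    rw [natDegree_pow, hg, mul_one]
  simp only [e2] at hdeg2
  -- conclusion
  have h6 : ∀ j, (∑ i ∈ s, e i j) + e a j = ∑ i ∈ t, e i j := by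
    intro j
    rw [← Finset.add_sum_erase t (fun i => e i j) ha, ← hs, add_comm]
  have h7 : ∑ j, (∑ i ∈ s, e i j + (e a j - e (β j) j)) ≤
      ∑ j, ((∑ i ∈ t, e i j) - e (β j) j - m * (m - 1)) + n * (m * (m - 1)) := by
    have h8 : ∑ _j : Fin n, (m * (m - 1)) = n * (m * (m - 1)) := by
      rw [Finset.sum_const, Finset.card_univ, Fintype.card_fin, smul_eq_mul]
    rw [← h8, ← Finset.sum_add_distrib]
    refine Finset.sum_le_sum fun j _ => ?_
    have h9 := h6 j
    have h10 := hβ j a ha
    omega
  rw [Finset.sum_add_distrib] at h7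
  have h8 : ∑ j, (e a j - e (β j) j) ≤ n * (m * (m - 1)) := by omega
  have h9 : ∑ j, (e a j - e b j) ≤ ∑ j, (e a j - e (β j) j) :=
    Finset.sum_le_sum fun j _ => Nat.sub_le_sub_left (hβ j b hb) _
  have h11 : n * (m * (m - 1)) ≤ n * t.card ^ 2 := by
    apply Nat.mul_le_mul_left
    have h12 : m ≤ t.card := Finset.card_le_card (Finset.erase_subset _ _)
    rw [sq]
    exact Nat.mul_le_mul h12 ((Nat.sub_le _ _).trans h12)
  omega

/-- A linear relation among power products splits along far classes. -/
theorem sep (g : Fin n → K[X]) (hg : ∀ j, (g j).natDegree = 1)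
    (hco : ∀ j j', j ≠ j' → IsCoprime (g j) (g j')) (e : ι → Fin n → ℕ) (lab : ι → ℕ) (N : ℕ)
    (hfar : ∀ i i', lab i ≠ lab i' →
      N < ∑ j, (e i j - e i' j) ∨ N < ∑ j, (e i' j - e i j)) :
    ∀ (k : ℕ) (s : Finset ι) (c : ι → K), s.card = k → n * s.card ^ 2 ≤ N →
      ∑ i ∈ s, C (c i) * ∏ j, g j ^ e i j = 0 →
      ∀ l, ∑ i ∈ s.filter (fun i => lab i = l), C (c i) * ∏ j, g j ^ e i j = 0 := by
  classical
  intro k
  induction k using Nat.strong_induction_on with
  | _ k ih =>
    intro s c hk hN h l
    set u : ι → K[X] := fun i => ∏ j, g j ^ e i j with hu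
    by_cases hs : ∃ i ∈ s, c i = 0
    · obtain ⟨i0, hi0, hc0⟩ := hs
      have hlt : (s.erase i0).card < k := by
        rw [← hk]; exact Finset.card_erase_lt_of_mem hi0
      have h1 := ih (s.erase i0).card hlt (s.erase i0) c rfl
        (le_trans (Nat.mul_le_mul_left _ (Nat.pow_le_pow_left (by omega) 2)) hN) (by
          rw [← Finset.add_sum_erase s (fun i => C (c i) * u i) hi0] at h
          simpa [hc0] using h) l
      rw [Finset.filter_erase] at h1
      by_cases hl : i0 ∈ s.filter (fun i => lab i = l)
      · rw [← Finset.add_sum_erase _ (fun i => C (c i) * u i) hl, hc0, C_0, zero_mul, zero_add]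
        exact h1
      · rwa [Finset.erase_eq_of_notMem hl] at h1
    · push Not at hs
      rcases s.eq_empty_or_nonempty with rfl | hne
      · simp
      -- a minimal relation
      let P : Finset ι → Prop := fun t => t.Nonempty ∧ ∃ d : ι → K, (∀ i ∈ t, d i ≠ 0) ∧
        ∑ i ∈ t, C (d i) * u i = 0
      have hPs : s ∈ s.powerset.filter P := by
        rw [Finset.mem_filter, Finset.mem_powerset]
        exact ⟨subset_rfl, hne, c, hs, h⟩
      obtain ⟨t, ht, htmin⟩ := Finset.exists_min_image (s.powerset.filter P) Finset.card ⟨s, hPs⟩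
      rw [Finset.mem_filter, Finset.mem_powerset] at ht
      obtain ⟨hts, htne, d, hd, hdrel⟩ := ht
      have hmin : ∀ s', s' ⊂ t → ∀ c' : ι → K, ∑ i ∈ s', C (c' i) * ∏ j, g j ^ e i j = 0 →
          ∀ i ∈ s', c' i = 0 := by
        intro s' hs' c' hc' i hi
        by_contra hne'
        have h1 : s'.filter (fun i => c' i ≠ 0) ∈ s.powerset.filter P := by
          rw [Finset.mem_filter, Finset.mem_powerset]
          refine ⟨((Finset.filter_subset _ _).trans hs'.1).trans hts,
            ⟨i, Finset.mem_filter.2 ⟨hi, hne'⟩⟩, c', fun i hi => (Finset.mem_filter.1 hi).2, ?_⟩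
          rw [← hc', Finset.sum_filter]
          refine Finset.sum_congr rfl fun i _ => ?_
          by_cases h0 : c' i = 0
          · simp [h0]
          · simp [h0, hu]
        have h2 := htmin _ h1
        have h3 := Finset.card_lt_card hs'
        have h4 := Finset.card_le_card (Finset.filter_subset (fun i => c' i ≠ 0) s')
        omega
      have hclose := far_aux g hg hco e t d hd hdrel hmin
      have htcard : n * t.card ^ 2 ≤ N :=
        le_trans (Nat.mul_le_mul_left _ (Nat.pow_le_pow_left (Finset.card_le_card hts) 2)) hN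
      obtain ⟨i0, hi0⟩ := htne
      have hlab : ∀ i ∈ t, lab i = lab i0 := by
        intro i hi
        by_contra hne'
        have hj := hfar i i0 hne'
        have h1 := hclose i i0 hi hi0
        have h2 := hclose i0 i hi0 hi
        omega
      set lam : K := c i0 / d i0 with hlam
      let c2 : ι → K := fun i => if i ∈ t then c i - lam * d i else c i
      have hc2 : c2 i0 = 0 := by
        simp only [c2, if_pos hi0, hlam]
        rw [div_mul_cancel₀ _ (hd i0 hi0), sub_self]
      have hsplit : ∀ s' : Finset ι, ∑ i ∈ s', C (c2 i) * u i =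
          ∑ i ∈ s', C (c i) * u i - C lam * ∑ i ∈ s' ∩ t, C (d i) * u i := by
        intro s'
        rw [← Finset.filter_mem_eq_inter, Finset.sum_filter, Finset.mul_sum,
          ← Finset.sum_sub_distrib]
        refine Finset.sum_congr rfl fun i _ => ?_
        by_cases hi : i ∈ t
        · simp only [c2, if_pos hi, C_sub, C_mul]; ring
        · simp only [c2, if_neg hi]; ring
      have hrel2 : ∑ i ∈ s, C (c2 i) * u i = 0 := by
        rw [hsplit, Finset.inter_eq_right.2 hts, hdrel, mul_zero, sub_zero]
        exact h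
      have hi0s : i0 ∈ s := hts hi0
      have hlt : (s.erase i0).card < k := by
        rw [← hk]; exact Finset.card_erase_lt_of_mem hi0s
      have h1 := ih (s.erase i0).card hlt (s.erase i0) c2 rfl
        (le_trans (Nat.mul_le_mul_left _ (Nat.pow_le_pow_left (by omega) 2)) hN) (by
          rw [← Finset.add_sum_erase s (fun i => C (c2 i) * u i) hi0s] at hrel2
          simpa [hc2] using hrel2) l
      have h2 : ∑ i ∈ s.filter (fun i => lab i = l), C (c2 i) * u i = 0 := by
        rw [Finset.filter_erase] at h1
        by_cases hl : i0 ∈ s.filter (fun i => lab i = l)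
        · rw [← Finset.add_sum_erase _ (fun i => C (c2 i) * u i) hl, hc2, C_0, zero_mul, zero_add]
          exact h1
        · rwa [Finset.erase_eq_of_notMem hl] at h1
      rw [hsplit] at h2
      have h3 : ∑ i ∈ s.filter (fun i => lab i = l) ∩ t, C (d i) * u i = 0 := by
        by_cases hl : lab i0 = l
        · have h4 : s.filter (fun i => lab i = l) ∩ t = t := by
            rw [Finset.inter_eq_right]
            intro i hi
            rw [Finset.mem_filter]
            exact ⟨hts hi, (hlab i hi).trans hl⟩
          rw [h4, hdrel]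
        · have h4 : s.filter (fun i => lab i = l) ∩ t = ∅ := by
            rw [← Finset.disjoint_iff_inter_eq_empty, Finset.disjoint_left]
            intro i hi hit
            rw [Finset.mem_filter] at hi
            exact hl ((hlab i hit).symm.trans hi.2)
          rw [h4, Finset.sum_empty]
      rw [h3, mul_zero, sub_zero] at h2
      exact h2

end Pool.Agent.H964R3
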