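import Mathlib
import Pool.Agent.H964R3.SepW
import Pool.Agent.H964R3.Faith
import Pool.Agent.H964R3.Coef

/-!
# Far classes of power products of general bases remain separated after the substitution
-/

set_option autoImplicit false
set_option linter.unusedSectionVars false

namespace Pool.Agent.H964R3

open MvPolynomial Pool.Agent.H626R2 Pool.Agent.H626R2.Clu

variable {σ : Type} [Fintype σ] {v : ℕ}

/-- Two families of coefficients for the points. -/
abbrev B3 (v : ℕ) : Type := MvPolynomial (Fin (v + v) ⊕ Fin v) ℚ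

/-- The fraction field. -/
abbrev K3 (v : ℕ) : Type := FractionRing (B3 v)

instance (v : ℕ) : CharZero (K3 v) :=
  charZero_of_injective_algebraMap (R := B3 v) (IsFractionRing.injective (B3 v) (K3 v))

/-- The pair of generators. -/
noncomputable def Phi2 (v : ℕ) (w : σ → ℕ) : MvPolynomial (σ ⊕ σ) ℚ →ₐ[ℚ] B3 v :=
  aeval (Sum.elim
    (fun i => ∑ t : Fin v, X (Sum.inr t) * X (Sum.inl (Fin.natAdd v t)) ^ w i)
    (fun i => ∑ t : Fin v, X (Sum.inl (Fin.castAdd v t)) * X (Sum.inl (Fin.natAdd v t)) ^ w i))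

/-- Translation of the generator. -/
noncomputable def Psi3 (v : ℕ) : MvPolynomial (Fin (v + v)) ℚ →ₐ[ℚ] Polynomial (B3 v) :=
  aeval fun s => Fin.addCases (motive := fun _ => Polynomial (B3 v))
    (fun t : Fin v => Polynomial.C (X (Sum.inl (Fin.castAdd v t))) +
      Polynomial.X * Polynomial.C (X (Sum.inr t)))
    (fun t : Fin v => Polynomial.C (X (Sum.inl (Fin.natAdd v t)))) s

theorem Psi3_y (t : Fin v) : Psi3 v (X (Fin.castAdd v t)) =
    Polynomial.C (X (Sum.inl (Fin.castAdd v t))) + Polynomial.X * Polynomial.C (X (Sum.inr t)) := by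
  rw [Psi3, aeval_X, Fin.addCases_left]

theorem Psi3_z (t : Fin v) : Psi3 v (X (Fin.natAdd v t)) =
    Polynomial.C (X (Sum.inl (Fin.natAdd v t))) := by
  rw [Psi3, aeval_X, Fin.addCases_right]

theorem Psi3_eval (f : MvPolynomial (Fin (v + v)) ℚ) :
    (Psi3 v f).eval 0 = rename Sum.inl f := by
  have h : ((Polynomial.evalRingHom (0 : B3 v)).comp (Psi3 v).toRingHom) =
      (rename (R := ℚ) (Sum.inl : Fin (v + v) → Fin (v + v) ⊕ Fin v)).toRingHom := by
    apply MvPolynomial.ringHom_ext
    · intro z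
      simp only [RingHom.comp_apply, AlgHom.toRingHom_eq_coe, RingHom.coe_coe, rename_C]
      rw [algHom_C]
      simp [Polynomial.algebraMap_apply, algebraMap_eq]
    · intro s
      refine Fin.addCases (fun t => ?_) (fun t => ?_) s
      · simp only [RingHom.comp_apply, AlgHom.toRingHom_eq_coe, RingHom.coe_coe, rename_X,
          Psi3_y]
        simp
      · simp only [RingHom.comp_apply, AlgHom.toRingHom_eq_coe, RingHom.coe_coe, rename_X,
          Psi3_z]
        simp
  have := congrArg (fun φ => φ f) h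
  simpa using this

theorem Psi3_inj (v : ℕ) : Function.Injective (Psi3 v) := by
  rw [injective_iff_map_eq_zero]
  intro f hf
  have h1 := Psi3_eval f
  rw [hf, Polynomial.eval_zero] at h1
  exact rename_injective _ Sum.inl_injective (by rw [← h1, map_zero])

theorem Psi3_Thq (w : σ → ℕ) (g : MvPolynomial σ ℚ) :
    Psi3 v (Thq v w g) = (tau g).map (Phi2 v w).toRingHom := by
  have h : ((Psi3 v).comp (Thq v w)).toRingHom =
      (Polynomial.mapRingHom (Phi2 v w).toRingHom).comp (tau (σ := σ)).toRingHom := by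
    apply MvPolynomial.ringHom_ext
    · intro r
      simp only [RingHom.comp_apply, AlgHom.toRingHom_eq_coe, RingHom.coe_coe, AlgHom.comp_apply]
      rw [algHom_C, algHom_C, AlgHom.commutes, Polynomial.coe_mapRingHom,
        Polynomial.algebraMap_apply, Polynomial.algebraMap_apply, Polynomial.map_C]
      congr 1
      exact ((Phi2 v w).commutes r).symm
    · intro i
      simp only [RingHom.comp_apply, AlgHom.toRingHom_eq_coe, RingHom.coe_coe, AlgHom.comp_apply]
      rw [Thq, aeval_X, map_sum, tau, aeval_X, Polynomial.coe_mapRingHom, Polynomial.map_add,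
        Polynomial.map_mul, Polynomial.map_C, Polynomial.map_C, Polynomial.map_X]
      have h1 : (↑(Phi2 v w) : MvPolynomial (σ ⊕ σ) ℚ →+* B3 v) (X (Sum.inr i)) =
          ∑ t : Fin v, X (Sum.inl (Fin.castAdd v t)) * X (Sum.inl (Fin.natAdd v t)) ^ w i := by
        simp [Phi2]
      have h2 : (↑(Phi2 v w) : MvPolynomial (σ ⊕ σ) ℚ →+* B3 v) (X (Sum.inl i)) =
          ∑ t : Fin v, X (Sum.inr t) * X (Sum.inl (Fin.natAdd v t)) ^ w i := by
        simp [Phi2]
      rw [h1, h2, map_sum, map_sum, Finset.mul_sum, ← Finset.sum_add_distrib]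
      refine Finset.sum_congr rfl fun t _ => ?_
      rw [map_mul, map_pow, Psi3_y, Psi3_z, Polynomial.C_mul, Polynomial.C_mul, Polynomial.C_pow]
      ring
  have := congrArg (fun φ => φ g) h
  simpa using this

/-- The exponents of the double generator. -/
def w2 (w : σ → ℕ) : σ ⊕ σ → ℕ := Sum.elim (fun i => 2 * w i + 1) (fun i => 2 * w i)

theorem w2_inj {w : σ → ℕ} (hw : Function.Injective w) : Function.Injective (w2 w) := by
  intro x y h
  rcases x with x | x <;> rcases y with y | y <;> simp only [w2, Sum.elim_inl, Sum.elim_inr] at h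
  · rw [hw (by omega : w x = w y)]
  · omega
  · omega
  · rw [hw (by omega : w x = w y)]

/-- A specialisation. -/
noncomputable def Spec3 (v : ℕ) : B3 v →ₐ[ℚ] MvPolynomial (Fin (v + v)) ℚ :=
  aeval (Sum.elim (fun s => Fin.addCases (motive := fun _ => MvPolynomial (Fin (v + v)) ℚ)
    (fun t : Fin v => X (Fin.castAdd v t)) (fun t : Fin v => X (Fin.natAdd v t) ^ 2) s)
    (fun t => X (Fin.castAdd v t) * X (Fin.natAdd v t)))

theorem Spec3_Phi2 (w : σ → ℕ) (H : MvPolynomial (σ ⊕ σ) ℚ) :
    Spec3 v (Phi2 v w H) = Thq v (w2 w) H := by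
  have h : (Spec3 v).comp (Phi2 v w) = Thq v (w2 w) := by
    apply algHom_ext
    intro i
    rw [AlgHom.comp_apply, Thq, aeval_X, Phi2, aeval_X]
    rcases i with i | i
    · rw [Sum.elim_inl, map_sum]
      refine Finset.sum_congr rfl fun t _ => ?_
      rw [map_mul, map_pow, Spec3, aeval_X, aeval_X, Sum.elim_inr, Sum.elim_inl,
        Fin.addCases_right, w2, Sum.elim_inl, ← pow_mul, pow_succ]
      ring
    · rw [Sum.elim_inr, map_sum]
      refine Finset.sum_congr rfl fun t _ => ?_
      rw [map_mul, map_pow, Spec3, aeval_X, aeval_X, Sum.elim_inl, Sum.elim_inl,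
        Fin.addCases_right, Fin.addCases_left, w2, Sum.elim_inr, ← pow_mul]
  rw [← h, AlgHom.comp_apply]

/-- The generator `Thq` is injective on algebras generated by few polynomials of low degree. -/
theorem Thq_faithful {τ : Type} [Fintype τ] {w : τ → ℕ} (hw : Function.Injective w) {ι : Type}
    [Fintype ι] {δ : ℕ} (q : ι → MvPolynomial τ ℚ) (hq : ∀ a, (q a).totalDegree ≤ δ)
    (hv : Fintype.card ι * δ + Fintype.card ι ≤ v) {H : MvPolynomial τ ℚ}
    (hH : H ∈ Algebra.adjoin ℚ (Set.range q)) (h0 : Thq v w H = 0) : H = 0 := by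
  refine faithful_low' (fun _ => (0 : ℚ)) (fun i => (Polynomial.X : Polynomial ℚ) ^ w i)
    (linInd_pow hw) q hq hv hH ?_
  rw [← rename_Thq, h0, map_zero]

theorem Phi2_faithful {w : σ → ℕ} (hw : Function.Injective w) {ι : Type}
    [Fintype ι] {δ : ℕ} (q : ι → MvPolynomial (σ ⊕ σ) ℚ) (hq : ∀ a, (q a).totalDegree ≤ δ)
    (hv : Fintype.card ι * δ + Fintype.card ι ≤ v) {H : MvPolynomial (σ ⊕ σ) ℚ}
    (hH : H ∈ Algebra.adjoin ℚ (Set.range q)) (h0 : Phi2 v w H = 0) : H = 0 := by
  refine Thq_faithful (w2_inj hw) q hq hv hH ?_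
  rw [← Spec3_Phi2, h0, map_zero]

/-- The composite to the field. -/
noncomputable def phK (v : ℕ) (w : σ → ℕ) : MvPolynomial (σ ⊕ σ) ℚ →+* K3 v :=
  (algebraMap (B3 v) (K3 v)).comp (Phi2 v w).toRingHom

theorem phK_eq_zero {w : σ → ℕ} {H : MvPolynomial (σ ⊕ σ) ℚ} (h : phK v w H = 0) :
    Phi2 v w H = 0 := by
  apply IsFractionRing.injective (B3 v) (K3 v)
  rw [map_zero]
  exact h

/-- The number of points needed for a pair of bases. -/
def N2 (k δ : ℕ) : ℕ := (2 * (k * (δ + 1))) * δ + 2 * (k * (δ + 1))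

theorem card2 (k δ : ℕ) : Fintype.card ((Fin k × Fin (δ + 1)) ⊕ (Fin k × Fin (δ + 1))) =
    2 * (k * (δ + 1)) := by
  simp
  ring

/-- The algebra of the coefficients of a pair of bases. -/
noncomputable def qq {k δ : ℕ} (q q' : Fin k → MvPolynomial σ ℚ) :
    (Fin k × Fin (δ + 1)) ⊕ (Fin k × Fin (δ + 1)) → MvPolynomial (σ ⊕ σ) ℚ :=
  Sum.elim (fun y => (tau (q y.1)).coeff y.2) (fun y => (tau (q' y.1)).coeff y.2)

theorem qq_deg {k δ : ℕ} {q q' : Fin k → MvPolynomial σ ℚ} (hq : ∀ b, (q b).totalDegree ≤ δ)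
    (hq' : ∀ b, (q' b).totalDegree ≤ δ) (a : (Fin k × Fin (δ + 1)) ⊕ (Fin k × Fin (δ + 1))) :
    (qq q q' a).totalDegree ≤ δ := by
  rcases a with a | a
  · exact (PD_tau _ _).trans (hq _)
  · exact (PD_tau _ _).trans (hq' _)

/-- The degree on the line is preserved. -/
theorem natDegree_line {k δ : ℕ} (hv : N2 k δ ≤ v) {w : σ → ℕ} (hw : Function.Injective w)
    {g : MvPolynomial σ ℚ} (hg : g ≠ 0) (hgs : Simp k δ g) :
    ((tau g).map (phK v w)).natDegree = g.totalDegree := by
  obtain ⟨q, G, hq, rfl⟩ := hgs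
  set A := Algebra.adjoin ℚ (Set.range (qq (δ := δ) q q)) with hA
  have hl := tau_mem_lifts A q hq (fun b i =>
    Algebra.subset_adjoin ⟨Sum.inl (b, i), rfl⟩) G
  apply le_antisymm
  · exact Polynomial.natDegree_map_le.trans (natDegree_tau _)
  · apply Polynomial.le_natDegree_of_ne_zero
    rw [Polynomial.coeff_map]
    intro h0
    refine coeff_tau_top hg ?_
    refine Phi2_faithful hw (qq (δ := δ) q q) (qq_deg hq hq) ?_ (coeff_mem_of_lifts hl _)
      (phK_eq_zero h0)
    rw [card2]
    exact hv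

/-- Coprimality is preserved. -/
theorem isCoprime_line {k δ : ℕ} (hv : N2 k δ ≤ v) {w : σ → ℕ} (hw : Function.Injective w)
    {g h : MvPolynomial σ ℚ} (hg : g ≠ 0) (hgs : Simp k δ g) (hhs : Simp k δ h)
    (hgh : IsRelPrime g h) : IsCoprime ((tau g).map (phK v w)) ((tau h).map (phK v w)) := by
  by_cases hd : g.totalDegree = 0
  · have h1 : IsUnit ((tau g).map (phK v w)) := by
      have h2 := (totalDegree_eq_zero_iff_eq_C).1 hd
      have h3 : coeff 0 g ≠ 0 := by
        intro h0; rw [h0, C_0] at h2; exact hg h2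
      have h4 : IsUnit g := by
        rw [h2]
        exact (h3.isUnit).map C
      have h5 := h4.map (tau (σ := σ))
      exact h5.map (Polynomial.mapRingHom (phK v w))
    exact (isCoprime_one_left.of_isCoprime_of_dvd_left h1.dvd)
  · obtain ⟨q, G, hq, hgG⟩ := hgs
    obtain ⟨q', H, hq', hhH⟩ := hhs
    set A := Algebra.adjoin ℚ (Set.range (qq (δ := δ) q q')) with hA
    have hl := tau_mem_lifts A q hq (fun b i =>
      Algebra.subset_adjoin ⟨Sum.inl (b, i), rfl⟩) G
    have hl' := tau_mem_lifts A q' hq' (fun b i =>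
      Algebra.subset_adjoin ⟨Sum.inr (b, i), rfl⟩) H
    rw [← hgG] at hl
    rw [← hhH] at hl'
    have hinj : Function.Injective (algebraMap (MvPolynomial (σ ⊕ σ) ℚ)
      (FractionRing (MvPolynomial (σ ⊕ σ) ℚ))) := IsFractionRing.injective _ _
    have hR0 : Polynomial.resultant (tau g) (tau h) ≠ 0 := by
      intro h0
      have h1 := Polynomial.resultant_ne_zero _ _ (isCoprime_tau hg hgh)
      apply h1
      rw [Polynomial.natDegree_map_eq_of_injective hinj,
        Polynomial.natDegree_map_eq_of_injective hinj, Polynomial.resultant_map_map, h0, map_zero]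
    have hR1 : phK v w (Polynomial.resultant (tau g) (tau h)) ≠ 0 := by
      intro h0
      apply hR0
      refine Phi2_faithful hw (qq (δ := δ) q q') (qq_deg hq hq') ?_ (resultant_mem hl hl' _ _)
        (phK_eq_zero h0)
      rw [card2]
      exact hv
    have hdt : (tau g).natDegree ≠ 0 := by rw [natDegree_tau_eq hg]; exact hd
    obtain ⟨a, b, -, -, hab⟩ := Polynomial.exists_mul_add_mul_eq_C_resultant
      ((tau g).map (phK v w)) ((tau h).map (phK v w)) (m := (tau g).natDegree)
      (n := (tau h).natDegree) Polynomial.natDegree_map_le Polynomial.natDegree_map_le (Or.inl hdt)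
    rw [Polynomial.resultant_map_map] at hab
    set R := phK v w (Polynomial.resultant (tau g) (tau h)) with hR
    refine ⟨Polynomial.C R⁻¹ * a, Polynomial.C R⁻¹ * b, ?_⟩
    have h2 : Polynomial.C R⁻¹ * a * (tau g).map (phK v w) +
        Polynomial.C R⁻¹ * b * (tau h).map (phK v w) = Polynomial.C R⁻¹ * Polynomial.C R := by
      rw [← hab]; ring
    rw [h2, ← Polynomial.C_mul, inv_mul_cancel₀ hR1, Polynomial.C_1]

/-- A relation between the substituted power products splits along far classes. -/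
theorem sep_gen {k δ m p : ℕ} (hv : N2 k δ ≤ v) {w : σ → ℕ} (hw : Function.Injective w)
    (g : Fin p → MvPolynomial σ ℚ) (hg : ∀ j, g j ≠ 0) (hgs : ∀ j, Simp k δ (g j))
    (hgg : ∀ j j', j ≠ j' → IsRelPrime (g j) (g j')) (e : Fin m → Fin p → ℕ) (lab : Fin m → ℕ)
    (hfar : ∀ i i', lab i ≠ lab i' →
      (∑ j, (g j).totalDegree) * m ^ 2 < ∑ j, (g j).totalDegree * (e i j - e i' j) ∨
      (∑ j, (g j).totalDegree) * m ^ 2 < ∑ j, (g j).totalDegree * (e i' j - e i j))
    (c : Fin m → ℚ) (h : Thq v w (∑ i, C (c i) * ∏ j, g j ^ e i j) = 0) (l : ℕ) :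
    Thq v w (∑ i ∈ Finset.univ.filter (fun i => lab i = l), C (c i) * ∏ j, g j ^ e i j) = 0 := by
  classical
  set γ : Fin p → Polynomial (K3 v) := fun j => (tau (g j)).map (phK v w) with hγ
  have hdeg : ∀ j, (γ j).natDegree = (g j).totalDegree := fun j =>
    natDegree_line hv hw (hg j) (hgs j)
  have hinj : Function.Injective (algebraMap (B3 v) (K3 v)) := IsFractionRing.injective _ _
  have hPT : ∀ f : MvPolynomial σ ℚ, (Psi3 v (Thq v w f)).map (algebraMap (B3 v) (K3 v)) =
      (tau f).map (phK v w) := by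
    intro f
    rw [Psi3_Thq, Polynomial.map_map]
    rfl
  have hγ0 : ∀ j, γ j ≠ 0 := by
    intro j h0
    obtain ⟨q, G, hq, hgG⟩ := hgs j
    have hl := tau_mem_lifts (Algebra.adjoin ℚ (Set.range (qq (δ := δ) q q))) q hq (fun b i =>
      Algebra.subset_adjoin ⟨Sum.inl (b, i), rfl⟩) G
    rw [← hgG] at hl
    have h1 := congrArg (fun f => Polynomial.coeff f (g j).totalDegree) h0
    simp only [hγ, Polynomial.coeff_map, Polynomial.coeff_zero] at h1
    refine coeff_tau_top (hg j) ?_
    refine Phi2_faithful hw (qq (δ := δ) q q) (qq_deg hq hq) ?_ (coeff_mem_of_lifts hl _)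
      (phK_eq_zero h1)
    rw [card2]
    exact hv
  have hco : ∀ j j', j ≠ j' → IsCoprime (γ j) (γ j') := fun j j' hjj =>
    isCoprime_line hv hw (hg j) (hgs j) (hgs j') (hgg j j' hjj)
  have hsum : ∀ s : Finset (Fin m), (Psi3 v (Thq v w (∑ i ∈ s, C (c i) *
      ∏ j, g j ^ e i j))).map (algebraMap (B3 v) (K3 v)) =
      ∑ i ∈ s, Polynomial.C (phK v w (C (c i))) * ∏ j, γ j ^ e i j := by
    intro s
    rw [hPT, map_sum, Polynomial.map_sum]
    refine Finset.sum_congr rfl fun i _ => ?_
    rw [map_mul, map_prod, Polynomial.map_mul, Polynomial.map_prod]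
    congr 1
    · rw [algHom_C, Polynomial.algebraMap_apply, Polynomial.map_C]
      rfl
    · refine Finset.prod_congr rfl fun j _ => ?_
      rw [map_pow, Polynomial.map_pow]
  have h1 := sepW γ hγ0 hco e lab ((∑ j, (g j).totalDegree) * m ^ 2) (by
    intro i i' hii
    simp only [hdeg]
    exact hfar i i' hii) m Finset.univ (fun i => phK v w (C (c i))) (by simp) (by
      simp only [hdeg]
      simp) (by rw [← hsum, h, map_zero, Polynomial.map_zero]) l
  rw [← hsum] at h1
  rw [Polynomial.map_eq_zero_iff hinj] at h1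
  exact Psi3_inj v (by rw [h1, map_zero])

end Pool.Agent.H964R3
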