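import Mathlib
import Pool.Agent.H964R3.Line

/-!
# Injectivity of the substitution: general bases
-/

set_option autoImplicit false
set_option linter.unusedSectionVars false

namespace Pool.Agent.H964R3

open MvPolynomial Pool.Agent.H626R2 Pool.Agent.H626R2.Clu

variable {σ : Type} [Fintype σ] {v : ℕ}

theorem not_algInd_of_const {r : ℕ} {A : Type} [CommRing A] [Nontrivial A] [Algebra ℚ A]
    (T : Fin r → A) (b : Fin r) (c : ℚ) (hb : T b = algebraMap ℚ A c) :
    ¬ AlgebraicIndependent ℚ T := by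
  intro hu
  have h2 := (algebraicIndependent_iff.1 hu) (X b - C c) (by
    rw [map_sub, aeval_X, algHom_C, hb, sub_self])
  have h3 := congrArg (eval (fun _ => c + 1)) h2
  simp at h3

/-- Bases of bounded transcendence degree. -/
theorem trdeg_inj {k δ p : ℕ} (hv : k * k * δ + k * k ≤ v) {w : σ → ℕ}
    (hw : Function.Injective w) (g : Fin p → MvPolynomial σ ℚ) (hgs : ∀ j, Simp k δ (g j))
    (J : Fin p → Prop)
    (htr : ∀ u : Fin (k + 1) → Fin p, (∀ b, J (u b)) →
      ¬ AlgebraicIndependent ℚ (fun b => g (u b))) {H : MvPolynomial σ ℚ}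
    (hH : H ∈ Algebra.adjoin ℚ {f | ∃ j, J j ∧ f = g j}) (h0 : Thq v w H = 0) : H = 0 := by
  classical
  set T : Fin p → MvPolynomial σ ℚ := fun j => if J j then g j else 0 with hT
  have hT0 : ∀ j, ¬ J j → T j = algebraMap ℚ _ 0 := by
    intro j hj
    simp only [hT, if_neg hj, map_zero]
  apply faithful T (Thq v w) (k := k) ?_ ?_ ?_ h0
  · intro u hu
    by_cases hJ : ∀ b, J (u b)
    · apply htr u hJ
      convert! hu using 1
      funext b
      simp only [hT, if_pos (hJ b)]
    · push Not at hJ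
      obtain ⟨b, hb⟩ := hJ
      exact not_algInd_of_const _ b 0 (hT0 _ hb) hu
  · intro r hr u hu
    have hJ : ∀ b, J (u b) := by
      intro b
      by_contra hb
      exact not_algInd_of_const _ b 0 (hT0 _ hb) hu
    choose q G hq hgG using hgs
    rw [algebraicIndependent_iff]
    intro P hP
    have h1 : Thq v w (aeval (fun a => T (u a)) P) = 0 := by
      rw [← hP, ← AlgHom.comp_apply]
      congr 1
      apply algHom_ext
      intro a
      rw [AlgHom.comp_apply, aeval_X, aeval_X]
    have h2 : aeval (fun a => T (u a)) P = 0 := by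
      refine Thq_faithful hw (ι := Fin r × Fin k) (δ := δ) (fun x => q (u x.1) x.2)
        (fun x => hq _ _) ?_ ?_ h1
      · rw [Fintype.card_prod, Fintype.card_fin, Fintype.card_fin]
        refine le_trans (Nat.add_le_add (Nat.mul_le_mul_right _ (Nat.mul_le_mul_right _ hr))
          (Nat.mul_le_mul_right _ hr)) hv
      · have h3 : ∀ a : Fin r, T (u a) ∈ Algebra.adjoin ℚ
            (Set.range fun x : Fin r × Fin k => q (u x.1) x.2) := by
          intro a
          simp only [hT, if_pos (hJ a)]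
          rw [hgG (u a)]
          have h4 : aeval (q (u a)) (G (u a)) ∈ (aeval (q (u a)) :
              MvPolynomial (Fin k) ℚ →ₐ[ℚ] MvPolynomial σ ℚ).range := ⟨_, rfl⟩
          rw [← Algebra.adjoin_range_eq_range_aeval] at h4
          refine Algebra.adjoin_mono ?_ h4
          rintro _ ⟨b, rfl⟩
          exact ⟨(a, b), rfl⟩
        have h4 : aeval (fun a => T (u a)) P ∈ (aeval (fun a => T (u a)) :
            MvPolynomial (Fin r) ℚ →ₐ[ℚ] MvPolynomial σ ℚ).range := ⟨_, rfl⟩
        rw [← Algebra.adjoin_range_eq_range_aeval] at h4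
        refine (Algebra.adjoin_le ?_) h4
        rintro _ ⟨a, rfl⟩
        exact h3 a
    exact (algebraicIndependent_iff.1 hu) P h2
  · refine Algebra.adjoin_mono ?_ hH
    rintro _ ⟨j, hj, rfl⟩
    exact ⟨j, by simp only [hT, if_pos hj]⟩

/-- Polynomials of degree at most one are affine forms. -/
theorem eq_af_of_totalDegree {g : MvPolynomial σ ℚ} (hg : g.totalDegree ≤ 1) :
    g = H626R2.af (coeff 0 g) (fun i => coeff (Finsupp.single i 1) g) := by
  classical
  ext m
  rw [H626R2.af, coeff_add, coeff_C, coeff_sum]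
  have h1 : ∀ i : σ, coeff m (C (coeff (Finsupp.single i 1) g) * X i) =
      if Finsupp.single i 1 = m then coeff (Finsupp.single i 1) g else 0 := by
    intro i
    rw [coeff_C_mul, coeff_X]
    split_ifs <;> simp
  rw [Finset.sum_congr rfl fun i _ => h1 i]
  by_cases hm0 : m = 0
  · subst hm0
    rw [if_pos rfl, Finset.sum_eq_zero, add_zero]
    intro i _
    rw [if_neg]
    intro h
    have := congrArg (fun f => f i) h
    simp at this
  · rw [if_neg (Ne.symm hm0), zero_add]
    by_cases hm : ∃ i, Finsupp.single i 1 = m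
    · obtain ⟨i, rfl⟩ := hm
      rw [Finset.sum_eq_single i]
      · rw [if_pos rfl]
      · intro j _ hj
        rw [if_neg]
        intro h
        have h2 := congrArg (fun f => f j) h
        simp only [Finsupp.single_eq_same] at h2
        rw [Finsupp.single_eq_of_ne hj] at h2
        exact one_ne_zero h2
      · intro h; exact absurd (Finset.mem_univ i) h
    · push Not at hm
      rw [Finset.sum_eq_zero fun i _ => if_neg (hm i)]
      by_contra hne
      have h2 := le_totalDegree (mem_support_iff.2 hne)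
      have h3 : (m.sum fun _ e => e) ≤ 1 := h2.trans hg
      obtain ⟨i, hi⟩ : ∃ i, m i ≠ 0 := by
        by_contra hcon
        push Not at hcon
        exact hm0 (Finsupp.ext hcon)
      apply hm i
      ext j
      have h4 : m.sum (fun _ e => e) = ∑ j, m j := by
        rw [Finsupp.sum_fintype _ _ (fun _ => rfl)]
      rw [h4] at h3
      rw [← Finset.add_sum_erase _ _ (Finset.mem_univ i)] at h3
      by_cases hj : j = i
      · subst hj
        rw [Finsupp.single_eq_same]
        omega
      · have h5 : m j ≤ ∑ x ∈ Finset.univ.erase i, m x :=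
          Finset.single_le_sum (f := fun x => m x) (fun _ _ => Nat.zero_le _)
            (Finset.mem_erase.2 ⟨hj, Finset.mem_univ j⟩)
        rw [Finsupp.single_eq_of_ne hj]
        omega

/-- Affine bases, bounded transcendence degree of the products. -/
theorem tr_inj_af {k m p : ℕ} (hv : k + 1 ≤ v) {w : σ → ℕ} (hw : Function.Injective w)
    (g : Fin p → MvPolynomial σ ℚ) (hg0 : ∀ j, g j ≠ 0) (hg : ∀ j, (g j).totalDegree ≤ 1)
    (e : Fin m → Fin p → ℕ)
    (htr : ∀ u : Fin (k + 1) → Fin m, ¬ AlgebraicIndependent ℚ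
      (fun b => ∏ j, g j ^ e (u b) j)) (c : Fin m → ℚ)
    (h : Thq v w (∑ i, C (c i) * ∏ j, g j ^ e i j) = 0) :
    ∑ i, C (c i) * ∏ j, g j ^ e i j = 0 := by
  classical
  have haf : ∀ j, g j = H626R2.af (coeff 0 (g j)) (fun i => coeff (Finsupp.single i 1) (g j)) :=
    fun j => eq_af_of_totalDegree (hg j)
  apply faithful (fun i => ∏ j, g j ^ e i j) (Thq v w) htr ?_ ?_ h
  · intro r hr u hu
    have h1 : ∀ i, ∏ j, g j ^ e i j = ∏ j, H626R2.af (coeff 0 (g j))
        (fun i => coeff (Finsupp.single i 1) (g j)) ^ e i j := fun i =>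
      Finset.prod_congr rfl fun j _ => by rw [← haf j]
    simp only [h1] at hu ⊢
    exact transfer hw (by omega) (fun b => e (u b)) (fun j => coeff 0 (g j))
      (fun j i => coeff (Finsupp.single i 1) (g j)) (fun j => by rw [← haf j]; exact hg0 j) hu
  · refine Subalgebra.sum_mem _ fun i _ => Subalgebra.mul_mem _ ?_
      (Algebra.subset_adjoin ⟨i, rfl⟩)
    rw [← algebraMap_eq]
    exact Subalgebra.algebraMap_mem _ _

/-- Affine bases, boundedly many balls of bounded radius. -/
theorem cl_inj_af {k r m p : ℕ} (hv : Tn k r r ≤ v) {w : σ → ℕ} (hw : Function.Injective w)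
    (g : Fin p → MvPolynomial σ ℚ) (hg0 : ∀ j, g j ≠ 0) (hg : ∀ j, (g j).totalDegree ≤ 1)
    (e : Fin m → Fin p → ℕ) (B : Fin k → Fin p → ℕ) (f : Fin m → Fin k)
    (hB : ∀ i, ∑ j, ((B (f i) j - e i j) + (e i j - B (f i) j)) ≤ r) (c : Fin m → ℚ)
    (h : Thq v w (∑ i, C (c i) * ∏ j, g j ^ e i j) = 0) :
    ∑ i, C (c i) * ∏ j, g j ^ e i j = 0 := by
  classical
  apply clusters_exps (fun _ => (0 : ℚ)) (linInd_pow hw) g
    (fun j => ⟨⟨_, _, eq_af_of_totalDegree (hg j)⟩, hg0 j⟩) e f B hB c
  apply ge_mono _ _ hv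
  rw [← rename_Thq, h, map_zero]

/-- The number of points for general bases. -/
def NG (k r : ℕ) : ℕ := N2 k r + (k * k * r + k * k) + (k + 1) + (r + 1) + Tn k r r

theorem Thq_simp_ne {k r : ℕ} (hv : NG k r ≤ v) {w : σ → ℕ} (hw : Function.Injective w)
    {g : MvPolynomial σ ℚ} (hg : g ≠ 0) (hgs : Simp k r g) : Thq v w g ≠ 0 := by
  intro h0
  obtain ⟨q, G, hq, rfl⟩ := hgs
  apply hg
  have h4 : aeval q G ∈ (aeval q : MvPolynomial (Fin k) ℚ →ₐ[ℚ] MvPolynomial σ ℚ).range :=
    ⟨_, rfl⟩
  rw [← Algebra.adjoin_range_eq_range_aeval] at h4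
  refine Thq_faithful hw q hq ?_ h4 h0
  rw [Fintype.card_fin]
  refine le_trans ?_ hv
  rw [NG, N2]
  nlinarith [Nat.zero_le (k * r), Nat.zero_le (k * r * r), Nat.zero_le (k * k * r),
    Nat.zero_le (k * k), Nat.zero_le (Tn k r r)]

theorem two_aux {K : Type*} [Field K] {p : ℕ} (γ : Fin p → Polynomial K) (hγ0 : ∀ j, γ j ≠ 0)
    (hco : ∀ j j', j ≠ j' → IsCoprime (γ j) (γ j')) (e1 e2 : Fin p → ℕ) (j0 : Fin p)
    (hlt : e1 j0 < e2 j0) (hd : 0 < (γ j0).natDegree) (a b : K)
    (h : Polynomial.C a * ∏ j, γ j ^ e1 j + Polynomial.C b * ∏ j, γ j ^ e2 j = 0) : a = 0 := by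
  classical
  by_contra ha
  have h1 : γ j0 ^ e2 j0 ∣ Polynomial.C a * ∏ j, γ j ^ e1 j := by
    have h2 : Polynomial.C a * ∏ j, γ j ^ e1 j = (-Polynomial.C b) * ∏ j, γ j ^ e2 j := by
      linear_combination h
    rw [h2]
    exact Dvd.dvd.mul_left (Finset.dvd_prod_of_mem (fun j => γ j ^ e2 j) (Finset.mem_univ j0)) _
  have hu : IsUnit (Polynomial.C a) := by
    rw [Polynomial.isUnit_C]
    exact Ne.isUnit ha
  have h2 := (hu.dvd_mul_left).1 h1
  rw [← Finset.mul_prod_erase Finset.univ (fun j => γ j ^ e1 j) (Finset.mem_univ j0)] at h2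
  have h3 : IsCoprime (γ j0 ^ e2 j0) (∏ j ∈ Finset.univ.erase j0, γ j ^ e1 j) := by
    apply IsCoprime.prod_right
    intro j hj
    exact (hco j0 j (Finset.ne_of_mem_erase hj).symm).pow
  have h4 := h3.dvd_of_dvd_mul_right h2
  have h5 := Polynomial.natDegree_le_of_dvd h4 (pow_ne_zero _ (hγ0 j0))
  rw [Polynomial.natDegree_pow, Polynomial.natDegree_pow] at h5
  have h6 := Nat.le_of_mul_le_mul_right h5 hd
  omega

/-- Two products. -/
theorem two_inj {k r p : ℕ} (hv : NG k r ≤ v) {w : σ → ℕ} (hw : Function.Injective w)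
    (g : Fin p → MvPolynomial σ ℚ) (hg : ∀ j, g j ≠ 0) (hgs : ∀ j, Simp k r (g j))
    (hgg : ∀ j j', j ≠ j' → IsRelPrime (g j) (g j')) (e1 e2 : Fin p → ℕ) (a b : ℚ)
    (h : Thq v w (C a * ∏ j, g j ^ e1 j + C b * ∏ j, g j ^ e2 j) = 0) :
    C a * ∏ j, g j ^ e1 j + C b * ∏ j, g j ^ e2 j = 0 := by
  classical
  have hv2 : N2 k r ≤ v := by rw [NG] at hv; omega
  have hTne : ∀ e : Fin p → ℕ, Thq v w (∏ j, g j ^ e j) ≠ 0 := by
    intro e
    rw [map_prod, Finset.prod_ne_zero_iff]
    intro j _
    rw [map_pow]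
    exact pow_ne_zero _ (Thq_simp_ne hv hw (hg j) (hgs j))
  have hC0 : ∀ (c : ℚ) (e : Fin p → ℕ), Thq v w (C c * ∏ j, g j ^ e j) = 0 → c = 0 := by
    intro c e h0
    rw [map_mul] at h0
    have h1 := (mul_eq_zero.1 h0).resolve_right (hTne e)
    rw [algHom_C, algebraMap_eq] at h1
    exact C_eq_zero.1 h1
  by_cases hj : ∃ j0, (g j0).totalDegree ≠ 0 ∧ e1 j0 ≠ e2 j0
  · obtain ⟨j0, hd0, hne⟩ := hj
    set γ : Fin p → Polynomial (K3 v) := fun j => (tau (g j)).map (phK v w) with hγ
    have hdeg : ∀ j, (γ j).natDegree = (g j).totalDegree := fun j =>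
      natDegree_line hv2 hw (hg j) (hgs j)
    have hPT : ∀ f : MvPolynomial σ ℚ, (Psi3 v (Thq v w f)).map (algebraMap (B3 v) (K3 v)) =
        (tau f).map (phK v w) := by
      intro f
      rw [Psi3_Thq, Polynomial.map_map]
      rfl
    have hinj : Function.Injective (algebraMap (B3 v) (K3 v)) := IsFractionRing.injective _ _
    have hγ0 : ∀ j, γ j ≠ 0 := by
      intro j h0
      have h1 := hPT (g j)
      simp only [hγ] at h0
      rw [h0, Polynomial.map_eq_zero_iff hinj] at h1
      exact Thq_simp_ne hv hw (hg j) (hgs j) (Psi3_inj v (by rw [h1, map_zero]))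
    have hco : ∀ j j', j ≠ j' → IsCoprime (γ j) (γ j') := fun j j' hjj =>
      isCoprime_line hv2 hw (hg j) (hgs j) (hgs j') (hgg j j' hjj)
    have hterm : ∀ (c : ℚ) (e : Fin p → ℕ), (tau (C c * ∏ j, g j ^ e j)).map (phK v w) =
        Polynomial.C (phK v w (C c)) * ∏ j, γ j ^ e j := by
      intro c e
      rw [map_mul, map_prod, Polynomial.map_mul, Polynomial.map_prod]
      congr 1
      · rw [algHom_C, Polynomial.algebraMap_apply, Polynomial.map_C]
        rfl
      · refine Finset.prod_congr rfl fun j _ => ?_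
        rw [map_pow, Polynomial.map_pow]
    have hrel : Polynomial.C (phK v w (C a)) * ∏ j, γ j ^ e1 j +
        Polynomial.C (phK v w (C b)) * ∏ j, γ j ^ e2 j = 0 := by
      rw [← hterm, ← hterm, ← Polynomial.map_add, ← map_add, ← hPT, h, map_zero,
        Polynomial.map_zero]
    have hph : ∀ c : ℚ, phK v w (C c) = 0 → c = 0 := by
      intro c h0
      have h1 := phK_eq_zero h0
      rw [algHom_C, algebraMap_eq] at h1
      exact C_eq_zero.1 h1
    have hd1 : 0 < (γ j0).natDegree := by rw [hdeg]; omega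
    rcases Nat.lt_or_gt_of_ne hne with hlt | hlt
    · have ha : a = 0 := hph a (two_aux γ hγ0 hco e1 e2 j0 hlt hd1 _ _ hrel)
      subst ha
      rw [C_0, zero_mul, zero_add] at h ⊢
      rw [hC0 b e2 h, C_0, zero_mul]
    · have hb : b = 0 := hph b (two_aux γ hγ0 hco e2 e1 j0 hlt hd1 _ _
        ((add_comm _ _).trans hrel))
      subst hb
      rw [C_0, zero_mul, add_zero] at h ⊢
      rw [hC0 a e1 h, C_0, zero_mul]
  · push Not at hj
    -- the products are proportional
    set U : MvPolynomial σ ℚ :=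
      ∏ j, g j ^ (if (g j).totalDegree = 0 then 0 else e1 j) with hU
    have hfac : ∀ e : Fin p → ℕ, (∀ j, (g j).totalDegree ≠ 0 → e j = e1 j) →
        ∃ ρ : ℚ, ∏ j, g j ^ e j = C ρ * U := by
      intro e he
      have h1 : ∀ j, ∃ ρ : ℚ, g j ^ e j = C ρ * g j ^ (if (g j).totalDegree = 0 then 0 else e1 j) := by
        intro j
        by_cases hd : (g j).totalDegree = 0
        · rw [if_pos hd, pow_zero]
          have h2 := (totalDegree_eq_zero_iff_eq_C).1 hd
          exact ⟨coeff 0 (g j) ^ e j, by rw [mul_one, C_pow, ← h2]⟩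
        · rw [if_neg hd, he j hd]
          exact ⟨1, by rw [C_1, one_mul]⟩
      choose ρ hρ using h1
      refine ⟨∏ j, ρ j, ?_⟩
      rw [map_prod, hU, ← Finset.prod_mul_distrib]
      exact Finset.prod_congr rfl fun j _ => hρ j
    obtain ⟨ρ1, h1⟩ := hfac e1 (fun _ _ => rfl)
    obtain ⟨ρ2, h2⟩ := hfac e2 (fun j hd => (hj j hd).symm)
    have h3 : C a * ∏ j, g j ^ e1 j + C b * ∏ j, g j ^ e2 j = C (a * ρ1 + b * ρ2) * U := by
      rw [h1, h2, C_add, C_mul, C_mul]
      ring
    rw [h3] at h ⊢
    rw [hC0 _ _ h, C_0, zero_mul]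

/-- A class is mapped injectively. -/
theorem class_inj {k r m p : ℕ} (hv : NG k r ≤ v) {w : σ → ℕ} (hw : Function.Injective w)
    (g : Fin p → MvPolynomial σ ℚ) (hg : ∀ j, g j ≠ 0) (hgs : ∀ j, Simp k r (g j))
    (e : Fin m → Fin p → ℕ) (lab : Fin m → ℕ) (l : ℕ)
    (hcl : ClassOK k r g (fun j => (g j).totalDegree) e lab l) (c : Fin m → ℚ)
    (h : Thq v w (∑ i ∈ Finset.univ.filter (fun i => lab i = l), C (c i) * ∏ j, g j ^ e i j) = 0) :
    ∑ i ∈ Finset.univ.filter (fun i => lab i = l), C (c i) * ∏ j, g j ^ e i j = 0 := by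
  classical
  rcases hcl with ⟨hgg, htwo⟩ | ⟨w0, hw0, hcl⟩
  · rcases (Finset.univ.filter (fun i => lab i = l)).eq_empty_or_nonempty with hemp | ⟨i1, hi1⟩
    · rw [hemp, Finset.sum_empty]
    rw [Finset.mem_filter] at hi1
    obtain ⟨i2, hi2, hall⟩ : ∃ i2, lab i2 = l ∧ ∀ i, lab i = l → e i = e i1 ∨ e i = e i2 := by
      by_cases hne : ∃ i2, lab i2 = l ∧ e i2 ≠ e i1
      · obtain ⟨i2, hi2, hne⟩ := hne
        refine ⟨i2, hi2, fun i hi => ?_⟩
        rcases htwo i i1 i2 hi hi1.2 hi2 with h1 | h1 | h1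
        · exact Or.inl h1
        · exact Or.inr h1
        · exact absurd h1.symm hne
      · push Not at hne
        exact ⟨i1, hi1.2, fun i hi => Or.inl (hne i hi)⟩
    have hsum : ∑ i ∈ Finset.univ.filter (fun i => lab i = l), C (c i) * ∏ j, g j ^ e i j =
        C (∑ i ∈ Finset.univ.filter (fun i => lab i = l), if e i = e i1 then c i else 0) *
          ∏ j, g j ^ e i1 j +
        C (∑ i ∈ Finset.univ.filter (fun i => lab i = l), if e i = e i1 then 0 else c i) *
          ∏ j, g j ^ e i2 j := by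
      rw [map_sum, map_sum, Finset.sum_mul, Finset.sum_mul, ← Finset.sum_add_distrib]
      refine Finset.sum_congr rfl fun i hi => ?_
      by_cases h1 : e i = e i1
      · rw [if_pos h1, if_pos h1, h1, C_0, zero_mul, add_zero]
      · rw [if_neg h1, if_neg h1, C_0, zero_mul, zero_add,
          (hall i (Finset.mem_filter.1 hi).2).resolve_left h1]
    rw [hsum] at h ⊢
    exact two_inj hv hw g hg hgs hgg _ _ _ _ h
  have heq : ∑ i ∈ Finset.univ.filter (fun i => lab i = l), C (c i) * ∏ j, g j ^ e i j =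
      (∏ j, g j ^ w0 j) * ∑ i ∈ Finset.univ.filter (fun i => lab i = l),
        C (c i) * ∏ j, g j ^ (e i j - w0 j) := by
    rw [Finset.mul_sum]
    refine Finset.sum_congr rfl fun i hi => ?_
    rw [mul_left_comm, ← Finset.prod_mul_distrib]
    congr 1
    refine Finset.prod_congr rfl fun j _ => ?_
    rw [← pow_add, Nat.add_sub_cancel' (hw0 i (Finset.mem_filter.1 hi).2 j)]
  rw [heq, map_mul] at h
  have hne0 : Thq v w (∏ j, g j ^ w0 j) ≠ 0 := by
    rw [map_prod, Finset.prod_ne_zero_iff]
    intro j _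
    rw [map_pow]
    exact pow_ne_zero _ (Thq_simp_ne hv hw (hg j) (hgs j))
  have h1 := (mul_eq_zero.1 h).resolve_left hne0
  rw [heq]
  suffices hs : ∑ i ∈ Finset.univ.filter (fun i => lab i = l),
      C (c i) * ∏ j, g j ^ (e i j - w0 j) = 0 by rw [hs, mul_zero]
  rcases hcl with hlow | htr | ⟨haf, hcl⟩
  · refine Thq_faithful hw (ι := Unit) (δ := r) (fun _ => ∑ i ∈ Finset.univ.filter
      (fun i => lab i = l), C (c i) * ∏ j, g j ^ (e i j - w0 j)) (fun _ => ?_) ?_
      (Algebra.subset_adjoin ⟨(), rfl⟩) h1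
    · refine (totalDegree_finsetSum _ _).trans (Finset.sup_le fun i hi => ?_)
      refine (totalDegree_mul _ _).trans ?_
      rw [totalDegree_C, zero_add]
      refine (totalDegree_finsetProd _ _).trans ?_
      refine le_trans (Finset.sum_le_sum fun j _ => totalDegree_pow _ _)
        (hlow i (Finset.mem_filter.1 hi).2)
    · rw [NG] at hv
      simp only [Fintype.card_unit]
      omega
  · refine trdeg_inj (k := k) (δ := r) (by rw [NG] at hv; omega) hw g hgs
      (fun j => ∃ i, lab i = l ∧ e i j ≠ w0 j) htr ?_ h1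
    refine Subalgebra.sum_mem _ fun i hi => Subalgebra.mul_mem _ ?_
      (Subalgebra.prod_mem _ fun j _ => ?_)
    · rw [← algebraMap_eq]
      exact Subalgebra.algebraMap_mem _ _
    · by_cases hij : e i j = w0 j
      · rw [hij, Nat.sub_self, pow_zero]
        exact Subalgebra.one_mem _
      · have h5 : g j ∈ Algebra.adjoin ℚ
            {f | ∃ j, (∃ i, lab i = l ∧ e i j ≠ w0 j) ∧ f = g j} :=
          Algebra.subset_adjoin ⟨j, ⟨i, (Finset.mem_filter.1 hi).2, hij⟩, rfl⟩
        exact Subalgebra.pow_mem _ h5 _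
  · -- affine bases
    set J : Fin p → Prop := fun j => ∃ i, lab i = l ∧ e i j ≠ w0 j with hJ
    set g' : Fin p → MvPolynomial σ ℚ := fun j => if J j then g j else 1 with hg'
    have hg'0 : ∀ j, g' j ≠ 0 := by
      intro j
      by_cases hj : J j
      · simp only [hg', if_pos hj]; exact hg j
      · simp only [hg', if_neg hj]; exact one_ne_zero
    have hg'1 : ∀ j, (g' j).totalDegree ≤ 1 := by
      intro j
      by_cases hj : J j
      · simp only [hg', if_pos hj]
        obtain ⟨i, hi, hij⟩ := hj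
        exact haf i j hi hij
      · simp only [hg', if_neg hj]; simp
    have hprod : ∀ i, lab i = l → ∏ j, g j ^ (e i j - w0 j) = ∏ j, g' j ^ (e i j - w0 j) := by
      intro i hi
      refine Finset.prod_congr rfl fun j _ => ?_
      by_cases hj : J j
      · simp only [hg', if_pos hj]
      · have : e i j = w0 j := by
          by_contra hne
          exact hj ⟨i, hi, hne⟩
        rw [this, Nat.sub_self, pow_zero, pow_zero]
    rcases hcl with htr | ⟨B, f, hB⟩
    · set e' : Fin m → Fin p → ℕ := fun i j => if lab i = l then e i j - w0 j else 0 with he'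
      have heq2 : ∑ i ∈ Finset.univ.filter (fun i => lab i = l),
          C (c i) * ∏ j, g j ^ (e i j - w0 j) =
          ∑ i, C (if lab i = l then c i else 0) * ∏ j, g' j ^ e' i j := by
        rw [Finset.sum_filter]
        refine Finset.sum_congr rfl fun i _ => ?_
        by_cases hi : lab i = l
        · simp only [he', if_pos hi]
          rw [hprod i hi]
        · simp only [if_neg hi]
          simp
      rw [heq2] at h1 ⊢
      refine tr_inj_af (k := k) (by rw [NG] at hv; omega) hw g' hg'0 hg'1 e' ?_ _ h1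
      intro u hu
      by_cases hlab : ∀ b, lab (u b) = l
      · apply htr u hlab
        convert! hu using 1
        funext b
        rw [hprod _ (hlab b)]
        simp only [he', if_pos (hlab b)]
      · push Not at hlab
        obtain ⟨b, hb⟩ := hlab
        refine not_algInd_of_const _ b 1 ?_ hu
        rw [map_one]
        apply Finset.prod_eq_one
        intro j _
        simp only [he', if_neg hb, pow_zero]
    · set B' : Fin k → Fin p → ℕ := fun a j => if J j then B a j - w0 j else 0 with hB'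
      set e' : Fin m → Fin p → ℕ :=
        fun i j => if lab i = l then e i j - w0 j else B' (f i) j with he'
      have heq2 : ∑ i ∈ Finset.univ.filter (fun i => lab i = l),
          C (c i) * ∏ j, g j ^ (e i j - w0 j) =
          ∑ i, C (if lab i = l then c i else 0) * ∏ j, g' j ^ e' i j := by
        rw [Finset.sum_filter]
        refine Finset.sum_congr rfl fun i _ => ?_
        by_cases hi : lab i = l
        · simp only [he', if_pos hi]
          rw [hprod i hi]
        · simp only [if_neg hi]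
          simp
      rw [heq2] at h1 ⊢
      refine cl_inj_af (k := k) (r := r) (by rw [NG] at hv; omega) hw g' hg'0 hg'1 e' B' f ?_ _ h1
      intro i
      by_cases hi : lab i = l
      · refine le_trans (Finset.sum_le_sum fun j _ => ?_) (hB i hi)
        simp only [he', hB', if_pos hi]
        have h2 := hw0 i hi j
        by_cases hj : J j
        · simp only [if_pos hj]
          omega
        · simp only [if_neg hj]
          have : e i j = w0 j := by
            by_contra hne
            exact hj ⟨i, hi, hne⟩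
          omega
      · simp only [he', if_neg hi]
        simp

/-- The main injectivity theorem. -/
theorem inj_gen {k r m p : ℕ} (hv : NG k r ≤ v) {w : σ → ℕ} (hw : Function.Injective w)
    (g : Fin p → MvPolynomial σ ℚ) (hg : ∀ j, g j ≠ 0) (hgs : ∀ j, Simp k r (g j))
    (e : Fin m → Fin p → ℕ) (lab : Fin m → ℕ)
    (hgg : (∀ i i', lab i = lab i') ∨ ∀ j j', j ≠ j' → IsRelPrime (g j) (g j'))
    (hfar : ∀ i i', lab i ≠ lab i' →
      (∑ j, (g j).totalDegree) * m ^ 2 < ∑ j, (g j).totalDegree * (e i j - e i' j) ∨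
      (∑ j, (g j).totalDegree) * m ^ 2 < ∑ j, (g j).totalDegree * (e i' j - e i j))
    (hcl : ∀ l, ClassOK k r g (fun j => (g j).totalDegree) e lab l)
    (c : Fin m → ℚ) (h : Thq v w (∑ i, C (c i) * ∏ j, g j ^ e i j) = 0) :
    ∑ i, C (c i) * ∏ j, g j ^ e i j = 0 := by
  classical
  have hsplit : ∀ l, Thq v w (∑ i ∈ Finset.univ.filter (fun i => lab i = l),
      C (c i) * ∏ j, g j ^ e i j) = 0 := by
    intro l
    rcases hgg with h1 | h1
    · by_cases hl : ∃ i, lab i = l
      · obtain ⟨i, hi⟩ := hl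
        rw [Finset.filter_true_of_mem fun i' _ => (h1 i' i).trans hi]
        exact h
      · push Not at hl
        rw [Finset.filter_false_of_mem fun i' _ => hl i', Finset.sum_empty, map_zero]
    · exact sep_gen (k := k) (δ := r) (by rw [NG] at hv; omega) hw g hg hgs h1 e lab hfar c h l
  rw [← Finset.sum_fiberwise_of_maps_to (s := Finset.univ) (t := Finset.univ.image lab) (g := lab)
    (fun i _ => Finset.mem_image_of_mem _ (Finset.mem_univ i))]
  exact Finset.sum_eq_zero fun l _ => class_inj hv hw g hg hgs e lab l (hcl l) c (hsplit l)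

end Pool.Agent.H964R3
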