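import Mathlib
import Pool.Agent.H964R3.Sep
import Pool.Agent.H626R2.PRed

/-!
# Far classes remain separated after the substitution
-/

set_option autoImplicit false

namespace Pool.Agent.H964R3

open MvPolynomial Pool.Agent.H531R2 Pool.Agent.H626R2

variable {n v : ℕ}

/-- The fraction field of the polynomial ring. -/
abbrev KF (v : ℕ) : Type := FractionRing (MvPolynomial (Fin (v + v)) ℤ)

instance (v : ℕ) : CharZero (MvPolynomial (Fin (v + v)) ℤ) :=
  charZero_of_injective_algebraMap (R := ℤ) (C_injective _ _)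

instance (v : ℕ) : CharZero (KF v) :=
  charZero_of_injective_algebraMap (R := MvPolynomial (Fin (v + v)) ℤ)
    (IsFractionRing.injective (MvPolynomial (Fin (v + v)) ℤ) (KF v))

/-- The inclusion of the polynomial ring in its fraction field. -/
noncomputable abbrev em (v : ℕ) : MvPolynomial (Fin (v + v)) ℤ →+* KF v :=
  algebraMap (MvPolynomial (Fin (v + v)) ℤ) (KF v)

/-- Translation of one variable by the indeterminate. -/
noncomputable def Psi (v : ℕ) (t0 : Fin v) :
    MvPolynomial (Fin (v + v)) ℤ →ₐ[ℤ] Polynomial (KF v) :=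
  aeval fun s => Polynomial.C (em v (X s)) + if s = Fin.castAdd v t0 then Polynomial.X else 0

theorem Psi_eval (t0 : Fin v) (f : MvPolynomial (Fin (v + v)) ℤ) :
    (Psi v t0 f).eval 0 = em v f := by
  have h : ((Polynomial.evalRingHom (0 : KF v)).comp (Psi v t0).toRingHom) = em v := by
    apply MvPolynomial.ringHom_ext
    · intro z
      simp [Psi]
    · intro s
      simp only [Psi, RingHom.comp_apply, AlgHom.toRingHom_eq_coe, RingHom.coe_coe, aeval_X,
        Polynomial.coe_evalRingHom, Polynomial.eval_add, Polynomial.eval_C]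
      split_ifs <;> simp
  rw [← h]
  rfl

theorem Psi_inj (t0 : Fin v) : Function.Injective (Psi v t0) := by
  rw [injective_iff_map_eq_zero]
  intro f hf
  have h1 := Psi_eval t0 f
  rw [hf, Polynomial.eval_zero] at h1
  exact (IsFractionRing.injective (MvPolynomial (Fin (v + v)) ℤ) (KF v)) (by
    rw [map_zero]; exact h1.symm)

/-- The linear part of a form at one of the points. -/
noncomputable def Ez (v : ℕ) (idx : ℕ → ℕ) (S : Finset ℕ) (a : ℕ → ℤ) (t : Fin v) :
    MvPolynomial (Fin (v + v)) ℤ := ∑ i ∈ S, C (a i) * X (Fin.natAdd v t) ^ idx i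

theorem Psi_C (t0 : Fin v) (z : ℤ) : Psi v t0 (C z) = Polynomial.C (em v (C z)) := by
  rw [algHom_C]
  simp

theorem Psi_z (t0 t : Fin v) : Psi v t0 (X (Fin.natAdd v t)) =
    Polynomial.C (em v (X (Fin.natAdd v t))) := by
  have h : Fin.natAdd v t ≠ Fin.castAdd v t0 := by
    intro h
    have := congrArg Fin.val h
    simp at this
    omega
  rw [Psi, aeval_X, if_neg h, add_zero]

theorem Psi_Ez (t0 : Fin v) (idx : ℕ → ℕ) (S : Finset ℕ) (a : ℕ → ℤ) (t : Fin v) :
    Psi v t0 (Ez v idx S a t) = Polynomial.C (em v (Ez v idx S a t)) := by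
  rw [Ez, map_sum, map_sum, map_sum]
  refine Finset.sum_congr rfl fun i _ => ?_
  rw [map_mul, map_mul, map_mul, map_pow, map_pow, map_pow, Psi_C, Psi_z]

theorem Psi_y (t0 t : Fin v) : Psi v t0 (X (Fin.castAdd v t)) =
    Polynomial.C (em v (X (Fin.castAdd v t))) + if t = t0 then Polynomial.X else 0 := by
  rw [Psi, aeval_X]
  congr 1
  by_cases h : t = t0
  · subst h; simp
  · rw [if_neg h, if_neg]
    intro h'
    apply h
    have := congrArg Fin.val h'
    simp at this
    exact Fin.ext this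

theorem Psi_Th_aff (t0 : Fin v) (idx : ℕ → ℕ) (S : Finset ℕ) (a0 : ℤ) (a : ℕ → ℤ) :
    Psi v t0 (Th v idx (aff S a0 a)) = Polynomial.C (em v (Ez v idx S a t0)) * Polynomial.X +
      Polynomial.C (em v (Th v idx (aff S a0 a))) := by
  rw [Th_aff]
  change Psi v t0 (C a0 + ∑ t : Fin v, X (Fin.castAdd v t) * Ez v idx S a t) = _ +
    Polynomial.C (em v (C a0 + ∑ t : Fin v, X (Fin.castAdd v t) * Ez v idx S a t))
  rw [map_add, map_sum, Psi_C, map_add, map_add, map_sum, map_sum]
  have h : ∀ t, Psi v t0 (X (Fin.castAdd v t) * Ez v idx S a t) =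
      Polynomial.C (em v (X (Fin.castAdd v t) * Ez v idx S a t)) +
      if t = t0 then Polynomial.C (em v (Ez v idx S a t0)) * Polynomial.X else 0 := by
    intro t
    rw [map_mul, Psi_Ez, Psi_y, map_mul, map_mul]
    by_cases h : t = t0
    · subst h; simp only [if_true]; ring
    · simp only [if_neg h]; ring
  rw [Finset.sum_congr rfl fun t _ => h t, Finset.sum_add_distrib, Finset.sum_ite_eq' Finset.univ t0,
    if_pos (Finset.mem_univ t0)]
  ring

/-- Evaluation of a linear form at the powers of an integer. -/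
def Av (idx : ℕ → ℕ) (S : Finset ℕ) (a : ℕ → ℤ) (x : ℤ) : ℤ := ∑ i ∈ S, a i * x ^ idx i

theorem Av_eq {idx : ℕ → ℕ} {S : Finset ℕ} (hidx : Set.InjOn idx S) {a b : ℕ → ℤ}
    (h : ∀ x, Av idx S a x = Av idx S b x) : ∀ i ∈ S, a i = b i := by
  intro i hi
  have h1 : (∑ i ∈ S, Polynomial.C (a i) * Polynomial.X ^ idx i : Polynomial ℤ) =
      ∑ i ∈ S, Polynomial.C (b i) * Polynomial.X ^ idx i := by
    apply Polynomial.funext
    intro x
    have := h x
    simpa [Av, Polynomial.eval_finsetSum] using this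
  have h2 : ∀ c : ℕ → ℤ, (∑ l ∈ S, Polynomial.C (c l) * Polynomial.X ^ idx l :
      Polynomial ℤ).coeff (idx i) = c i := by
    intro c
    rw [Polynomial.finsetSum_coeff]
    rw [Finset.sum_eq_single i]
    · simp
    · intro l hl hli
      rw [Polynomial.coeff_C_mul, Polynomial.coeff_X_pow, if_neg, mul_zero]
      intro h3
      exact hli (hidx hl hi h3.symm)
    · intro h3; exact absurd hi h3
  rw [← h2 a, h1, h2 b]

theorem eval_Ez (idx : ℕ → ℕ) (S : Finset ℕ) (a : ℕ → ℤ) (t : Fin v) (s : Fin (v + v) → ℤ) :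
    eval s (Ez v idx S a t) = Av idx S a (s (Fin.natAdd v t)) := by
  simp [Ez, Av]

theorem Ez_ne {idx : ℕ → ℕ} {S : Finset ℕ} (hidx : Set.InjOn idx S) {a : ℕ → ℤ}
    (ha : ∃ i ∈ S, a i ≠ 0) (t : Fin v) : Ez v idx S a t ≠ 0 := by
  intro h
  obtain ⟨i, hi, hai⟩ := ha
  apply hai
  refine Av_eq (b := fun _ => 0) hidx ?_ i hi
  intro x
  have := congrArg (eval (fun _ => x)) h
  rw [eval_Ez, map_zero] at this
  rw [this]
  simp [Av]

/-- Forms that are not proportional stay so after the substitution. -/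
theorem cross_ne (t0 t1 : Fin v) (h01 : t0 ≠ t1) {idx : ℕ → ℕ} {S : Finset ℕ}
    (hidx : Set.InjOn idx S) (a0 b0 : ℤ) {a b : ℕ → ℤ} (ha : ∃ i ∈ S, a i ≠ 0)
    (hnp : ∀ x y : ℤ, x ≠ 0 → C x * aff S b0 b ≠ C y * aff S a0 a) :
    Ez v idx S a t0 * Th v idx (aff S b0 b) - Ez v idx S b t0 * Th v idx (aff S a0 a) ≠ 0 := by
  intro h
  rw [sub_eq_zero] at h
  have key : ∀ x y w : ℤ, Av idx S a x * (b0 + y * Av idx S b w) =
      Av idx S b x * (a0 + y * Av idx S a w) := by
    intro x y w
    set s : Fin (v + v) → ℤ := Fin.addCases (fun t => if t = t1 then y else 0)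
      (fun t => if t = t0 then x else w) with hs
    have hs1 : ∀ t, s (Fin.castAdd v t) = if t = t1 then y else 0 := by
      intro t; simp only [hs, Fin.addCases_left]
    have hs2 : ∀ t, s (Fin.natAdd v t) = if t = t0 then x else w := by
      intro t; simp only [hs, Fin.addCases_right]
    have hT : ∀ (c0 : ℤ) (c : ℕ → ℤ), eval s (Th v idx (aff S c0 c)) = c0 + y * Av idx S c w := by
      intro c0 c
      rw [Th_aff, map_add, eval_C, map_sum]
      congr 1
      have h1 : ∀ t : Fin v, eval s (X (Fin.castAdd v t) *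
          ∑ i ∈ S, C (c i) * X (Fin.natAdd v t) ^ idx i) =
          if t = t1 then y * Av idx S c w else 0 := by
        intro t
        rw [map_mul, eval_X, hs1]
        have h2 := eval_Ez idx S c t s
        rw [Ez] at h2
        rw [h2, hs2]
        by_cases ht : t = t1
        · subst ht
          rw [if_pos rfl, if_neg h01.symm, if_pos rfl]
        · rw [if_neg ht, if_neg ht, zero_mul]
      rw [Finset.sum_congr rfl fun t _ => h1 t, Finset.sum_ite_eq' Finset.univ t1,
        if_pos (Finset.mem_univ _)]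
    have h1 := congrArg (eval s) h
    rw [map_mul, map_mul, eval_Ez, eval_Ez, hT, hT, hs2, if_pos rfl] at h1
    exact h1
  have hx0 : ∃ x0, Av idx S a x0 ≠ 0 := by
    by_contra hcon
    push Not at hcon
    obtain ⟨i, hi, hai⟩ := ha
    apply hai
    refine Av_eq (b := fun _ => 0) hidx ?_ i hi
    intro x
    rw [hcon x]
    simp [Av]
  obtain ⟨x0, hx0⟩ := hx0
  apply hnp _ (Av idx S b x0) hx0
  have e0 : Av idx S a x0 * b0 = Av idx S b x0 * a0 := by
    have := key x0 0 0
    simpa using this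
  have e1 : ∀ i ∈ S, Av idx S a x0 * b i = Av idx S b x0 * a i := by
    have hA : ∀ (c : ℤ) (d : ℕ → ℤ) (w : ℤ), Av idx S (fun i => c * d i) w = c * Av idx S d w := by
      intro c d w
      rw [Av, Av, Finset.mul_sum]
      exact Finset.sum_congr rfl fun i _ => by ring
    refine Av_eq (a := fun i => Av idx S a x0 * b i) (b := fun i => Av idx S b x0 * a i) hidx ?_
    intro w
    rw [hA, hA]
    have h1 := key x0 1 w
    linear_combination h1 - e0
  rw [aff, aff, mul_add, mul_add, ← C_mul, ← C_mul, e0, Finset.mul_sum, Finset.mul_sum]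
  congr 1
  refine Finset.sum_congr rfl fun i hi => ?_
  rw [← mul_assoc, ← mul_assoc, ← C_mul, ← C_mul, e1 i hi]

/-- A relation between the substituted power products splits along far classes. -/
theorem sep_Th {m n : ℕ} (hv : 2 ≤ v) {S : Finset ℕ} (a0 : Fin n → ℤ) (a : Fin n → ℕ → ℤ)
    (e : Fin m → Fin n → ℕ) (ha : ∀ j, ∃ i ∈ S, a j i ≠ 0)
    (hnp : ∀ j j', j ≠ j' → ∀ x y : ℤ, x ≠ 0 →
      C x * aff S (a0 j) (a j) ≠ C y * aff S (a0 j') (a j'))
    (lab : Fin m → ℕ)
    (hfar : ∀ i i', lab i ≠ lab i' →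
      n * m ^ 2 < ∑ j, (e i j - e i' j) ∨ n * m ^ 2 < ∑ j, (e i' j - e i j))
    (idx : ℕ → ℕ) (hidx : Set.InjOn idx S) (δ : Fin m → ℤ)
    (h : Th v idx (∑ i, C (δ i) * ∏ j, aff S (a0 j) (a j) ^ e i j) = 0) (l : ℕ) :
    Th v idx (∑ i ∈ Finset.univ.filter (fun i => lab i = l),
      C (δ i) * ∏ j, aff S (a0 j) (a j) ^ e i j) = 0 := by
  classical
  set t0 : Fin v := ⟨0, by omega⟩ with ht0
  set t1 : Fin v := ⟨1, by omega⟩ with ht1
  have h01 : t0 ≠ t1 := by
    intro h; have := congrArg Fin.val h; simp [ht0, ht1] at this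
  set g : Fin n → Polynomial (KF v) := fun j => Psi v t0 (Th v idx (aff S (a0 j) (a j))) with hg
  have hge : ∀ j, g j = Polynomial.C (em v (Ez v idx S (a j) t0)) * Polynomial.X +
      Polynomial.C (em v (Th v idx (aff S (a0 j) (a j)))) := fun j => Psi_Th_aff _ _ _ _ _
  have hemi : Function.Injective (em v) :=
    IsFractionRing.injective (MvPolynomial (Fin (v + v)) ℤ) (KF v)
  have hE : ∀ j, em v (Ez v idx S (a j) t0) ≠ 0 := by
    intro j h0
    exact Ez_ne hidx (ha j) t0 (hemi (by rw [h0, map_zero]))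
  have hdeg : ∀ j, (g j).natDegree = 1 := by
    intro j
    rw [hge]
    exact Polynomial.natDegree_linear (hE j)
  have hco : ∀ j j', j ≠ j' → IsCoprime (g j) (g j') := by
    intro j j' hjj
    set α := em v (Ez v idx S (a j) t0) with hα
    set α' := em v (Ez v idx S (a j') t0) with hα'
    set β := em v (Th v idx (aff S (a0 j) (a j))) with hβ
    set β' := em v (Th v idx (aff S (a0 j') (a j'))) with hβ'
    have hD : α * β' - α' * β ≠ 0 := by
      have h1 := cross_ne t0 t1 h01 hidx (a0 j) (a0 j') (ha j) (hnp j' j hjj.symm)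
      intro h2
      apply h1
      apply hemi
      rw [map_zero, map_sub, map_mul, map_mul]
      exact h2
    refine ⟨Polynomial.C (-α' / (α * β' - α' * β)), Polynomial.C (α / (α * β' - α' * β)), ?_⟩
    rw [hge, hge]
    have e1 : Polynomial.C (-α' / (α * β' - α' * β)) * (Polynomial.C α * Polynomial.X +
        Polynomial.C β) + Polynomial.C (α / (α * β' - α' * β)) *
        (Polynomial.C α' * Polynomial.X + Polynomial.C β') =
        Polynomial.C ((α * β' - α' * β) / (α * β' - α' * β)) := by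
      have e2 : (α * β' - α' * β) / (α * β' - α' * β) =
        (-α' / (α * β' - α' * β)) * β + (α / (α * β' - α' * β)) * β' := by ring
      have e3 : (-α' / (α * β' - α' * β)) * α + (α / (α * β' - α' * β)) * α' = 0 := by ring
      rw [e2, Polynomial.C_add, Polynomial.C_mul, Polynomial.C_mul]
      have e4 := congrArg Polynomial.C e3
      rw [Polynomial.C_add, Polynomial.C_mul, Polynomial.C_mul, Polynomial.C_0] at e4
      linear_combination Polynomial.X * e4
    rw [e1, div_self hD, Polynomial.C_1]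
  have hmap : ∀ i, Psi v t0 (Th v idx (C (δ i) * ∏ j, aff S (a0 j) (a j) ^ e i j)) =
      Polynomial.C (em v (C (δ i))) * ∏ j, g j ^ e i j := by
    intro i
    rw [map_mul, map_mul, algHom_C, algebraMap_eq, Psi_C, map_prod, map_prod]
    congr 1
    refine Finset.prod_congr rfl fun j _ => ?_
    rw [map_pow, map_pow]
  have hsum : ∀ s : Finset (Fin m), Psi v t0 (Th v idx (∑ i ∈ s, C (δ i) *
      ∏ j, aff S (a0 j) (a j) ^ e i j)) = ∑ i ∈ s, Polynomial.C (em v (C (δ i))) *
        ∏ j, g j ^ e i j := by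
    intro s
    rw [map_sum, map_sum]
    exact Finset.sum_congr rfl fun i _ => hmap i
  have h1 := sep g hdeg hco e lab (n * m ^ 2) hfar m Finset.univ (fun i => em v (C (δ i)))
    (by simp) (by simp) (by rw [← hsum, h, map_zero]) l
  rw [← hsum] at h1
  exact Psi_inj t0 (by rw [h1, map_zero])

end Pool.Agent.H964R3
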