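import Mathlib
import Pool.Agent.H964R3.Trans
import Pool.Agent.H626R2.Clu.Cl

/-!
# Injectivity of the substitution on the span of power products in far classes
-/

set_option autoImplicit false

namespace Pool.Agent.H964R3

open MvPolynomial Pool.Agent.H531R2 Pool.Agent.H626R2 Pool.Agent.H626R2.Clu

/-- The substitution with `v` points is injective on the span of the power products. -/
def Inj (v : ℕ) {m p : ℕ} (S : Finset ℕ) (a0 : Fin p → ℤ) (a : Fin p → ℕ → ℤ)
    (e : Fin m → Fin p → ℕ) : Prop :=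
  ∀ idx : ℕ → ℕ, Set.InjOn idx S → ∀ δ : Fin m → ℤ,
    Th v idx (∑ i, C (δ i) * ∏ j, aff S (a0 j) (a j) ^ e i j) = 0 →
    ∑ i, C (δ i) * ∏ j, aff S (a0 j) (a j) ^ e i j = 0

/-- Setting the variables of the further points to zero. -/
noncomputable def Rho (v u : ℕ) :
    MvPolynomial (Fin ((v + u) + (v + u))) ℤ →ₐ[ℤ] MvPolynomial (Fin (v + v)) ℤ :=
  aeval fun s => Fin.addCases (motive := fun _ => MvPolynomial (Fin (v + v)) ℤ)
    (fun t : Fin (v + u) => if h : (t : ℕ) < v then X (Fin.castAdd v ⟨t, h⟩) else 0)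
    (fun t : Fin (v + u) => if h : (t : ℕ) < v then X (Fin.natAdd v ⟨t, h⟩) else 0) s

theorem Rho_Th (v u : ℕ) (idx : ℕ → ℕ) (f : MvPolynomial ℕ ℤ) :
    Rho v u (Th (v + u) idx f) = Th v idx f := by
  have h : (Rho v u).comp (Th (v + u) idx) = Th v idx := by
    apply algHom_ext
    intro j
    rw [AlgHom.comp_apply, Th, Th, aeval_X, aeval_X, map_sum, Fin.sum_univ_add]
    have h1 : ∀ t : Fin v, Rho v u (X (Fin.castAdd (v + u) (Fin.castAdd u t)) *
        X (Fin.natAdd (v + u) (Fin.castAdd u t)) ^ idx j) =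
        X (Fin.castAdd v t) * X (Fin.natAdd v t) ^ idx j := by
      intro t
      rw [map_mul, map_pow, Rho, aeval_X, aeval_X, Fin.addCases_left, Fin.addCases_right]
      simp
    have h2 : ∀ t : Fin u, Rho v u (X (Fin.castAdd (v + u) (Fin.natAdd v t)) *
        X (Fin.natAdd (v + u) (Fin.natAdd v t)) ^ idx j) = 0 := by
      intro t
      rw [map_mul, map_pow, Rho, aeval_X, aeval_X, Fin.addCases_left, Fin.addCases_right]
      simp
    rw [Finset.sum_congr rfl fun t _ => h1 t, Finset.sum_congr rfl fun t _ => h2 t,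
      Finset.sum_const_zero, add_zero]
  rw [← h, AlgHom.comp_apply]

theorem Th_mono {v w : ℕ} (h : v ≤ w) (idx : ℕ → ℕ) (f : MvPolynomial ℕ ℤ)
    (hf : Th w idx f = 0) : Th v idx f = 0 := by
  obtain ⟨u, rfl⟩ := Nat.exists_eq_add_of_le h
  rw [← Rho_Th v u, hf, map_zero]

theorem Inj.mono {v w : ℕ} (h : v ≤ w) {m p : ℕ} {S : Finset ℕ} {a0 : Fin p → ℤ}
    {a : Fin p → ℕ → ℤ} {e : Fin m → Fin p → ℕ} (hI : Inj v S a0 a e) : Inj w S a0 a e :=
  fun idx hidx δ hδ => hI idx hidx δ (Th_mono h _ _ hδ)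

/-- Bounded transcendence degree. -/
theorem inj_tr {k m p : ℕ} (S : Finset ℕ) (a0 : Fin p → ℤ) (a : Fin p → ℕ → ℤ)
    (e : Fin m → Fin p → ℕ) (hne : ∀ j, aff S (a0 j) (a j) ≠ 0)
    (htr : ∀ u : Fin (k + 1) → Fin m, ¬ AlgebraicIndependent ℚ
      (fun b => iQ (∏ j, aff S (a0 j) (a j) ^ e (u b) j))) : Inj (k + 1) S a0 a e := by
  classical
  intro idx hidx δ h
  let T : Fin m → MvPolynomial S ℚ := fun i =>
    ∏ j, H626R2.af (a0 j : ℚ) (fun l : S => (a j l : ℚ)) ^ e i j
  have hTr : ∀ i, rename Subtype.val (T i) = iQ (∏ j, aff S (a0 j) (a j) ^ e i j) := by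
    intro i
    simp only [T]
    rw [map_prod, map_prod]
    refine Finset.prod_congr rfl fun j _ => ?_
    rw [map_pow, map_pow, rename_af S (a0 j : ℚ) (fun l => (a j l : ℚ)), iQ_aff]
  have hTm : ∀ i, Thq (k + 1) (fun l : S => idx l) (T i)
      = map (Int.castRingHom ℚ) (Th (k + 1) idx (∏ j, aff S (a0 j) (a j) ^ e i j)) := by
    intro i
    simp only [T]
    rw [map_prod, map_prod, map_prod]
    refine Finset.prod_congr rfl fun j _ => ?_
    rw [map_pow, map_pow, map_pow, Thq_eq_map]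
  have hidx' : Function.Injective (fun l : S => idx l) := fun x y hxy =>
    Subtype.ext (hidx x.2 y.2 hxy)
  have hne' : ∀ j, (H626R2.af (a0 j : ℚ) (fun l : S => (a j l : ℚ)) : MvPolynomial S ℚ) ≠ 0 := by
    intro j h0
    apply hne j
    have h1 := rename_af S (a0 j : ℚ) (fun l => (a j l : ℚ))
    rw [h0, map_zero, ← iQ_aff] at h1
    exact iQ_inj (by rw [← h1, map_zero])
  have hrinj : Function.Injective (rename (Subtype.val : S → ℕ) :
      MvPolynomial S ℚ →ₐ[ℚ] MvPolynomial ℕ ℚ) := rename_injective _ Subtype.val_injective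
  have hk : ∀ u : Fin (k + 1) → Fin m, ¬ AlgebraicIndependent ℚ (fun b => T (u b)) := by
    intro u hu
    apply htr u
    have h1 := hu.map' hrinj
    convert! h1 using 1
    funext b
    exact (hTr (u b)).symm
  have h0 : (∑ i, C (δ i : ℚ) * T i : MvPolynomial S ℚ) = 0 := by
    apply faithful T (Thq (k + 1) (fun l : S => idx l)) hk
    · intro r hr u hu
      exact transfer hidx' (by omega) (fun b => e (u b)) (fun j => (a0 j : ℚ))
        (fun j (l : S) => (a j l : ℚ)) hne' hu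
    · refine Subalgebra.sum_mem _ fun i _ => Subalgebra.mul_mem _ ?_
        (Algebra.subset_adjoin ⟨i, rfl⟩)
      rw [← algebraMap_eq]
      exact Subalgebra.algebraMap_mem _ _
    · rw [map_sum]
      have h2 : ∀ i, Thq (k + 1) (fun l : S => idx l) (C (δ i : ℚ) * T i)
          = map (Int.castRingHom ℚ) (Th (k + 1) idx (C (δ i) *
            ∏ j, aff S (a0 j) (a j) ^ e i j)) := by
        intro i
        rw [map_mul, hTm, algHom_C, algebraMap_eq, map_mul (Th (k + 1) idx), algHom_C,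
          algebraMap_eq, map_mul, map_C]
        rfl
      rw [Finset.sum_congr rfl fun i _ => h2 i, ← map_sum, ← map_sum, h, map_zero]
  apply iQ_inj
  rw [map_zero, map_sum]
  have h3 := congrArg (rename (Subtype.val : S → ℕ)) h0
  rw [map_zero, map_sum] at h3
  rw [← h3]
  refine Finset.sum_congr rfl fun i _ => ?_
  rw [map_mul, map_mul, hTr, rename_C, iQ_C]

/-- Boundedly many balls of bounded radius. -/
theorem inj_cl {k r m p : ℕ} (S : Finset ℕ) (a0 : Fin p → ℤ) (a : Fin p → ℕ → ℤ)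
    (e : Fin m → Fin p → ℕ) (hne : ∀ j, aff S (a0 j) (a j) ≠ 0) (B : Fin k → Fin p → ℕ)
    (g : Fin m → Fin k) (hcl : ∀ i, ∑ j, ((B (g i) j - e i j) + (e i j - B (g i) j)) ≤ r) :
    Inj (Tn k r r) S a0 a e := by
  classical
  intro idx hidx δ h
  let T : Fin m → MvPolynomial S ℚ := fun i =>
    ∏ j, H626R2.af (a0 j : ℚ) (fun l : S => (a j l : ℚ)) ^ e i j
  have hTr : ∀ i, rename Subtype.val (T i) = iQ (∏ j, aff S (a0 j) (a j) ^ e i j) := by
    intro i
    simp only [T]
    rw [map_prod, map_prod]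
    refine Finset.prod_congr rfl fun j _ => ?_
    rw [map_pow, map_pow, rename_af S (a0 j : ℚ) (fun l => (a j l : ℚ)), iQ_aff]
  have hTm : ∀ i, Thq (Tn k r r) (fun l : S => idx l) (T i)
      = map (Int.castRingHom ℚ) (Th (Tn k r r) idx (∏ j, aff S (a0 j) (a j) ^ e i j)) := by
    intro i
    simp only [T]
    rw [map_prod, map_prod, map_prod]
    refine Finset.prod_congr rfl fun j _ => ?_
    rw [map_pow, map_pow, map_pow, Thq_eq_map]
  have hidx' : Function.Injective (fun l : S => idx l) := fun x y hxy =>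
    Subtype.ext (hidx x.2 y.2 hxy)
  have hne' : ∀ j, (H626R2.af (a0 j : ℚ) (fun l : S => (a j l : ℚ)) : MvPolynomial S ℚ) ≠ 0 := by
    intro j h0
    apply hne j
    have h1 := rename_af S (a0 j : ℚ) (fun l => (a j l : ℚ))
    rw [h0, map_zero, ← iQ_aff] at h1
    exact iQ_inj (by rw [← h1, map_zero])
  have h0 : (∑ i, C (δ i : ℚ) * T i : MvPolynomial S ℚ) = 0 := by
    apply clusters_exps (fun _ => (0 : ℚ)) (linInd_pow hidx')
      (fun j => H626R2.af (a0 j : ℚ) (fun l : S => (a j l : ℚ))) (fun j => ⟨⟨_, _, rfl⟩, hne' j⟩)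
      e g B hcl (fun i => (δ i : ℚ))
    rw [← rename_Thq]
    have h2 : ∀ i, Thq (Tn k r r) (fun l : S => idx l) (C (δ i : ℚ) * T i)
        = map (Int.castRingHom ℚ) (Th (Tn k r r) idx (C (δ i) *
          ∏ j, aff S (a0 j) (a j) ^ e i j)) := by
      intro i
      rw [map_mul, hTm, algHom_C, algebraMap_eq, map_mul (Th (Tn k r r) idx), algHom_C,
        algebraMap_eq, map_mul, map_C]
      rfl
    have h3 : Thq (Tn k r r) (fun l : S => idx l) (∑ i, C (δ i : ℚ) * T i) = 0 := by
      rw [map_sum, Finset.sum_congr rfl fun i _ => h2 i, ← map_sum, ← map_sum, h, map_zero]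
    have h4 : Thq (Tn k r r) (fun l : S => idx l) (∑ i, C (δ i : ℚ) * ∏ j,
        H626R2.af (a0 j : ℚ) (fun l : S => (a j l : ℚ)) ^ e i j) = 0 := h3
    rw [h4, map_zero]
  apply iQ_inj
  rw [map_zero, map_sum]
  have h3 := congrArg (rename (Subtype.val : S → ℕ)) h0
  rw [map_zero, map_sum] at h3
  rw [← h3]
  refine Finset.sum_congr rfl fun i _ => ?_
  rw [map_mul, map_mul, hTr, rename_C, iQ_C]

/-- The affine forms do not vanish under the substitution. -/
theorem Th_aff_ne {v : ℕ} (hv : 1 ≤ v) {idx : ℕ → ℕ} {S : Finset ℕ} (hidx : Set.InjOn idx S)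
    (a0 : ℤ) {a : ℕ → ℤ} (ha : ∃ i ∈ S, a i ≠ 0) : Th v idx (aff S a0 a) ≠ 0 := by
  intro h
  have h1 := Psi_Th_aff (⟨0, hv⟩ : Fin v) idx S a0 a
  rw [h, map_zero, map_zero, Polynomial.C_0, add_zero] at h1
  have h2 := mul_eq_zero.1 h1.symm
  rcases h2 with h2 | h2
  · rw [Polynomial.C_eq_zero] at h2
    exact Ez_ne hidx ha _ ((IsFractionRing.injective (MvPolynomial (Fin (v + v)) ℤ) (KF v))
      (by rw [map_zero]; exact h2))
  · exact Polynomial.X_ne_zero h2

theorem aff_ne {S : Finset ℕ} (a0 : ℤ) {a : ℕ → ℤ} (ha : ∃ i ∈ S, a i ≠ 0) : aff S a0 a ≠ 0 := by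
  intro h
  have h1 := Th_aff_ne (v := 1) le_rfl (idx := id) (fun x _ y _ h => h) a0 ha
  rw [h, map_zero] at h1
  exact h1 rfl

/-- Injectivity for power products in far classes. -/
theorem inj_sep {k r m p v : ℕ} (hv : 2 ≤ v) (hv1 : k + 1 ≤ v) (hv2 : Tn k r r ≤ v)
    (S : Finset ℕ) (a0 : Fin p → ℤ) (a : Fin p → ℕ → ℤ) (e : Fin m → Fin p → ℕ)
    (ha : ∀ j, ∃ i ∈ S, a j i ≠ 0)
    (hnp : ∀ j j', j ≠ j' → ∀ x y : ℤ, x ≠ 0 →
      C x * aff S (a0 j) (a j) ≠ C y * aff S (a0 j') (a j'))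
    (lab : Fin m → ℕ)
    (hfar : ∀ i i', lab i ≠ lab i' →
      p * m ^ 2 < ∑ j, (e i j - e i' j) ∨ p * m ^ 2 < ∑ j, (e i' j - e i j))
    (hcl : ∀ l, (∃ w : Fin p → ℕ, (∀ i, lab i = l → ∀ j, w j ≤ e i j) ∧
        ∀ u : Fin (k + 1) → Fin m, (∀ b, lab (u b) = l) → ¬ AlgebraicIndependent ℚ
          (fun b => iQ (∏ j, aff S (a0 j) (a j) ^ (e (u b) j - w j)))) ∨
      (∃ (B : Fin k → Fin p → ℕ) (g : Fin m → Fin k), ∀ i, lab i = l →
        ∑ j, ((B (g i) j - e i j) + (e i j - B (g i) j)) ≤ r)) :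
    Inj v S a0 a e := by
  classical
  intro idx hidx δ h
  have hne : ∀ j, aff S (a0 j) (a j) ≠ 0 := fun j => aff_ne _ (ha j)
  have hsplit := sep_Th hv a0 a e ha hnp lab hfar idx hidx δ h
  have hall : ∀ l, ∑ i ∈ Finset.univ.filter (fun i => lab i = l),
      C (δ i) * ∏ j, aff S (a0 j) (a j) ^ e i j = 0 := by
    intro l
    have h0 := hsplit l
    rcases hcl l with ⟨w, hw, htr⟩ | ⟨B, g, hB⟩
    · set e' : Fin m → Fin p → ℕ := fun i j => if lab i = l then e i j - w j else 0 with he'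
      set δ' : Fin m → ℤ := fun i => if lab i = l then δ i else 0 with hδ'
      have heq : ∑ i ∈ Finset.univ.filter (fun i => lab i = l),
          C (δ i) * ∏ j, aff S (a0 j) (a j) ^ e i j =
          (∏ j, aff S (a0 j) (a j) ^ w j) * ∑ i, C (δ' i) * ∏ j, aff S (a0 j) (a j) ^ e' i j := by
        rw [Finset.sum_filter, Finset.mul_sum]
        refine Finset.sum_congr rfl fun i _ => ?_
        by_cases hi : lab i = l
        · simp only [he', hδ', if_pos hi]
          rw [mul_left_comm, ← Finset.prod_mul_distrib]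
          congr 1
          refine Finset.prod_congr rfl fun j _ => ?_
          rw [← pow_add, Nat.add_sub_cancel' (hw i hi j)]
        · simp only [hδ', if_neg hi]
          simp
      rw [heq, map_mul] at h0
      have hne0 : Th v idx (∏ j, aff S (a0 j) (a j) ^ w j) ≠ 0 := by
        rw [map_prod, Finset.prod_ne_zero_iff]
        intro j _
        rw [map_pow]
        exact pow_ne_zero _ (Th_aff_ne (by omega) hidx _ (ha j))
      have h1 := (mul_eq_zero.1 h0).resolve_left hne0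
      have hI : Inj v S a0 a e' := by
        refine Inj.mono hv1 (inj_tr S a0 a e' hne ?_)
        intro u hu
        by_cases hlab : ∀ b, lab (u b) = l
        · apply htr u hlab
          convert! hu using 1
          funext b
          simp only [he', if_pos (hlab b)]
        · push Not at hlab
          obtain ⟨b, hb⟩ := hlab
          have h1 : iQ (∏ j, aff S (a0 j) (a j) ^ e' (u b) j) = 1 := by
            rw [Finset.prod_eq_one, map_one]
            intro j _
            simp only [he', if_neg hb, pow_zero]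
          have h2 := (algebraicIndependent_iff.1 hu) (X b - 1) (by
            rw [map_sub, aeval_X, map_one, h1, sub_self])
          have h3 := congrArg (eval (fun _ => (0 : ℚ))) h2
          simp at h3
      rw [heq, hI idx hidx δ' h1, mul_zero]
    · set e' : Fin m → Fin p → ℕ := fun i j => if lab i = l then e i j else B (g i) j with he'
      set δ' : Fin m → ℤ := fun i => if lab i = l then δ i else 0 with hδ'
      have heq : ∑ i ∈ Finset.univ.filter (fun i => lab i = l),
          C (δ i) * ∏ j, aff S (a0 j) (a j) ^ e i j =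
          ∑ i, C (δ' i) * ∏ j, aff S (a0 j) (a j) ^ e' i j := by
        rw [Finset.sum_filter]
        refine Finset.sum_congr rfl fun i _ => ?_
        by_cases hi : lab i = l
        · simp only [he', hδ', if_pos hi]
        · simp only [hδ', if_neg hi]
          simp
      rw [heq] at h0 ⊢
      refine Inj.mono hv2 (inj_cl (k := k) (r := r) S a0 a e' hne B g ?_) idx hidx δ' h0
      intro i
      by_cases hi : lab i = l
      · simp only [he', if_pos hi]
        exact hB i hi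
      · simp only [he', if_neg hi]
        simp
  rw [← Finset.sum_fiberwise_of_maps_to (s := Finset.univ) (t := Finset.univ.image lab) (g := lab)
    (fun i _ => Finset.mem_image_of_mem _ (Finset.mem_univ i))]
  exact Finset.sum_eq_zero fun l _ => hall l

/-- Scaling of the forms. -/
theorem Inj.scale {v m p : ℕ} {S : Finset ℕ} {a0 b0 : Fin p → ℤ} {a b : Fin p → ℕ → ℤ}
    {e : Fin m → Fin p → ℕ} (hI : Inj v S b0 b e) (κ : Fin p → ℤ) (hκ0 : ∀ j, κ j ≠ 0)
    (hκ : ∀ j, aff S (b0 j) (b j) = C (κ j) * aff S (a0 j) (a j)) : Inj v S a0 a e := by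
  classical
  intro idx hidx δ h
  let Kc : Fin m → ℤ := fun i => ∏ j, κ j ^ e i j
  have hKc : ∀ i, Kc i ≠ 0 := fun i => Finset.prod_ne_zero_iff.2 fun j _ => pow_ne_zero _ (hκ0 j)
  have hprod : ∀ i, ∏ j, aff S (b0 j) (b j) ^ e i j
      = C (Kc i) * ∏ j, aff S (a0 j) (a j) ^ e i j := by
    intro i
    simp only [Kc]
    rw [map_prod, ← Finset.prod_mul_distrib]
    refine Finset.prod_congr rfl fun j _ => ?_
    rw [hκ j, mul_pow, map_pow]
  have hsum : ∑ i, C (δ i * ∏ i' ∈ Finset.univ.erase i, Kc i') *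
      ∏ j, aff S (b0 j) (b j) ^ e i j =
      C (∏ i, Kc i) * ∑ i, C (δ i) * ∏ j, aff S (a0 j) (a j) ^ e i j := by
    rw [Finset.mul_sum]
    refine Finset.sum_congr rfl fun i _ => ?_
    rw [hprod, ← Finset.mul_prod_erase Finset.univ Kc (Finset.mem_univ i), C_mul, C_mul]
    ring
  have h1 := hI idx hidx (fun i => δ i * ∏ i' ∈ Finset.univ.erase i, Kc i') (by
    rw [hsum, map_mul, h, mul_zero])
  rw [hsum] at h1
  refine (mul_eq_zero.1 h1).resolve_left ?_
  rw [C_eq_zero]
  exact Finset.prod_ne_zero_iff.2 fun i _ => hKc i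

/-- Padding. -/
theorem Inj.pad {v m p n : ℕ} {S : Finset ℕ} {a0 : Fin p → ℤ} {a : Fin p → ℕ → ℤ}
    {e : Fin m → Fin p → ℕ} (hI : Inj v S a0 a e) (ι : Fin n → Fin m) {a0' : Fin n → ℤ}
    {a' : Fin n → ℕ → ℤ} {e' : Fin n → Fin n → ℕ}
    (hprod : ∀ i, ∏ j, aff S (a0' j) (a' j) ^ e' i j = ∏ j, aff S (a0 j) (a j) ^ e (ι i) j) :
    Inj v S a0' a' e' := by
  classical
  intro idx hidx δ h
  have hsum : ∑ i, C (δ i) * ∏ j, aff S (a0' j) (a' j) ^ e' i j =
      ∑ i', C (∑ i ∈ Finset.univ.filter (fun i => ι i = i'), δ i) *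
        ∏ j, aff S (a0 j) (a j) ^ e i' j := by
    rw [← Finset.sum_fiberwise (s := Finset.univ) (g := ι)]
    refine Finset.sum_congr rfl fun i' _ => ?_
    rw [map_sum, Finset.sum_mul]
    refine Finset.sum_congr rfl fun i hi => ?_
    rw [hprod, (Finset.mem_filter.1 hi).2]
  rw [hsum] at h ⊢
  exact hI idx hidx _ h

end Pool.Agent.H964R3
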