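import Mathlib
import Pool.Agent.H964R3.SInj
import Pool.Agent.H626R2.PCore
import Pool.Agent.H531R2.Final

/-!
# The hitting set theorem for families on which the substitution is injective, and the decision
procedure
-/

set_option autoImplicit false

namespace Pool.Agent.H964R3

open MvPolynomial Pool.Agent.H531R2 Pool.Agent.H626R2 Pool.Agent.NPC

variable {v n : ℕ}

/-- Rational combinations of power products such that the substitution is injective on their
span. -/
def FewI (v n : ℕ) (F : MvPolynomial ℕ ℚ) : Prop :=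
  ∃ (S : Finset ℕ) (a0 : Fin n → ℤ) (a : Fin n → ℕ → ℤ) (e : Fin n → Fin n → ℕ)
    (c : Fin n → ℚ),
    S.card ≤ n ∧ (∀ j, (a0 j).natAbs ≤ 2 ^ n) ∧ (∀ j i, (a j i).natAbs ≤ 2 ^ n) ∧
    (∀ j, aff S (a0 j) (a j) ≠ 0) ∧ (∀ i j, e i j ≤ 2 ^ n) ∧ Inj v S a0 a e ∧
    F = ∑ i, C (c i) * ∏ j, aff S (a0 j : ℚ) (fun l => (a j l : ℚ)) ^ e i j

/-- Divisors of products of such polynomials. -/
def TameI (v n : ℕ) (f : MvPolynomial ℕ ℤ) : Prop :=
  (∀ p : ℕ, p.Prime → n < p → ¬ (C ((p : ℤ) ^ (n + 1)) ∣ f)) ∧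
    ∃ F : Fin n → MvPolynomial ℕ ℚ, (∀ a, F a ≠ 0 ∧ FewI v n (F a)) ∧
      map (Int.castRingHom ℚ) f ∣ ∏ a, F a

/-- Integer form of a nonzero polynomial with `FewI`. -/
theorem FewI.reduce {F : MvPolynomial ℕ ℚ} (hF0 : F ≠ 0) (hF : FewI v n F) :
    ∃ (S : Finset ℕ) (a0 : Fin n → ℤ) (a : Fin n → ℕ → ℤ) (e : Fin n → Fin n → ℕ)
      (c : Fin n → ℤ) (K κ : ℤ) (F' : MvPolynomial ℕ ℤ),
      S.card ≤ n ∧ (∀ j, (a0 j).natAbs ≤ 2 ^ n) ∧ (∀ j i, (a j i).natAbs ≤ 2 ^ n) ∧
      (∀ j, Prim (aff S (a0 j) (a j))) ∧ (∀ i j, e i j ≤ 2 ^ n) ∧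
      Inj v S a0 a e ∧
      K ≠ 0 ∧ κ ≠ 0 ∧ Prim F' ∧ C κ * F' = ∑ i, C (c i) * ∏ j, aff S (a0 j) (a j) ^ e i j ∧
      C (K : ℚ) * F = iQ (C κ * F') := by
  classical
  obtain ⟨S, b0, b, e, c, hS, hb0, hb, hne, he, hcl, rfl⟩ := hF
  have hpp := fun j => aff_prim_part S (b0 j) (b j) (B := 2 ^ n) Nat.one_le_two_pow (hb0 j) (hb j)
  choose κ a0 a hκ hprim ha0 ha using hpp
  have hκ0 : ∀ j, κ j ≠ 0 := by
    intro j h0
    apply hne j
    rw [hκ j, h0, C_0, zero_mul]
  have hex : ∀ i, ∃ z : ℤ, (z : ℚ) = ((∏ i, (c i).den : ℕ) : ℚ) * c i := by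
    intro i
    refine ⟨((∏ i' ∈ Finset.univ.erase i, (c i').den : ℕ) : ℤ) * (c i).num, ?_⟩
    rw [← Finset.mul_prod_erase Finset.univ (fun i => (c i).den) (Finset.mem_univ i)]
    push_cast
    have h1 : ((c i).den : ℚ) * c i = (c i).num := by
      rw [mul_comm]; exact Rat.mul_den_eq_num (c i)
    rw [← h1]
    ring
  choose z hz using hex
  set K : ℕ := ∏ i, (c i).den with hK
  have hK0 : (K : ℤ) ≠ 0 := by
    have : K ≠ 0 := Finset.prod_ne_zero_iff.2 fun i _ => (c i).den_nz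
    exact_mod_cast this
  let Kc : Fin n → ℤ := fun i => ∏ j, κ j ^ e i j
  have hprod : ∀ i, ∏ j, aff S (b0 j) (b j) ^ e i j
      = C (Kc i) * ∏ j, aff S (a0 j) (a j) ^ e i j := by
    intro i
    simp only [Kc]
    rw [map_prod, ← Finset.prod_mul_distrib]
    refine Finset.prod_congr rfl fun j _ => ?_
    rw [hκ j, mul_pow, map_pow]
  have hterm : ∀ i, (∏ j, aff S (b0 j : ℚ) (fun l => (b j l : ℚ)) ^ e i j : MvPolynomial ℕ ℚ)
      = iQ (∏ j, aff S (b0 j) (b j) ^ e i j) := by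
    intro i
    rw [map_prod]
    refine Finset.prod_congr rfl fun j _ => ?_
    rw [map_pow, iQ_aff]
  set F0 : MvPolynomial ℕ ℤ := ∑ i, C (z i * Kc i) * ∏ j, aff S (a0 j) (a j) ^ e i j with hF0def
  have hrel : C ((K : ℤ) : ℚ) * (∑ i, C (c i) * ∏ j,
      aff S (b0 j : ℚ) (fun l => (b j l : ℚ)) ^ e i j) = iQ F0 := by
    rw [hF0def, map_sum, Finset.mul_sum]
    refine Finset.sum_congr rfl fun i _ => ?_
    rw [hterm, hprod, ← mul_assoc, ← C_mul]
    have h1 : (((K : ℤ) : ℚ)) * c i = (z i : ℚ) := by rw [hz i]; push_cast; rfl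
    rw [h1, map_mul, ← mul_assoc, iQ_C, ← C_mul, map_mul iQ (C (z i * Kc i)), iQ_C]
    push_cast
    rw [C_mul]
  have hF00 : F0 ≠ 0 := by
    intro h0
    rw [h0, map_zero] at hrel
    rcases mul_eq_zero.1 hrel with h | h
    · rw [C_eq_zero] at h
      exact hK0 (by exact_mod_cast h)
    · exact hF0 h
  obtain ⟨κ', F', hκ', hkF, hF'⟩ := exists_prim_part hF00
  exact ⟨S, a0, a, e, fun i => z i * Kc i, K, κ', F', hS, ha0, ha, hprim, he, hcl.scale κ hκ0 hκ, hK0,
    hκ', hF', by rw [← hkF], by rw [hrel, hkF]⟩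

/-- Tame polynomials in integer form. -/
theorem TameI.reduce {f : MvPolynomial ℕ ℤ} (hf : TameI v n f) :
    ∃ (cf : ℤ) (f' : MvPolynomial ℕ ℤ) (S : Fin n → Finset ℕ) (a0 : Fin n → Fin n → ℤ)
      (a : Fin n → Fin n → ℕ → ℤ) (e : Fin n → Fin n → Fin n → ℕ)
      (c : Fin n → Fin n → ℤ) (κ : Fin n → ℤ) (F' : Fin n → MvPolynomial ℕ ℤ),
      f = C cf * f' ∧ cf ≠ 0 ∧
      (∀ α, (S α).card ≤ n ∧ (∀ j, (a0 α j).natAbs ≤ 2 ^ n) ∧
        (∀ j i, (a α j i).natAbs ≤ 2 ^ n) ∧ (∀ j, Prim (aff (S α) (a0 α j) (a α j))) ∧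
        (∀ i j, e α i j ≤ 2 ^ n) ∧
        Inj v (S α) (a0 α) (a α) (e α) ∧
        κ α ≠ 0 ∧ Prim (F' α) ∧
        C (κ α) * F' α = ∑ i, C (c α i) * ∏ j, aff (S α) (a0 α j) (a α j) ^ e α i j) ∧
      f' ∣ ∏ α, F' α := by
  classical
  obtain ⟨hcont, F, hF, hfd⟩ := hf
  have hf0 : f ≠ 0 := by
    rintro rfl
    obtain ⟨p, hp1, hp2⟩ := Nat.exists_infinite_primes (n + 1)
    exact hcont p hp2 (by omega) (dvd_zero _)
  have hred := fun α => (hF α).2.reduce (hF α).1
  choose S a0 a e c K κ F' hS ha0 ha hprim he htr hK hκ hF' hrel hFe using hred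
  obtain ⟨cf, f', hcf, hff, hf'⟩ := exists_prim_part hf0
  refine ⟨cf, f', S, a0, a, e, c, κ, F', hff, hcf, fun α => ⟨hS α, ha0 α, ha α, hprim α, he α,
    htr α, hκ α, hF' α, hrel α⟩, ?_⟩
  set P := ∏ α, F' α with hP
  have h1 : iQ f ∣ iQ (C (∏ α, κ α) * P) := by
    have h2 : iQ (C (∏ α, κ α) * P) = (∏ α, C (K α : ℚ)) * ∏ α, F α := by
      rw [← Finset.prod_mul_distrib, hP, map_prod, ← Finset.prod_mul_distrib, map_prod]
      exact Finset.prod_congr rfl fun α _ => (hFe α).symm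
    rw [h2]
    exact Dvd.dvd.mul_left hfd _
  obtain ⟨q, hq⟩ := h1
  obtain ⟨J, q', hJ, hq'⟩ := clear_den q
  have h3 : f * q' = C (J * ∏ α, κ α) * P := by
    apply iQ_inj
    rw [map_mul, ← hq', C_mul, mul_assoc, map_mul, hq, iQ_C]
    ring
  have hk0 : J * ∏ α, κ α ≠ 0 := mul_ne_zero hJ (Finset.prod_ne_zero_iff.2 fun α _ => hκ α)
  have h4 : (C (J * ∏ α, κ α) : MvPolynomial ℕ ℤ) ∣ C cf * q' := by
    apply hf'.C_dvd hk0
    refine ⟨P, ?_⟩
    rw [← h3, hff]
    ring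
  obtain ⟨q'', hq''⟩ := h4
  refine ⟨q'', ?_⟩
  have hC : (C (J * ∏ α, κ α) : MvPolynomial ℕ ℤ) ≠ 0 := by
    rw [Ne, C_eq_zero]; exact hk0
  apply mul_left_cancel₀ hC
  rw [← h3, hff]
  linear_combination f' * hq''

/-- The hitting set theorem. -/
theorem hit2 (hv1 : 1 ≤ v) {f : MvPolynomial ℕ ℤ} (hf : TameI v n f) (V : Finset ℕ) (hV : f.vars ⊆ V)
    (idx : ℕ → ℕ) (hidx : Set.InjOn idx V) (m : ℕ) (hlt : ∀ j ∈ V, idx j < m) :
    ∀ p : ℕ, p.Prime → PP v n m ≤ p →
      ∃ a : Fin (v + v) → ℕ, (∀ t, a t < p ^ 2) ∧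
        ¬ ((p : ℤ) ^ (Ex v n m + 1) ∣
        eval (fun j => ∑ t : Fin v, (a (Fin.castAdd v t) : ℤ) *
          (a (Fin.natAdd v t) : ℤ) ^ idx j) f) := by
  classical
  have hcont := hf.1
  obtain ⟨cf, f', S, a0, a, e, c, κ, F', hff, hcf, hall, hfd⟩ := hf.reduce
  have hS := fun α => (hall α).1
  have ha0 := fun α => (hall α).2.1
  have ha := fun α => (hall α).2.2.1
  have hprim := fun α => (hall α).2.2.2.1
  have he := fun α => (hall α).2.2.2.2.1
  have htr := fun α => (hall α).2.2.2.2.2.1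
  have hκ := fun α => (hall α).2.2.2.2.2.2.1
  have hF' := fun α => (hall α).2.2.2.2.2.2.2.1
  have hrel := fun α => (hall α).2.2.2.2.2.2.2.2
  intro p hp hpP
  -- numbering
  let W : Finset ℕ := Finset.univ.biUnion S
  have hW : W.card ≤ n * (v + n) := by
    refine Finset.card_biUnion_le.trans ?_
    refine (Finset.sum_le_card_nsmul Finset.univ _ (v + n) fun α _ =>
      (hS α).trans (Nat.le_add_left _ _)).trans ?_
    simp
  obtain ⟨idx', hidxV, hidx', hlt'⟩ := exists_numbering V W idx hidx m hlt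
  have hSW : ∀ α, ∀ j ∈ S α, j ∈ V ∪ W := by
    intro α j hj
    rw [Finset.mem_union]
    right
    rw [Finset.mem_biUnion]
    exact ⟨α, Finset.mem_univ _, hj⟩
  have hltm : ∀ α, ∀ j ∈ S α, idx' j < mm v n m := by
    intro α j hj
    have := hlt' _ (hSW α j hj)
    rw [mm]
    omega
  have hidxS : ∀ α, Set.InjOn idx' (S α) := fun α j hj j' hj' h =>
    hidx' (hSW α j hj) (hSW α j' hj') h
  have hP2 : Ex v n m < p := by rw [PP] at hpP; omega
  have hP3 : n * n * HH v n m < p := by rw [PP] at hpP; omega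
  have hP4 : n < p := by rw [PP] at hpP; omega
  -- the bases after the substitution
  set G : Fin n → Fin n → MvPolynomial (Fin (v + v)) ℤ :=
    fun α j => Th v idx' (aff (S α) (a0 α j) (a α j)) with hG
  have hGp : ∀ α j, Prim (G α j) := fun α j =>
    Prim_Th_aff hv1 idx' (S α) (hidxS α) _ _ (hprim α j)
  have hGd : ∀ α j, (G α j).totalDegree ≤ HH v n m := by
    intro α j
    refine (totalDegree_Th_aff idx' _ _ _ (mm v n m) (hltm α)).trans ?_
    have hn0 : 0 < n := Fin.pos j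
    rw [HH]
    refine le_trans ?_ (Nat.le_mul_of_pos_left _ hn0)
    omega
  have hGn : ∀ α j, nrm (G α j) ≤ 2 ^ HH v n m := by
    intro α j
    have hn0 : 0 < n := Fin.pos j
    refine (nrm_Th_aff idx' _ _ _ (2 ^ n) (ha0 α j) (ha α j)).trans ?_
    have h1 := form_bound v n (S α).card ((hS α).trans (Nat.le_add_left _ _))
    have h2 : 2 ^ n ≤ 2 ^ (2 * v + 2 * n + 1) := Nat.pow_le_pow_right (by norm_num) (by omega)
    calc 2 ^ n + (S α).card * (2 ^ n * v)
        ≤ 2 ^ (2 * v + 2 * n + 1) + 2 ^ (2 * v + 2 * n + 1) := Nat.add_le_add h2 h1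
      _ = 2 ^ (2 * v + 2 * n + 2) := by rw [← two_mul, ← pow_succ']
      _ ≤ 2 ^ HH v n m := by
        apply Nat.pow_le_pow_right (by norm_num)
        rw [HH]
        refine le_trans ?_ (Nat.le_mul_of_pos_left _ hn0)
        omega
  -- the first half of the point
  have hPr : Prim (∏ α, ∏ j, G α j) := Prim.prod _ _ fun α _ => Prim.prod _ _ fun j _ => hGp α j
  have hPd : (∏ α, ∏ j, G α j).totalDegree ≤ n * n * HH v n m := by
    have h1 := totalDegree_prod_le Finset.univ (fun α => ∏ j, G α j) (n * HH v n m) (fun α _ => by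
      have h2 := totalDegree_prod_le Finset.univ (G α) (HH v n m) (fun j _ => hGd α j)
      rwa [Finset.card_univ, Fintype.card_fin] at h2)
    rw [Finset.card_univ, Fintype.card_fin] at h1
    rw [mul_assoc]
    exact h1
  obtain ⟨s, hs, hsP⟩ := exists_point hp (hPr p hp) (d := n * n * HH v n m) (fun m' hm' => by
    have h0 : coeff m' (∏ α, ∏ j, G α j) = 0 := by
      by_contra hne
      exact absurd (degree_le_totalDegree hne) (not_le.2 (lt_of_le_of_lt hPd hm'))
    rw [h0]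
    exact dvd_zero _) hP3
  have hsg : ∀ α j, ¬ ((p : ℤ) ∣ eval (fun t => (s t : ℤ)) (G α j)) := by
    intro α j h
    apply hsP
    rw [map_prod]
    refine h.trans ?_
    refine dvd_trans ?_ (Finset.dvd_prod_of_mem _ (Finset.mem_univ α))
    rw [map_prod]
    exact Finset.dvd_prod_of_mem _ (Finset.mem_univ j)
  set s' : Fin (v + v) → ℤ := fun t => (s t : ℤ) with hs'
  -- each factor
  have hn1 : n ≤ HH v n m := by
    rw [HH]
    exact Nat.le_mul_of_pos_right n (by omega)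
  have hTprod : ∀ α i, Th v idx' (∏ j, aff (S α) (a0 α j) (a α j) ^ e α i j)
      = ∏ j, G α j ^ e α i j := by
    intro α i
    rw [map_prod]
    exact Finset.prod_congr rfl fun j _ => map_pow _ _ _
  have hThC : ∀ z : ℤ, Th v idx' (C z) = C z := by
    intro z
    rw [algHom_C, algebraMap_eq]
  have hFa : ∀ α, ¬ ((C (p : ℤ)) ^ (E1 (v + v) (HH v n m) + 1) ∣ Sig p s' (Th v idx' (F' α))) := by
    intro α
    -- injectivity
    have hinj : ∀ δ : Fin n → ℤ, Th v idx' (∑ i, C (δ i) *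
        ∏ j, aff (S α) (a0 α j) (a α j) ^ e α i j) = 0 →
        ∑ i, C (δ i) * ∏ j, aff (S α) (a0 α j) (a α j) ^ e α i j = 0 := fun δ hδ =>
      htr α idx' (hidxS α) δ hδ
    have hCκ : (C (κ α) : MvPolynomial ℕ ℤ) ≠ 0 := by rw [Ne, C_eq_zero]; exact hκ α
    refine core2 hp hn1 s' (G α) (e α) (c α)
      (fun j => ⟨hGp α j, hGd α j, hGn α j⟩)
      (fun i j => (he α i j).trans (Nat.pow_le_pow_right (by norm_num) hn1)) _ ?_ ?_ (κ α) (hκ α) ?_
      (hsg α)
    · intro h0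
      have h1 : Th v idx' (C (κ α) * F' α) = 0 := by rw [map_mul, h0, mul_zero]
      rw [hrel α] at h1
      have h2 := hinj _ h1
      rw [← hrel α] at h2
      rcases mul_eq_zero.1 h2 with h | h
      · exact hCκ h
      · exact (hF' α).ne_zero h
    · intro l γ β hl hγ
      have h1 : Th v idx' (∑ i, C (l * c α i - κ α * γ i) *
          ∏ j, aff (S α) (a0 α j) (a α j) ^ e α i j) = 0 := by
        have h2 : ∀ i, Th v idx' (C (l * c α i - κ α * γ i) *
            ∏ j, aff (S α) (a0 α j) (a α j) ^ e α i j)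
            = C l * (C (c α i) * ∏ j, G α j ^ e α i j) -
              C (κ α) * (C (γ i) * ∏ j, G α j ^ e α i j) := by
          intro i
          rw [map_mul, hTprod, hThC, C_sub, C_mul, C_mul]
          ring
        rw [map_sum, Finset.sum_congr rfl fun i _ => h2 i, Finset.sum_sub_distrib,
          ← Finset.mul_sum, ← Finset.mul_sum, ← hl]
        have h3 := congrArg (Th v idx') (hrel α)
        rw [map_mul, hThC, map_sum] at h3
        have h4 : ∀ i, Th v idx' (C (c α i) * ∏ j, aff (S α) (a0 α j) (a α j) ^ e α i j)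
            = C (c α i) * ∏ j, G α j ^ e α i j := by
          intro i
          rw [map_mul, hTprod, hThC]
        rw [Finset.sum_congr rfl fun i _ => h4 i] at h3
        rw [← h3]
        ring
      have h5 := hinj _ h1
      have h6 : C l * F' α = ∑ i, C (γ i) * ∏ j, aff (S α) (a0 α j) (a α j) ^ e α i j := by
        apply mul_left_cancel₀ hCκ
        have h7 : C (κ α) * (C l * F' α) - C (κ α) *
            ∑ i, C (γ i) * ∏ j, aff (S α) (a0 α j) (a α j) ^ e α i j
            = ∑ i, C (l * c α i - κ α * γ i) *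
              ∏ j, aff (S α) (a0 α j) (a α j) ^ e α i j := by
          have h8 : C (κ α) * (C l * F' α) = C l * (C (κ α) * F' α) := by ring
          rw [h8, hrel α, Finset.mul_sum, Finset.mul_sum, ← Finset.sum_sub_distrib]
          refine Finset.sum_congr rfl fun i _ => ?_
          rw [C_sub, C_mul, C_mul]
          ring
        rw [h5] at h7
        exact sub_eq_zero.1 h7
      have h7 : (C ((p : ℤ) ^ β) : MvPolynomial ℕ ℤ) ∣ F' α * C l := by
        rw [mul_comm, h6]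
        exact Finset.dvd_sum fun i _ => Dvd.dvd.mul_right (map_dvd C (hγ i)) _
      have h8 := (hF' α).C_dvd (pow_ne_zero _ (by exact_mod_cast hp.ne_zero)) h7
      rw [C_dvd_iff_dvd_coeff] at h8
      have h9 := h8 0
      rwa [coeff_zero_C] at h9
    · have h3 := congrArg (Th v idx') (hrel α)
      rw [map_mul, hThC, map_sum] at h3
      rw [h3]
      refine Finset.sum_congr rfl fun i _ => ?_
      rw [map_mul, hTprod, hThC]
  have hprod := not_pow_dvd_prod hp Finset.univ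
    (fun α => Sig p s' (Th v idx' (F' α))) (E1 (v + v) (HH v n m))
    (fun α _ => hFa α)
  rw [Finset.card_univ, Fintype.card_fin, ← map_prod, ← map_prod] at hprod
  have hSf' : ¬ ((C (p : ℤ)) ^ (n * E1 (v + v) (HH v n m) + 1) ∣ Sig p s' (Th v idx' f')) :=
    fun h => hprod (h.trans (map_dvd (Sig (p : ℤ) s') (map_dvd (Th v idx') hfd)))
  have hcfp : ¬ ((C (p : ℤ) : MvPolynomial (Fin (v + v)) ℤ) ^ (n + 1) ∣ C cf) := by
    intro h
    rw [← C_pow] at h
    apply hcont p hp hP4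
    rw [hff]
    exact Dvd.dvd.mul_right (map_dvd C (C_dvd_C h)) _
  have hSf : ¬ ((C (p : ℤ)) ^ (Ex v n m + 1) ∣ Sig p s' (Th v idx' f)) := by
    have h1 : Sig p s' (Th v idx' f) = C cf * Sig p s' (Th v idx' f') := by
      rw [hff, map_mul, map_mul, algHom_C, algebraMap_eq, algHom_C, algebraMap_eq]
    rw [h1]
    exact not_pow_dvd_mul hp hcfp hSf'
  obtain ⟨b, hb, hbf⟩ := exists_second hp hP2 s' (Th v idx' f) hSf
  refine ⟨fun t => s t + p * b t, fun t => ?_, ?_⟩
  · have h1 := hs t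
    have h2 := hb t
    have h3 : p * b t + p ≤ p * p := by
      calc p * b t + p = p * (b t + 1) := by ring
        _ ≤ p * p := Nat.mul_le_mul_left _ h2
    change s t + p * b t < p ^ 2
    rw [sq]
    omega
  · intro h
    apply hbf
    have h1 : eval (fun t => s' t + (p : ℤ) * (b t : ℤ)) (Th v idx' f)
        = eval (fun j => ∑ t : Fin v, ((s (Fin.castAdd v t) + p * b (Fin.castAdd v t) : ℕ) : ℤ) *
          ((s (Fin.natAdd v t) + p * b (Fin.natAdd v t) : ℕ) : ℤ) ^ idx j) f := by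
      have h2 : ((eval (fun t => s' t + (p : ℤ) * (b t : ℤ)) :
          MvPolynomial (Fin (v + v)) ℤ →+* ℤ).comp (Th v idx').toRingHom)
          = eval (fun j => ∑ t : Fin v, ((s (Fin.castAdd v t) + p * b (Fin.castAdd v t) : ℕ) : ℤ) *
          ((s (Fin.natAdd v t) + p * b (Fin.natAdd v t) : ℕ) : ℤ) ^ idx' j) := by
        apply MvPolynomial.ringHom_ext
        · intro z
          simp [Th]
        · intro j
          simp [Th, hs']
      have h3 : eval (fun t => s' t + (p : ℤ) * (b t : ℤ)) (Th v idx' f)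
          = eval (fun j => ∑ t : Fin v, ((s (Fin.castAdd v t) + p * b (Fin.castAdd v t) : ℕ) : ℤ) *
          ((s (Fin.natAdd v t) + p * b (Fin.natAdd v t) : ℕ) : ℤ) ^ idx' j) f := by
        rw [← h2]; rfl
      rw [h3]
      apply eval₂Hom_congr' rfl _ rfl
      intro j hj _
      rw [hidxV j (hV hj)]
    rw [h1]
    exact h

/-- The test rejects all circuits of tame polynomials. -/
theorem test_of_tameI (hv1 : 1 ≤ v) {m : ℕ} (P R : List ℕ) (C : List Gate) (hm : C.length ≤ m)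
    (hP : ∀ p ≤ XX v n m, p ∈ P) (hR : ∀ a < XX v n m ^ 2, a ∈ R)
    (hf : TameI v n (cpoly C)) : test v P R (Ex v n m + 1) C = false := by
  have hΔp := hit2 hv1 hf (cvars C) (vars_cpoly C) (Pool.Agent.H531R2.idx C) (idx_injOn C) m
    (fun j hj => (idx_lt hj).trans_le hm)
  obtain ⟨p, hp, -, hpm, hpX⟩ := prime_choice (PP v n m) (DD v n) 1 one_ne_zero
    Nat.one_le_two_pow
  obtain ⟨a, ha, had⟩ := hΔp p hp hpm
  by_contra h
  rw [Bool.not_eq_false, test, Bool.and_eq_true, List.all_eq_true] at h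
  have hpX' : p ≤ XX v n m := hpX
  have h1 := h.2 (p - 2) (hP _ (by omega))
  rw [List.all_eq_true] at h1
  have hpR : ∀ z < p ^ 2, z ∈ R := fun z hz =>
    hR z (lt_of_lt_of_le hz (Nat.pow_le_pow_left hpX' 2))
  have h2 := h1 (List.ofFn fun t : Fin v => (a (Fin.castAdd v t),
      a (Fin.natAdd v t))) (by
    rw [mem_pts]
    refine ⟨by simp, ?_⟩
    intro z hz
    rw [List.mem_ofFn] at hz
    obtain ⟨t, rfl⟩ := hz
    rw [mem_prs]
    exact ⟨hpR _ (ha _), hpR _ (ha _)⟩)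
  rw [decide_eq_true_eq, nlast_eq_zero_iff] at h2
  apply had
  have h3 : p - 2 + 2 = p := Nat.sub_add_cancel hp.two_le
  have h4 : p ^ (Ex v n m + 1) - 1 + 1 = p ^ (Ex v n m + 1) :=
    Nat.sub_add_cancel (Nat.one_le_pow _ _ hp.pos)
  rw [h3, h4] at h2
  have h5 : (fun j => ∑ t : Fin v, (a (Fin.castAdd v t) : ℤ) *
      (a (Fin.natAdd v t) : ℤ) ^ Pool.Agent.H531R2.idx C j)
      = pt C (List.ofFn fun t : Fin v => (a (Fin.castAdd v t),
        a (Fin.natAdd v t))) := by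
    funext j
    rw [pt_ofFn]
  rw [h5]
  exact_mod_cast h2

/-- The main theorem. -/
theorem main_theoremI {v : ℕ} (hv1 : 1 ≤ v) (c : ℕ) : ∃ A : List Bool → List Bool, PolyTime A ∧
    (∀ x, A x = [true] ∨ A x = [false]) ∧
    (∀ x ∈ ACIT, A x = [true]) ∧
    (∀ x, (∀ C : List Gate, WF C → bits C ≠ x) → A x = [false]) ∧
    ∀ C : List Gate, TameI v ((bits C).length ^ c) (cpoly C) → A (bits C) = [false] := by
  refine ⟨fun x => [alg v c x], polyTime_of_poly (poly_alg v c), ?_, ?_, ?_, ?_⟩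
  · intro x
    cases h : alg v c x
    · right; simp [h]
    · left; simp [h]
  · rintro x ⟨C, rfl, hC, h0⟩
    simp only [alg, unbits_bits, Option.elim]
    rw [test_of_zero v _ _ _ C hC h0]
  · intro x hx
    simp only [alg]
    cases h : unbits (List Gate) x with
    | none => rfl
    | some C =>
      have h1 : ¬ WF C := fun hC => hx C hC (bits_of_unbits h)
      simp only [Option.elim]
      rw [← wfB_iff, Bool.not_eq_true] at h1
      rw [test, h1, Bool.false_and]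
  · intro C hC
    simp only [alg, unbits_bits, Option.elim]
    rw [test_of_tameI hv1 _ _ C (m := (bits C).length) ?_ ?_ ?_ hC]
    · rw [bits_length]
      exact (length_lt_sz C).le
    · intro p hp
      rw [List.mem_range]
      omega
    · intro a ha
      rw [List.mem_range]
      exact ha

end Pool.Agent.H964R3
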