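import Mathlib
import Pool.Agent.H964R3.ClassInj

/-!
# Injectivity of the substitution for integer polynomials
-/

set_option autoImplicit false
set_option linter.unusedSectionVars false

namespace Pool.Agent.H964R3

open MvPolynomial Pool.Agent.H531R2 Pool.Agent.H626R2

/-- Affine substitutions do not increase the degree. -/
theorem totalDegree_aeval_le_one {σ τ : Type} (Y : σ → MvPolynomial τ ℚ)
    (hY : ∀ i, (Y i).totalDegree ≤ 1) (q : MvPolynomial σ ℚ) :
    (aeval Y q).totalDegree ≤ q.totalDegree := by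
  conv_lhs => rw [q.as_sum, map_sum]
  refine (totalDegree_finsetSum _ _).trans (Finset.sup_le fun m hm => ?_)
  rw [aeval_monomial, algebraMap_eq, Finsupp.prod]
  refine (totalDegree_mul _ _).trans ?_
  rw [totalDegree_C, zero_add]
  refine (totalDegree_finsetProd _ _).trans ?_
  refine le_trans (Finset.sum_le_sum fun i _ => ?_) (le_totalDegree hm)
  refine (totalDegree_pow _ _).trans ?_
  exact (Nat.mul_le_mul_left _ (hY i)).trans (by rw [mul_one])

theorem totalDegree_killCompl {σ τ : Type} {f : σ → τ} (hf : Function.Injective f)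
    (q : MvPolynomial τ ℚ) : (killCompl hf q).totalDegree ≤ q.totalDegree := by
  apply totalDegree_aeval_le_one
  intro i
  split_ifs
  · exact (totalDegree_X _).le
  · simp

theorem totalDegree_rename_inj {σ τ : Type} {f : σ → τ} (hf : Function.Injective f)
    (q : MvPolynomial σ ℚ) : (rename f q).totalDegree = q.totalDegree := by
  apply le_antisymm (totalDegree_rename_le _ _)
  have h := totalDegree_killCompl hf (rename f q)
  rwa [killCompl_rename_app] at h

theorem totalDegree_iQ (g : MvPolynomial ℕ ℤ) : (iQ g).totalDegree = g.totalDegree := by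
  rw [totalDegree, totalDegree, iQ, support_map_of_injective _ Int.cast_injective]

theorem Simp.kill {σ τ : Type} {f : σ → τ} (hf : Function.Injective f) {k δ : ℕ}
    {g : MvPolynomial τ ℚ} (hg : Simp k δ g) : Simp k δ (killCompl hf g) := by
  obtain ⟨q, G, hq, rfl⟩ := hg
  refine ⟨fun b => killCompl hf (q b), G, fun b => (totalDegree_killCompl hf _).trans (hq b), ?_⟩
  rw [← AlgHom.comp_apply]
  congr 1
  apply algHom_ext
  intro b
  rw [AlgHom.comp_apply, aeval_X, aeval_X]

theorem isRelPrime_of_rename {σ τ : Type} {f : σ → τ} (hf : Function.Injective f)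
    {g h : MvPolynomial σ ℚ} (hgh : IsRelPrime (rename f g) (rename f h)) : IsRelPrime g h := by
  intro d h1 h2
  have h3 := hgh (map_dvd (rename f) h1) (map_dvd (rename f) h2)
  have h4 := h3.map (killCompl hf)
  rwa [killCompl_rename_app] at h4

theorem Thq_iQ (v : ℕ) (idx : ℕ → ℕ) (f : MvPolynomial ℕ ℤ) :
    Thq v idx (iQ f) = map (Int.castRingHom ℚ) (Th v idx f) := by
  have h : (Thq v idx).toRingHom.comp iQ =
      (map (Int.castRingHom ℚ)).comp (Th v idx).toRingHom := by
    apply MvPolynomial.ringHom_ext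
    · intro z
      simp only [RingHom.comp_apply, AlgHom.toRingHom_eq_coe, RingHom.coe_coe, iQ_C]
      rw [algHom_C, algHom_C, algebraMap_eq, algebraMap_eq, map_C]
      rfl
    · intro i
      simp only [RingHom.comp_apply, AlgHom.toRingHom_eq_coe, RingHom.coe_coe, iQ, map_X]
      rw [Thq, aeval_X, Th, aeval_X, map_sum]
      refine Finset.sum_congr rfl fun t _ => ?_
      rw [map_mul, map_pow, map_X, map_X]
  exact congrArg (fun φ => φ f) h

theorem Thq_sub (v : ℕ) (idx : ℕ → ℕ) (S : Finset ℕ) (f' : MvPolynomial S ℚ)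
    (f : MvPolynomial ℕ ℤ) (h : rename Subtype.val f' = iQ f) :
    Thq v (fun l : S => idx l) f' = map (Int.castRingHom ℚ) (Th v idx f) := by
  rw [← Thq_iQ, ← h, Thq, Thq, aeval_rename]
  rfl

/-- The substitution with `v` points is injective on the span of the power products. -/
def InjG (v : ℕ) {m p : ℕ} (S : Finset ℕ) (g : Fin p → MvPolynomial ℕ ℤ)
    (e : Fin m → Fin p → ℕ) : Prop :=
  ∀ idx : ℕ → ℕ, Set.InjOn idx S → ∀ δ : Fin m → ℤ,
    Th v idx (∑ i, C (δ i) * ∏ j, g j ^ e i j) = 0 → ∑ i, C (δ i) * ∏ j, g j ^ e i j = 0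

/-- The main injectivity theorem for integer polynomials. -/
theorem injG_of {k r m p v : ℕ} (hv : NG k r ≤ v) (S : Finset ℕ)
    (g : Fin p → MvPolynomial ℕ ℤ) (hgS : ∀ j, (g j).vars ⊆ S) (hg0 : ∀ j, g j ≠ 0)
    (hgs : ∀ j, Simp k r (iQ (g j))) (e : Fin m → Fin p → ℕ) (lab : Fin m → ℕ)
    (hgg : (∀ i i', lab i = lab i') ∨ ∀ j j', j ≠ j' → IsRelPrime (iQ (g j)) (iQ (g j')))
    (hfar : ∀ i i', lab i ≠ lab i' →
      (∑ j, (g j).totalDegree) * m ^ 2 < ∑ j, (g j).totalDegree * (e i j - e i' j) ∨
      (∑ j, (g j).totalDegree) * m ^ 2 < ∑ j, (g j).totalDegree * (e i' j - e i j))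
    (hcl : ∀ l, ClassOK k r (fun j => iQ (g j)) (fun j => (g j).totalDegree) e lab l) :
    InjG v S g e ∧ ∀ idx : ℕ → ℕ, Set.InjOn idx S → ∀ j, Th v idx (g j) ≠ 0 := by
  classical
  have hval : Function.Injective (Subtype.val : S → ℕ) := Subtype.val_injective
  have hex : ∀ j, ∃ f : MvPolynomial S ℚ, rename Subtype.val f = iQ (g j) := by
    intro j
    apply exists_rename_eq_of_vars_subset_range _ _ hval
    intro i hi
    rw [Subtype.range_coe_subtype]
    have h1 : i ∈ (g j).vars := vars_map (g j) (Int.castRingHom ℚ) hi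
    exact hgS j h1
  choose g' hg' using hex
  have hkill : ∀ j, g' j = killCompl hval (iQ (g j)) := by
    intro j
    rw [← hg', killCompl_rename_app]
  have hrinj : Function.Injective (rename (Subtype.val : S → ℕ) :
      MvPolynomial S ℚ →ₐ[ℚ] MvPolynomial ℕ ℚ) := rename_injective _ hval
  have hg'0 : ∀ j, g' j ≠ 0 := by
    intro j h0
    apply hg0 j
    apply iQ_inj
    rw [← hg', h0, map_zero, map_zero]
  have hg's : ∀ j, Simp k r (g' j) := by
    intro j
    rw [hkill]
    exact (hgs j).kill hval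
  have hdeg : ∀ j, (g' j).totalDegree = (g j).totalDegree := by
    intro j
    rw [← totalDegree_iQ, ← hg', totalDegree_rename_inj hval]
  have hgg' : (∀ i i', lab i = lab i') ∨ ∀ j j', j ≠ j' → IsRelPrime (g' j) (g' j') := by
    rcases hgg with h | h
    · exact Or.inl h
    · refine Or.inr fun j j' hjj => isRelPrime_of_rename hval ?_
      rw [hg', hg']
      exact h j j' hjj
  have hcl' : ∀ l, ClassOK k r g' (fun j => (g' j).totalDegree) e lab l := by
    intro l
    rcases hcl l with ⟨h1, h2⟩ | ⟨w, hw, h⟩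
    · refine Or.inl ⟨fun j j' hjj => isRelPrime_of_rename hval ?_, h2⟩
      rw [hg', hg']
      exact h1 j j' hjj
    refine Or.inr ⟨w, hw, ?_⟩
    rcases h with h | h | ⟨h1, h⟩
    · left
      simp only [hdeg]
      exact h
    · right
      left
      intro u hu hind
      apply h u hu
      have h1 := hind.map' hrinj
      convert! h1 using 1
      funext b
      exact (hg' (u b)).symm
    · right
      right
      refine ⟨fun i j hi hij => by simp only [hdeg]; exact h1 i j hi hij, ?_⟩
      rcases h with h | h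
      · left
        intro u hu hind
        apply h u hu
        have h1 := hind.map' hrinj
        convert! h1 using 1
        funext b
        simp only [Function.comp_apply, map_prod, map_pow, hg']
      · right
        exact h
  have hinjS : ∀ idx : ℕ → ℕ, Set.InjOn idx S → Function.Injective (fun l : S => idx l) :=
    fun idx hidx x y hxy => Subtype.ext (hidx x.2 y.2 hxy)
  constructor
  · intro idx hidx δ h
    have hr : ∀ δ' : Fin m → ℤ, rename (Subtype.val : S → ℕ)
        (∑ i, C (δ' i : ℚ) * ∏ j, g' j ^ e i j) =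
        iQ (∑ i, C (δ' i) * ∏ j, g j ^ e i j) := by
      intro δ'
      rw [map_sum, map_sum]
      refine Finset.sum_congr rfl fun i _ => ?_
      rw [map_mul, map_mul, map_prod, map_prod, rename_C, iQ_C]
      congr 1
      refine Finset.prod_congr rfl fun j _ => ?_
      rw [map_pow, map_pow, hg']
    have h1 := inj_gen hv (hinjS idx hidx) g' hg'0 hg's e lab hgg' (by
      simp only [hdeg]
      exact hfar) hcl' (fun i => (δ i : ℚ)) (by
        rw [Thq_sub v idx S _ _ (hr δ), h, map_zero])
    apply iQ_inj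
    rw [← hr, h1, map_zero, map_zero]
  · intro idx hidx j h0
    refine Thq_simp_ne hv (hinjS idx hidx) (hg'0 j) (hg's j) ?_
    rw [Thq_sub v idx S _ _ (hg' j), h0, map_zero]

/-- Padding. -/
theorem InjG.pad {v m p n : ℕ} {S : Finset ℕ} {g : Fin p → MvPolynomial ℕ ℤ}
    {e : Fin m → Fin p → ℕ} (hI : InjG v S g e) (ι : Fin n → Fin m)
    {g' : Fin n → MvPolynomial ℕ ℤ} {e' : Fin n → Fin n → ℕ}
    (hprod : ∀ i, ∏ j, g' j ^ e' i j = ∏ j, g j ^ e (ι i) j) :
    InjG v S g' e' := by
  classical
  intro idx hidx δ h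
  have hsum : ∑ i, C (δ i) * ∏ j, g' j ^ e' i j =
      ∑ i', C (∑ i ∈ Finset.univ.filter (fun i => ι i = i'), δ i) *
        ∏ j, g j ^ e i' j := by
    rw [← Finset.sum_fiberwise (s := Finset.univ) (g := ι)]
    refine Finset.sum_congr rfl fun i' _ => ?_
    rw [map_sum, Finset.sum_mul]
    refine Finset.sum_congr rfl fun i hi => ?_
    rw [hprod, (Finset.mem_filter.1 hi).2]
  rw [hsum] at h ⊢
  exact hI idx hidx _ h

end Pool.Agent.H964R3
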