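import Mathlib
import Pool.Agent.H964R3.GInj
import Pool.Agent.H626R2.PCore
import Pool.Agent.H531R2.Final

/-!
# The hitting set theorem for general bases
-/

set_option autoImplicit false

namespace Pool.Agent.H964R3

open MvPolynomial Pool.Agent.H531R2 Pool.Agent.H626R2 Pool.Agent.NPC

variable {v n : ℕ}

theorem Th_eq_sum (idx : ℕ → ℕ) (g : MvPolynomial ℕ ℤ) :
    Th v idx g = ∑ m ∈ g.support, C (coeff m g) * ∏ i ∈ m.support, (Th v idx (X i)) ^ m i := by
  conv_lhs => rw [g.as_sum, map_sum]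
  refine Finset.sum_congr rfl fun m _ => ?_
  rw [Th, aeval_monomial, algebraMap_eq, Finsupp.prod]
  congr 1
  refine Finset.prod_congr rfl fun i _ => ?_
  rw [aeval_X]

theorem totalDegree_Th_X (idx : ℕ → ℕ) (i : ℕ) :
    (Th v idx (X i)).totalDegree ≤ idx i + 1 := by
  rw [Th, aeval_X]
  apply totalDegree_sum_le
  intro t _
  refine (totalDegree_mul _ _).trans ?_
  have h1 : (X (Fin.natAdd v t) ^ idx i : MvPolynomial (Fin (v + v)) ℤ).totalDegree ≤ idx i := by
    refine (totalDegree_pow _ _).trans ?_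
    rw [totalDegree_X, mul_one]
  rw [totalDegree_X]
  omega

theorem nrm_Th_X (idx : ℕ → ℕ) (i : ℕ) : nrm (Th v idx (X i)) ≤ v := by
  rw [Th, aeval_X]
  refine (nrm_sum _ _).trans ?_
  refine (Finset.sum_le_card_nsmul Finset.univ _ 1 fun t _ => ?_).trans (by simp)
  refine (nrm_mul _ _).trans ?_
  have h1 := nrm_X_le (Fin.castAdd v t)
  have h2 := nrm_pow_le (X (Fin.natAdd v t) : MvPolynomial (Fin (v + v)) ℤ)
    (nrm_X_le (Fin.natAdd v t)) (idx i)
  rw [one_pow] at h2
  exact (Nat.mul_le_mul h1 h2).trans (by norm_num)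

theorem totalDegree_Th_le (idx : ℕ → ℕ) {S : Finset ℕ} {g : MvPolynomial ℕ ℤ} (hg : g.vars ⊆ S)
    {M : ℕ} (hlt : ∀ i ∈ S, idx i < M) : (Th v idx g).totalDegree ≤ g.totalDegree * M := by
  rw [Th_eq_sum]
  apply totalDegree_sum_le
  intro m hm
  refine (totalDegree_C_mul_le _ _).trans ?_
  refine (totalDegree_finsetProd _ _).trans ?_
  calc ∑ i ∈ m.support, (Th v idx (X i) ^ m i).totalDegree ≤ ∑ i ∈ m.support, m i * M := by
        refine Finset.sum_le_sum fun i hi => (totalDegree_pow _ _).trans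
          (Nat.mul_le_mul_left _ ((totalDegree_Th_X idx i).trans ?_))
        have h1 : i ∈ g.vars := by
          rw [mem_vars_iff_mem_support]
          exact ⟨m, hm, hi⟩
        exact hlt i (hg h1)
    _ = (m.sum fun _ e => e) * M := by rw [← Finset.sum_mul]; rfl
    _ ≤ g.totalDegree * M := Nat.mul_le_mul_right _ (le_totalDegree hm)

theorem nrm_Th_le (hv : 1 ≤ v) (idx : ℕ → ℕ) (g : MvPolynomial ℕ ℤ) :
    nrm (Th v idx g) ≤ nrm g * v ^ g.totalDegree := by
  classical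
  rw [Th_eq_sum]
  refine (nrm_sum _ _).trans ?_
  rw [nrm, Finset.sum_mul]
  refine Finset.sum_le_sum fun m hm => ?_
  refine (nrm_mul _ _).trans (Nat.mul_le_mul (nrm_C _) ?_)
  have h1 : ∀ s : Finset ℕ, nrm (∏ i ∈ s, Th v idx (X i) ^ m i) ≤ ∏ i ∈ s, v ^ m i := by
    intro s
    induction s using Finset.induction_on with
    | empty => simpa using nrm_one
    | insert a s ha ih =>
      rw [Finset.prod_insert ha, Finset.prod_insert ha]
      exact (nrm_mul _ _).trans (Nat.mul_le_mul (nrm_pow_le _ (nrm_Th_X idx a) _) ih)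
  refine (h1 _).trans ?_
  rw [Finset.prod_pow_eq_pow_sum]
  exact Nat.pow_le_pow_right hv (le_totalDegree hm)

/-- Rational combinations of power products such that the substitution is injective on their
span. -/
def FewJ (v n : ℕ) (F : MvPolynomial ℕ ℚ) : Prop :=
  ∃ (S : Finset ℕ) (g : Fin n → MvPolynomial ℕ ℤ) (e : Fin n → Fin n → ℕ) (c : Fin n → ℚ),
    S.card ≤ n ∧ (∀ j, (g j).vars ⊆ S ∧ (g j).totalDegree ≤ n ∧ nrm (g j) ≤ 2 ^ n) ∧
    (∀ idx : ℕ → ℕ, Set.InjOn idx S → ∀ j, Th v idx (g j) ≠ 0) ∧ (∀ i j, e i j ≤ 2 ^ n) ∧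
    InjG v S g e ∧ F = ∑ i, C (c i) * ∏ j, iQ (g j) ^ e i j

/-- Divisors of products of such polynomials. -/
def TameJ (v n : ℕ) (f : MvPolynomial ℕ ℤ) : Prop :=
  (∃ Q : Finset ℕ, Q.card ≤ n ∧
    ∀ p : ℕ, p.Prime → n < p → p ∉ Q → ¬ (C ((p : ℤ) ^ (n + 1)) ∣ f)) ∧
    ∃ F : Fin n → MvPolynomial ℕ ℚ, (∀ a, F a ≠ 0 ∧ FewJ v n (F a)) ∧
      map (Int.castRingHom ℚ) f ∣ ∏ a, F a

/-- Integer form. -/
theorem FewJ.reduce {F : MvPolynomial ℕ ℚ} (hF0 : F ≠ 0) (hF : FewJ v n F) :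
    ∃ (S : Finset ℕ) (g : Fin n → MvPolynomial ℕ ℤ) (e : Fin n → Fin n → ℕ)
      (c : Fin n → ℤ) (K κ : ℤ) (F' : MvPolynomial ℕ ℤ),
      S.card ≤ n ∧ (∀ j, (g j).vars ⊆ S ∧ (g j).totalDegree ≤ n ∧ nrm (g j) ≤ 2 ^ n) ∧
      (∀ idx : ℕ → ℕ, Set.InjOn idx S → ∀ j, Th v idx (g j) ≠ 0) ∧ (∀ i j, e i j ≤ 2 ^ n) ∧
      InjG v S g e ∧
      K ≠ 0 ∧ κ ≠ 0 ∧ Prim F' ∧ C κ * F' = ∑ i, C (c i) * ∏ j, g j ^ e i j ∧
      C (K : ℚ) * F = iQ (C κ * F') := by
  classical
  obtain ⟨S, g, e, c, hS, hg, hne, he, hcl, rfl⟩ := hF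
  have hex : ∀ i, ∃ z : ℤ, (z : ℚ) = ((∏ i, (c i).den : ℕ) : ℚ) * c i := by
    intro i
    refine ⟨((∏ i' ∈ Finset.univ.erase i, (c i').den : ℕ) : ℤ) * (c i).num, ?_⟩
    rw [← Finset.mul_prod_erase Finset.univ (fun i => (c i).den) (Finset.mem_univ i)]
    push_cast
    have h1 : ((c i).den : ℚ) * c i = (c i).num := by
      rw [mul_comm]; exact Rat.mul_den_eq_num (c i)
    rw [← h1]
    ring
  choose z hz using hex
  set K : ℕ := ∏ i, (c i).den with hK
  have hK0 : (K : ℤ) ≠ 0 := by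
    have : K ≠ 0 := Finset.prod_ne_zero_iff.2 fun i _ => (c i).den_nz
    exact_mod_cast this
  set F0 : MvPolynomial ℕ ℤ := ∑ i, C (z i) * ∏ j, g j ^ e i j with hF0def
  have hrel : C ((K : ℤ) : ℚ) * (∑ i, C (c i) * ∏ j, iQ (g j) ^ e i j) = iQ F0 := by
    rw [hF0def, map_sum, Finset.mul_sum]
    refine Finset.sum_congr rfl fun i _ => ?_
    rw [← mul_assoc, ← C_mul, map_mul iQ (C (z i)), iQ_C, hz i, map_prod]
    congr 1
    refine Finset.prod_congr rfl fun j _ => ?_
    rw [map_pow]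
  have hF00 : F0 ≠ 0 := by
    intro h0
    rw [h0, map_zero] at hrel
    rcases mul_eq_zero.1 hrel with h | h
    · rw [C_eq_zero] at h
      exact hK0 (by exact_mod_cast h)
    · exact hF0 h
  obtain ⟨κ', F', hκ', hkF, hF'⟩ := exists_prim_part hF00
  exact ⟨S, g, e, z, K, κ', F', hS, hg, hne, he, hcl, hK0, hκ', hF', by rw [← hkF],
    by rw [hrel, hkF]⟩

/-- Tame polynomials in integer form. -/
theorem TameJ.reduce {f : MvPolynomial ℕ ℤ} (hf : TameJ v n f) :
    ∃ (cf : ℤ) (f' : MvPolynomial ℕ ℤ) (S : Fin n → Finset ℕ)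
      (g : Fin n → Fin n → MvPolynomial ℕ ℤ) (e : Fin n → Fin n → Fin n → ℕ)
      (c : Fin n → Fin n → ℤ) (κ : Fin n → ℤ) (F' : Fin n → MvPolynomial ℕ ℤ),
      f = C cf * f' ∧ cf ≠ 0 ∧
      (∀ α, (S α).card ≤ n ∧
        (∀ j, (g α j).vars ⊆ S α ∧ (g α j).totalDegree ≤ n ∧ nrm (g α j) ≤ 2 ^ n) ∧
        (∀ idx : ℕ → ℕ, Set.InjOn idx (S α) → ∀ j, Th v idx (g α j) ≠ 0) ∧
        (∀ i j, e α i j ≤ 2 ^ n) ∧
        InjG v (S α) (g α) (e α) ∧
        κ α ≠ 0 ∧ Prim (F' α) ∧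
        C (κ α) * F' α = ∑ i, C (c α i) * ∏ j, g α j ^ e α i j) ∧
      f' ∣ ∏ α, F' α := by
  classical
  obtain ⟨⟨Q, hQ, hcont⟩, F, hF, hfd⟩ := hf
  have hf0 : f ≠ 0 := by
    rintro rfl
    obtain ⟨p, hp1, hp2⟩ := Nat.exists_infinite_primes (n + 1 + (Q.sup id + 1))
    refine hcont p hp2 (by omega) (fun hpQ => ?_) (dvd_zero _)
    have h1 : p ≤ Q.sup id := Finset.le_sup (f := id) hpQ
    omega
  have hred := fun α => (hF α).2.reduce (hF α).1
  choose S g e c K κ F' hS hg hne he htr hK hκ hF' hrel hFe using hred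
  obtain ⟨cf, f', hcf, hff, hf'⟩ := exists_prim_part hf0
  refine ⟨cf, f', S, g, e, c, κ, F', hff, hcf, fun α => ⟨hS α, hg α, hne α, he α,
    htr α, hκ α, hF' α, hrel α⟩, ?_⟩
  set P := ∏ α, F' α with hP
  have h1 : iQ f ∣ iQ (C (∏ α, κ α) * P) := by
    have h2 : iQ (C (∏ α, κ α) * P) = (∏ α, C (K α : ℚ)) * ∏ α, F α := by
      rw [← Finset.prod_mul_distrib, hP, map_prod, ← Finset.prod_mul_distrib, map_prod]
      exact Finset.prod_congr rfl fun α _ => (hFe α).symm
    rw [h2]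
    exact Dvd.dvd.mul_left hfd _
  obtain ⟨q, hq⟩ := h1
  obtain ⟨J, q', hJ, hq'⟩ := clear_den q
  have h3 : f * q' = C (J * ∏ α, κ α) * P := by
    apply iQ_inj
    rw [map_mul, ← hq', C_mul, mul_assoc, map_mul, hq, iQ_C]
    ring
  have hk0 : J * ∏ α, κ α ≠ 0 := mul_ne_zero hJ (Finset.prod_ne_zero_iff.2 fun α _ => hκ α)
  have h4 : (C (J * ∏ α, κ α) : MvPolynomial ℕ ℤ) ∣ C cf * q' := by
    apply hf'.C_dvd hk0
    refine ⟨P, ?_⟩
    rw [← h3, hff]
    ring
  obtain ⟨q'', hq''⟩ := h4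
  refine ⟨q'', ?_⟩
  have hC : (C (J * ∏ α, κ α) : MvPolynomial ℕ ℤ) ≠ 0 := by
    rw [Ne, C_eq_zero]; exact hk0
  apply mul_left_cancel₀ hC
  rw [← h3, hff]
  linear_combination f' * hq''

/-- The logarithm of a bound for the product of the bad primes. -/
def DJ (v n m : ℕ) : ℕ := n * n * HH v n m

/-- The hitting set theorem. -/
theorem hitJ (hv1 : 1 ≤ v) {f : MvPolynomial ℕ ℤ} (hf : TameJ v n f) (V : Finset ℕ)
    (hV : f.vars ⊆ V) (idx : ℕ → ℕ) (hidx : Set.InjOn idx V) (m : ℕ)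
    (hlt : ∀ j ∈ V, idx j < m) :
    ∃ (Δ : ℕ) (Q : Finset ℕ), Δ ≠ 0 ∧ Δ ≤ 2 ^ DJ v n m ∧ Q.card ≤ n ∧
      ∀ p : ℕ, p.Prime → ¬ (p ∣ Δ) → p ∉ Q → PP v n m ≤ p →
      ∃ a : Fin (v + v) → ℕ, (∀ t, a t < p ^ 2) ∧
        ¬ ((p : ℤ) ^ (Ex v n m + 1) ∣
        eval (fun j => ∑ t : Fin v, (a (Fin.castAdd v t) : ℤ) *
          (a (Fin.natAdd v t) : ℤ) ^ idx j) f) := by
  classical
  obtain ⟨Q, hQ, hcont⟩ := hf.1
  obtain ⟨cf, f', S, g, e, c, κ, F', hff, hcf, hall, hfd⟩ := hf.reduce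
  have hS := fun α => (hall α).1
  have hg := fun α => (hall α).2.1
  have hne := fun α => (hall α).2.2.1
  have he := fun α => (hall α).2.2.2.1
  have htr := fun α => (hall α).2.2.2.2.1
  have hκ := fun α => (hall α).2.2.2.2.2.1
  have hF' := fun α => (hall α).2.2.2.2.2.2.1
  have hrel := fun α => (hall α).2.2.2.2.2.2.2
  -- numbering
  let W : Finset ℕ := Finset.univ.biUnion S
  have hW : W.card ≤ n * (v + n) := by
    refine Finset.card_biUnion_le.trans ?_
    refine (Finset.sum_le_card_nsmul Finset.univ _ (v + n) fun α _ =>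
      (hS α).trans (Nat.le_add_left _ _)).trans ?_
    simp
  obtain ⟨idx', hidxV, hidx', hlt'⟩ := exists_numbering V W idx hidx m hlt
  have hSW : ∀ α, ∀ j ∈ S α, j ∈ V ∪ W := by
    intro α j hj
    rw [Finset.mem_union]
    right
    rw [Finset.mem_biUnion]
    exact ⟨α, Finset.mem_univ _, hj⟩
  have hltm : ∀ α, ∀ j ∈ S α, idx' j < mm v n m := by
    intro α j hj
    have := hlt' _ (hSW α j hj)
    rw [mm]
    omega
  have hidxS : ∀ α, Set.InjOn idx' (S α) := fun α j hj j' hj' h =>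
    hidx' (hSW α j hj) (hSW α j' hj') h
  -- the bases after the substitution
  have hG : ∀ α j, ∃ (k : ℤ) (D' : MvPolynomial (Fin (v + v)) ℤ), k ≠ 0 ∧
      k.natAbs ≤ 2 ^ HH v n m ∧
      Th v idx' (g α j) = C k * D' ∧ Prim D' ∧
      D'.totalDegree ≤ HH v n m ∧ nrm D' ≤ 2 ^ HH v n m := by
    intro α j
    have hn0 : 0 < n := Fin.pos j
    have hd : (Th v idx' (g α j)).totalDegree ≤ HH v n m := by
      refine (totalDegree_Th_le idx' (hg α j).1 (hltm α)).trans ?_
      refine (Nat.mul_le_mul_right _ (hg α j).2.1).trans ?_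
      rw [HH]
      apply Nat.mul_le_mul_left
      omega
    have hnn : nrm (Th v idx' (g α j)) ≤ 2 ^ HH v n m := by
      refine (nrm_Th_le hv1 idx' _).trans ?_
      calc nrm (g α j) * v ^ (g α j).totalDegree ≤ 2 ^ n * (2 ^ v) ^ n := by
            refine Nat.mul_le_mul (hg α j).2.2 ?_
            exact (Nat.pow_le_pow_left Nat.lt_two_pow_self.le _).trans
              (Nat.pow_le_pow_right Nat.one_le_two_pow (hg α j).2.1)
        _ = 2 ^ (n * (v + 1)) := by rw [← pow_mul, ← pow_add]; congr 1; ring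
        _ ≤ 2 ^ HH v n m := by
            apply Nat.pow_le_pow_right (by norm_num)
            rw [HH]
            apply Nat.mul_le_mul_left
            omega
    have h0 := hne α idx' (hidxS α) j
    obtain ⟨k, D', hk, hkD, hD'⟩ := exists_prim_part h0
    refine ⟨k, D', hk, (natAbs_le_nrm h0 ⟨D', hkD⟩).trans hnn, hkD, hD', ?_, ?_⟩
    · refine (natDegree_C_mul hk D').trans ?_
      rw [← hkD]; exact hd
    · refine le_trans ?_ hnn
      rw [hkD, nrm, nrm]
      have hs : D'.support ⊆ (C k * D').support := by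
        intro m hm
        rw [mem_support_iff] at hm ⊢
        rw [coeff_C_mul]
        exact mul_ne_zero hk hm
      refine le_trans ?_ (Finset.sum_le_sum_of_subset hs)
      refine Finset.sum_le_sum fun m _ => ?_
      rw [coeff_C_mul, Int.natAbs_mul]
      exact Nat.le_mul_of_pos_left _ (Int.natAbs_pos.2 hk)
  choose κκ G' hκκ0 hκκle hκκ hG' hG'd hG'n using hG
  set Δ : ℕ := ∏ α, ∏ j, (κκ α j).natAbs with hΔ
  have hΔ0 : Δ ≠ 0 := Finset.prod_ne_zero_iff.2 fun α _ =>
    Finset.prod_ne_zero_iff.2 fun j _ => Int.natAbs_ne_zero.2 (hκκ0 α j)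
  have hΔle : Δ ≤ 2 ^ DJ v n m := by
    have h1 : ∀ α ∈ (Finset.univ : Finset (Fin n)), ∏ j, (κκ α j).natAbs ≤
        (2 ^ HH v n m) ^ n := by
      intro α _
      refine (Finset.prod_le_pow_card _ _ _ fun j _ => hκκle α j).trans ?_
      rw [Finset.card_univ, Fintype.card_fin]
    refine (Finset.prod_le_pow_card _ _ _ h1).trans ?_
    rw [Finset.card_univ, Fintype.card_fin, ← pow_mul, ← pow_mul, DJ]
    apply Nat.pow_le_pow_right (by norm_num)
    apply le_of_eq
    ring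
  refine ⟨Δ, Q, hΔ0, hΔle, hQ, fun p hp hpΔ hpQ hpP => ?_⟩
  have hpi : Prime (p : ℤ) := Nat.prime_iff_prime_int.1 hp
  have hpκ : ∀ α j, ¬ ((p : ℤ) ∣ κκ α j) := by
    intro α j h
    apply hpΔ
    rw [hΔ]
    refine dvd_trans ?_ (Finset.dvd_prod_of_mem _ (Finset.mem_univ α))
    refine dvd_trans ?_ (Finset.dvd_prod_of_mem _ (Finset.mem_univ j))
    have := Int.natAbs_dvd_natAbs.2 h
    rwa [Int.natAbs_natCast] at this
  have hP2 : Ex v n m < p := by rw [PP] at hpP; omega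
  have hP3 : n * n * HH v n m < p := by rw [PP] at hpP; omega
  have hP4 : n < p := by rw [PP] at hpP; omega
  -- the first half of the point
  have hPr : Prim (∏ α, ∏ j, G' α j) := Prim.prod _ _ fun α _ => Prim.prod _ _ fun j _ => hG' α j
  have hPd : (∏ α, ∏ j, G' α j).totalDegree ≤ n * n * HH v n m := by
    have h1 := totalDegree_prod_le Finset.univ (fun α => ∏ j, G' α j) (n * HH v n m) (fun α _ => by
      have h2 := totalDegree_prod_le Finset.univ (G' α) (HH v n m) (fun j _ => hG'd α j)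
      rwa [Finset.card_univ, Fintype.card_fin] at h2)
    rw [Finset.card_univ, Fintype.card_fin] at h1
    rw [mul_assoc]
    exact h1
  obtain ⟨s, hs, hsP⟩ := exists_point hp (hPr p hp) (d := n * n * HH v n m) (fun m' hm' => by
    have h0 : coeff m' (∏ α, ∏ j, G' α j) = 0 := by
      by_contra hne
      exact absurd (degree_le_totalDegree hne) (not_le.2 (lt_of_le_of_lt hPd hm'))
    rw [h0]
    exact dvd_zero _) hP3
  have hsg : ∀ α j, ¬ ((p : ℤ) ∣ eval (fun t => (s t : ℤ)) (G' α j)) := by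
    intro α j h
    apply hsP
    rw [map_prod]
    refine h.trans ?_
    refine dvd_trans ?_ (Finset.dvd_prod_of_mem _ (Finset.mem_univ α))
    rw [map_prod]
    exact Finset.dvd_prod_of_mem _ (Finset.mem_univ j)
  set s' : Fin (v + v) → ℤ := fun t => (s t : ℤ) with hs'
  -- each factor
  have hn1 : n ≤ HH v n m := by
    rw [HH]
    exact Nat.le_mul_of_pos_right n (by omega)
  set Kc : Fin n → Fin n → ℤ := fun α i => ∏ j, κκ α j ^ e α i j with hKc
  have hKc0 : ∀ α i, Kc α i ≠ 0 := fun α i =>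
    Finset.prod_ne_zero_iff.2 fun j _ => pow_ne_zero _ (hκκ0 α j)
  have hpKc : ∀ α i, ¬ ((p : ℤ) ∣ Kc α i) := by
    intro α i h
    obtain ⟨j, _, hj⟩ := (hpi.dvd_finsetProd_iff _).1 h
    exact hpκ α j (hpi.dvd_of_dvd_pow hj)
  have hTprod : ∀ α i, Th v idx' (∏ j, g α j ^ e α i j)
      = C (Kc α i) * ∏ j, G' α j ^ e α i j := by
    intro α i
    rw [map_prod, hKc]
    simp only
    rw [map_prod, ← Finset.prod_mul_distrib]
    refine Finset.prod_congr rfl fun j _ => ?_
    rw [map_pow, hκκ, mul_pow, C_pow]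
  have hThC : ∀ z : ℤ, Th v idx' (C z) = C z := by
    intro z
    rw [algHom_C, algebraMap_eq]
  have hFa : ∀ α, ¬ ((C (p : ℤ)) ^ (E1 (v + v) (HH v n m) + 1) ∣ Sig p s' (Th v idx' (F' α))) := by
    intro α
    -- injectivity
    have hinj : ∀ δ : Fin n → ℤ, Th v idx' (∑ i, C (δ i) * ∏ j, g α j ^ e α i j) = 0 →
        ∑ i, C (δ i) * ∏ j, g α j ^ e α i j = 0 := fun δ hδ =>
      htr α idx' (hidxS α) δ hδ
    have hCκ : (C (κ α) : MvPolynomial ℕ ℤ) ≠ 0 := by rw [Ne, C_eq_zero]; exact hκ α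
    have hrelT : C (κ α) * Th v idx' (F' α) =
        ∑ i, C (c α i * Kc α i) * ∏ j, G' α j ^ e α i j := by
      have h3 := congrArg (Th v idx') (hrel α)
      rw [map_mul, hThC, map_sum] at h3
      rw [h3]
      refine Finset.sum_congr rfl fun i _ => ?_
      rw [map_mul, hTprod, hThC, C_mul, mul_assoc]
    refine core2 hp hn1 s' (G' α) (e α) (fun i => c α i * Kc α i)
      (fun j => ⟨hG' α j, hG'd α j, hG'n α j⟩)
      (fun i j => (he α i j).trans (Nat.pow_le_pow_right (by norm_num) hn1)) _ ?_ ?_ (κ α) (hκ α)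
      hrelT (hsg α)
    · intro h0
      have h1 : Th v idx' (C (κ α) * F' α) = 0 := by rw [map_mul, h0, mul_zero]
      rw [hrel α] at h1
      have h2 := hinj _ h1
      rw [← hrel α] at h2
      rcases mul_eq_zero.1 h2 with h | h
      · exact hCκ h
      · exact (hF' α).ne_zero h
    · intro l γ β hl hγ
      set KK : ℤ := ∏ i, Kc α i with hKK
      set Pi : Fin n → ℤ := fun i => ∏ i' ∈ Finset.univ.erase i, Kc α i' with hPi
      have hPiK : ∀ i, Pi i * Kc α i = KK := by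
        intro i
        rw [hPi, hKK, mul_comm]
        exact Finset.mul_prod_erase Finset.univ (fun i => Kc α i) (Finset.mem_univ i)
      have h1 : Th v idx' (∑ i, C (KK * l * c α i - κ α * (γ i * Pi i)) *
          ∏ j, g α j ^ e α i j) = 0 := by
        have h2 : ∀ i, Th v idx' (C (KK * l * c α i - κ α * (γ i * Pi i)) *
            ∏ j, g α j ^ e α i j)
            = C KK * (C l * (C (c α i * Kc α i) * ∏ j, G' α j ^ e α i j)) -
              C KK * (C (κ α) * (C (γ i) * ∏ j, G' α j ^ e α i j)) := by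
          intro i
          rw [map_mul, hTprod, hThC, ← hPiK i]
          simp only [C_sub, C_mul]
          ring
        rw [map_sum, Finset.sum_congr rfl fun i _ => h2 i, Finset.sum_sub_distrib,
          ← Finset.mul_sum, ← Finset.mul_sum, ← Finset.mul_sum, ← Finset.mul_sum, ← hl, ← hrelT]
        ring
      have h5 := hinj _ h1
      have h6 : C (KK * l) * F' α = ∑ i, C (γ i * Pi i) * ∏ j, g α j ^ e α i j := by
        apply mul_left_cancel₀ hCκ
        have h7 : C (κ α) * (C (KK * l) * F' α) - C (κ α) *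
            ∑ i, C (γ i * Pi i) * ∏ j, g α j ^ e α i j
            = ∑ i, C (KK * l * c α i - κ α * (γ i * Pi i)) *
              ∏ j, g α j ^ e α i j := by
          have h8 : C (κ α) * (C (KK * l) * F' α) = C (KK * l) * (C (κ α) * F' α) := by ring
          rw [h8, hrel α, Finset.mul_sum, Finset.mul_sum, ← Finset.sum_sub_distrib]
          refine Finset.sum_congr rfl fun i _ => ?_
          simp only [C_sub, C_mul]
          ring
        rw [h5] at h7
        exact sub_eq_zero.1 h7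
      have h7 : (C ((p : ℤ) ^ β) : MvPolynomial ℕ ℤ) ∣ F' α * C (KK * l) := by
        rw [mul_comm, h6]
        exact Finset.dvd_sum fun i _ => Dvd.dvd.mul_right
          (map_dvd C ((hγ i).mul_right _)) _
      have h8 := (hF' α).C_dvd (pow_ne_zero _ (by exact_mod_cast hp.ne_zero)) h7
      rw [C_dvd_iff_dvd_coeff] at h8
      have h9 := h8 0
      rw [coeff_zero_C] at h9
      have hcop : IsCoprime ((p : ℤ) ^ β) KK := by
        apply IsCoprime.pow_left
        refine (hpi.coprime_iff_not_dvd).2 fun h => ?_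
        obtain ⟨i, _, hi⟩ := (hpi.dvd_finsetProd_iff _).1 h
        exact hpKc α i hi
      exact hcop.dvd_of_dvd_mul_left h9
  have hprod := not_pow_dvd_prod hp Finset.univ
    (fun α => Sig p s' (Th v idx' (F' α))) (E1 (v + v) (HH v n m))
    (fun α _ => hFa α)
  rw [Finset.card_univ, Fintype.card_fin, ← map_prod, ← map_prod] at hprod
  have hSf' : ¬ ((C (p : ℤ)) ^ (n * E1 (v + v) (HH v n m) + 1) ∣ Sig p s' (Th v idx' f')) :=
    fun h => hprod (h.trans (map_dvd (Sig (p : ℤ) s') (map_dvd (Th v idx') hfd)))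
  have hcfp : ¬ ((C (p : ℤ) : MvPolynomial (Fin (v + v)) ℤ) ^ (n + 1) ∣ C cf) := by
    intro h
    rw [← C_pow] at h
    apply hcont p hp hP4 hpQ
    rw [hff]
    exact Dvd.dvd.mul_right (map_dvd C (C_dvd_C h)) _
  have hSf : ¬ ((C (p : ℤ)) ^ (Ex v n m + 1) ∣ Sig p s' (Th v idx' f)) := by
    have h1 : Sig p s' (Th v idx' f) = C cf * Sig p s' (Th v idx' f') := by
      rw [hff, map_mul, map_mul, algHom_C, algebraMap_eq, algHom_C, algebraMap_eq]
    rw [h1]
    exact not_pow_dvd_mul hp hcfp hSf'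
  obtain ⟨b, hb, hbf⟩ := exists_second hp hP2 s' (Th v idx' f) hSf
  refine ⟨fun t => s t + p * b t, fun t => ?_, ?_⟩
  · have h1 := hs t
    have h2 := hb t
    have h3 : p * b t + p ≤ p * p := by
      calc p * b t + p = p * (b t + 1) := by ring
        _ ≤ p * p := Nat.mul_le_mul_left _ h2
    change s t + p * b t < p ^ 2
    rw [sq]
    omega
  · intro h
    apply hbf
    have h1 : eval (fun t => s' t + (p : ℤ) * (b t : ℤ)) (Th v idx' f)
        = eval (fun j => ∑ t : Fin v, ((s (Fin.castAdd v t) + p * b (Fin.castAdd v t) : ℕ) : ℤ) *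
          ((s (Fin.natAdd v t) + p * b (Fin.natAdd v t) : ℕ) : ℤ) ^ idx j) f := by
      have h2 : ((eval (fun t => s' t + (p : ℤ) * (b t : ℤ)) :
          MvPolynomial (Fin (v + v)) ℤ →+* ℤ).comp (Th v idx').toRingHom)
          = eval (fun j => ∑ t : Fin v, ((s (Fin.castAdd v t) + p * b (Fin.castAdd v t) : ℕ) : ℤ) *
          ((s (Fin.natAdd v t) + p * b (Fin.natAdd v t) : ℕ) : ℤ) ^ idx' j) := by
        apply MvPolynomial.ringHom_ext
        · intro z
          simp [Th]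
        · intro j
          simp [Th, hs']
      have h3 : eval (fun t => s' t + (p : ℤ) * (b t : ℤ)) (Th v idx' f)
          = eval (fun j => ∑ t : Fin v, ((s (Fin.castAdd v t) + p * b (Fin.castAdd v t) : ℕ) : ℤ) *
          ((s (Fin.natAdd v t) + p * b (Fin.natAdd v t) : ℕ) : ℤ) ^ idx' j) f := by
        rw [← h2]; rfl
      rw [h3]
      apply eval₂Hom_congr' rfl _ rfl
      intro j hj _
      rw [hidxV j (hV hj)]
    rw [h1]
    exact h

/-- A prime that avoids the divisors of a number and a set, and is not too small. -/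
theorem prime_choiceQ (m D Δ n : ℕ) (Q : Finset ℕ) (hΔ : Δ ≠ 0) (hD : Δ ≤ 2 ^ D)
    (hQ : Q.card ≤ n) :
    ∃ p : ℕ, p.Prime ∧ ¬ (p ∣ Δ) ∧ p ∉ Q ∧ m ≤ p ∧ p ≤ (m + D + n + 5) ^ 2 := by
  classical
  by_contra hcon
  push Not at hcon
  set X := (m + D + n + 5) ^ 2 with hX
  let P : Finset ℕ := ((Nat.primesLE X).filter (fun p => m ≤ p)).filter (fun p => p ∉ Q)
  have h1 : (Nat.primesLE X).card ≤ P.card + m + n := by
    have h2 : Nat.primesLE X ⊆ (P ∪ Finset.range m) ∪ Q := by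
      intro p hp
      rw [Finset.mem_union, Finset.mem_union, Finset.mem_filter, Finset.mem_filter,
        Finset.mem_range]
      by_cases h : m ≤ p
      · by_cases hq : p ∈ Q
        · right; exact hq
        · left; left; exact ⟨⟨hp, h⟩, hq⟩
      · left; right; omega
    refine (Finset.card_le_card h2).trans ((Finset.card_union_le _ _).trans ?_)
    have h3 := Finset.card_union_le P (Finset.range m)
    rw [Finset.card_range] at h3
    omega
  have h3 := many_primes (m + D + n)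
  rw [← hX] at h3
  have h4 : ∀ p ∈ P, p.Prime ∧ p ∣ Δ := by
    intro p hp
    rw [Finset.mem_filter, Finset.mem_filter, Nat.mem_primesLE] at hp
    refine ⟨hp.1.1.2, ?_⟩
    by_contra h
    have := hcon p hp.1.1.2 h hp.2 hp.1.2
    omega
  have h5 : ∏ p ∈ P, p ∣ Δ :=
    Finset.prod_primes_dvd Δ (fun p hp => (h4 p hp).1.prime) (fun p hp => (h4 p hp).2)
  have h6 : 2 ^ P.card ≤ ∏ p ∈ P, p := by
    rw [← Finset.prod_const]
    exact Finset.prod_le_prod (fun _ _ => Nat.zero_le _) fun p hp => (h4 p hp).1.two_le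
  have h7 := Nat.le_of_dvd (Nat.pos_of_ne_zero hΔ) h5
  have h8 : 2 ^ P.card ≤ 2 ^ D := h6.trans (h7.trans hD)
  have h9 := (Nat.pow_le_pow_iff_right (by norm_num : 1 < 2)).1 h8
  omega

/-- The bound for the numbers to be tried. -/
def XJ (v n m : ℕ) : ℕ := (PP v n m + DJ v n m + n + 5) ^ 2

/-- The test rejects all circuits of tame polynomials. -/
theorem test_of_tameJ (hv1 : 1 ≤ v) {m : ℕ} (P R : List ℕ) (C : List Gate) (hm : C.length ≤ m)
    (hP : ∀ p ≤ XJ v n m, p ∈ P) (hR : ∀ a < XJ v n m ^ 2, a ∈ R)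
    (hf : TameJ v n (cpoly C)) : test v P R (Ex v n m + 1) C = false := by
  obtain ⟨Δ, Q, hΔ0, hΔle, hQ, hΔp⟩ := hitJ hv1 hf (cvars C) (vars_cpoly C) (Pool.Agent.H531R2.idx C)
    (idx_injOn C) m (fun j hj => (idx_lt hj).trans_le hm)
  obtain ⟨p, hp, hpd, hpQ, hpm, hpX⟩ := prime_choiceQ (PP v n m) (DJ v n m) Δ n Q hΔ0 hΔle hQ
  obtain ⟨a, ha, had⟩ := hΔp p hp hpd hpQ hpm
  by_contra h
  rw [Bool.not_eq_false, test, Bool.and_eq_true, List.all_eq_true] at h
  have hpX' : p ≤ XJ v n m := hpX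
  have h1 := h.2 (p - 2) (hP _ (by omega))
  rw [List.all_eq_true] at h1
  have hpR : ∀ z < p ^ 2, z ∈ R := fun z hz =>
    hR z (lt_of_lt_of_le hz (Nat.pow_le_pow_left hpX' 2))
  have h2 := h1 (List.ofFn fun t : Fin v => (a (Fin.castAdd v t),
      a (Fin.natAdd v t))) (by
    rw [mem_pts]
    refine ⟨by simp, ?_⟩
    intro z hz
    rw [List.mem_ofFn] at hz
    obtain ⟨t, rfl⟩ := hz
    rw [mem_prs]
    exact ⟨hpR _ (ha _), hpR _ (ha _)⟩)
  rw [decide_eq_true_eq, nlast_eq_zero_iff] at h2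
  apply had
  have h3 : p - 2 + 2 = p := Nat.sub_add_cancel hp.two_le
  have h4 : p ^ (Ex v n m + 1) - 1 + 1 = p ^ (Ex v n m + 1) :=
    Nat.sub_add_cancel (Nat.one_le_pow _ _ hp.pos)
  rw [h3, h4] at h2
  have h5 : (fun j => ∑ t : Fin v, (a (Fin.castAdd v t) : ℤ) *
      (a (Fin.natAdd v t) : ℤ) ^ Pool.Agent.H531R2.idx C j)
      = pt C (List.ofFn fun t : Fin v => (a (Fin.castAdd v t),
        a (Fin.natAdd v t))) := by
    funext j
    rw [pt_ofFn]
  rw [h5]
  exact_mod_cast h2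

section UPoly

variable {α : Type} [TEnc α]

theorem uDJ (v : ℕ) {n m : α → ℕ} (hn : UPoly n) (hm : UPoly m) :
    UPoly (fun a => DJ v (n a) (m a)) :=
  UPoly.mul (UPoly.mul hn hn) (uHH v hn hm)

theorem uXJ (v : ℕ) {n m : α → ℕ} (hn : UPoly n) (hm : UPoly m) :
    UPoly (fun a => XJ v (n a) (m a)) :=
  upow (UPoly.add (UPoly.add (UPoly.add (uPP v hn hm) (uDJ v hn hm)) hn) (UPoly.const 5)) 2

end UPoly

/-- The decision procedure. -/
def algJ (v k : ℕ) (x : List Bool) : Bool :=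
  (unbits (List Gate) x).elim false fun C =>
    test v (List.range (XJ v (x.length ^ k) x.length + 1))
      (List.range (XJ v (x.length ^ k) x.length ^ 2)) (Ex v (x.length ^ k) x.length + 1) C

theorem poly_algJ (v k : ℕ) : NPC.Poly (algJ v k) := by
  have hm : UPoly (fun p : List Bool × List Gate => p.1.length) :=
    UPoly.length (NPC.Poly.fst NPC.Poly.id)
  have hn : UPoly (fun p : List Bool × List Gate => p.1.length ^ k) := upow hm k
  have hX : UPoly (fun p : List Bool × List Gate => XJ v (p.1.length ^ k) p.1.length) :=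
    uXJ v hn hm
  have h1 : NPC.Poly (fun p : List Bool × List Gate =>
      List.range (XJ v (p.1.length ^ k) p.1.length + 1)) :=
    (UPoly.add hX (UPoly.const 1)).range
  have h2 : NPC.Poly (fun p : List Bool × List Gate =>
      List.range (XJ v (p.1.length ^ k) p.1.length ^ 2)) := (upow hX 2).range
  have h3 : UPoly (fun p : List Bool × List Gate => Ex v (p.1.length ^ k) p.1.length + 1) :=
    UPoly.add (uEx v hn hm) (UPoly.const 1)
  have h4 : NPC.Poly (fun p : List Bool × List Gate => p.2) := NPC.Poly.snd NPC.Poly.id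
  have h5 := poly_test v h1 h2 h3 h4
  exact NPC.Poly.optElim (o := fun x => unbits (List Gate) x) (g := fun _ => false)
    (h := fun (x : List Bool) (C : List Gate) =>
      test v (List.range (XJ v (x.length ^ k) x.length + 1))
        (List.range (XJ v (x.length ^ k) x.length ^ 2)) (Ex v (x.length ^ k) x.length + 1) C)
    poly_unbits (NPC.Poly.const false) h5

/-- The main theorem. -/
theorem main_theoremJ {v : ℕ} (hv1 : 1 ≤ v) (c : ℕ) : ∃ A : List Bool → List Bool, PolyTime A ∧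
    (∀ x, A x = [true] ∨ A x = [false]) ∧
    (∀ x ∈ ACIT, A x = [true]) ∧
    (∀ x, (∀ C : List Gate, WF C → bits C ≠ x) → A x = [false]) ∧
    ∀ C : List Gate, TameJ v ((bits C).length ^ c) (cpoly C) → A (bits C) = [false] := by
  refine ⟨fun x => [algJ v c x], polyTime_of_poly (poly_algJ v c), ?_, ?_, ?_, ?_⟩
  · intro x
    cases h : algJ v c x
    · right; simp [h]
    · left; simp [h]
  · rintro x ⟨C, rfl, hC, h0⟩
    simp only [algJ, unbits_bits, Option.elim]
    rw [test_of_zero v _ _ _ C hC h0]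
  · intro x hx
    simp only [algJ]
    cases h : unbits (List Gate) x with
    | none => rfl
    | some C =>
      have h1 : ¬ WF C := fun hC => hx C hC (bits_of_unbits h)
      simp only [Option.elim]
      rw [← wfB_iff, Bool.not_eq_true] at h1
      rw [test, h1, Bool.false_and]
  · intro C hC
    simp only [algJ, unbits_bits, Option.elim]
    rw [test_of_tameJ hv1 _ _ C (m := (bits C).length) ?_ ?_ ?_ hC]
    · rw [bits_length]
      exact (length_lt_sz C).le
    · intro p hp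
      rw [List.mem_range]
      omega
    · intro a ha
      rw [List.mem_range]
      exact ha

end Pool.Agent.H964R3
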