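import Mathlib
import Pool.Agent.H964R3.GenDefs
import Pool.Agent.H964R3.GenHit

/-!
# Identity testing for power products of general bases in far classes
-/

set_option autoImplicit false

namespace Pool.Agent.H964R3

open MvPolynomial Pool.Agent.H531R2 Pool.Agent.H626R2 Pool.Agent.H626R2.Clu Pool.Agent.NPC

variable {k r n : ℕ}

theorem NG_pos (k r : ℕ) : 1 ≤ NG k r := by
  rw [NG]; omega

theorem FewGen.fewJ {F : MvPolynomial ℕ ℚ} (hF0 : F ≠ 0) (hF : FewGen k r n F) :
    FewJ (NG k r) n F := by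
  classical
  obtain ⟨m, p, S, g, e, c, lab, hm, hp, hS, hg, he, hgg, hfar, hcl, rfl⟩ := hF
  have hm0 : 0 < m := by
    rcases Nat.eq_zero_or_pos m with rfl | h
    · exact absurd (by simp) hF0
    · exact h
  obtain ⟨hI, hne⟩ := injG_of (k := k) (r := r) (v := NG k r) le_rfl S g (fun j => (hg j).2.1)
    (fun j => (hg j).1) (fun j => (hg j).2.2.2.2) e lab hgg hfar hcl
  -- padding
  set ι : Fin n → Fin m := fun i => if h : (i : ℕ) < m then ⟨i, h⟩ else ⟨0, hm0⟩ with hι
  set g' : Fin n → MvPolynomial ℕ ℤ := fun j => if h : (j : ℕ) < p then g ⟨j, h⟩ else 1 with hg'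
  set e' : Fin n → Fin n → ℕ := fun i j => if h : (j : ℕ) < p then e (ι i) ⟨j, h⟩ else 0 with he'
  have h1n : (1 : ℕ) ≤ 2 ^ n := Nat.one_le_two_pow
  have hprod : ∀ i, ∏ j, g' j ^ e' i j = ∏ j, g j ^ e (ι i) j := by
    intro i
    have h2 : ∏ j : Fin p, g j ^ e (ι i) j =
        ∏ j ∈ Finset.univ.filter (fun j : Fin n => (j : ℕ) < p), g' j ^ e' i j := by
      refine Finset.prod_bij (fun j _ => (⟨j, j.2.trans_le hp⟩ : Fin n)) ?_ ?_ ?_ ?_
      · intro j _
        rw [Finset.mem_filter]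
        exact ⟨Finset.mem_univ _, j.2⟩
      · intro j _ j' _ h
        exact Fin.ext (by simpa using h)
      · intro j hj
        exact ⟨⟨j, (Finset.mem_filter.1 hj).2⟩, Finset.mem_univ _, rfl⟩
      · intro j _
        simp only [hg', he', Fin.is_lt, dite_true, Fin.eta]
    rw [h2, Finset.prod_filter]
    refine Finset.prod_congr rfl fun j _ => ?_
    by_cases hj : (j : ℕ) < p
    · rw [if_pos hj]
    · rw [if_neg hj]
      simp only [he', dif_neg hj, pow_zero]
  refine ⟨S, g', e', fun i => if h : (i : ℕ) < m then c ⟨i, h⟩ else 0, hS, ?_, ?_, ?_,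
    hI.pad ι hprod, ?_⟩
  · intro j
    by_cases hj : (j : ℕ) < p
    · simp only [hg', dif_pos hj]
      exact ⟨(hg _).2.1, (hg _).2.2.1, (hg _).2.2.2.1⟩
    · simp only [hg', dif_neg hj]
      refine ⟨?_, by simp, nrm_one.trans h1n⟩
      rw [vars_one]
      exact Finset.empty_subset _
  · intro idx hidx j
    by_cases hj : (j : ℕ) < p
    · simp only [hg', dif_pos hj]; exact hne idx hidx _
    · simp only [hg', dif_neg hj]
      rw [map_one]
      exact one_ne_zero
  · intro i j
    by_cases hj : (j : ℕ) < p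
    · simp only [he', dif_pos hj]; exact he _ _
    · simp only [he', dif_neg hj]; exact Nat.zero_le _
  · have hterm : ∀ i, (∏ j, iQ (g' j) ^ e' i j) =
        ∏ j, map (Int.castRingHom ℚ) (g j) ^ e (ι i) j := by
      intro i
      have h2 := congrArg iQ (hprod i)
      rw [map_prod, map_prod] at h2
      simp only [map_pow] at h2
      exact h2
    have h3 : ∑ i : Fin m, C (c i) * ∏ j, map (Int.castRingHom ℚ) (g j) ^ e i j =
        ∑ i ∈ Finset.univ.filter (fun i : Fin n => (i : ℕ) < m),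
          C (if h : (i : ℕ) < m then c ⟨i, h⟩ else 0) *
          ∏ j, iQ (g' j) ^ e' i j := by
      refine Finset.sum_bij (fun i _ => (⟨i, i.2.trans_le hm⟩ : Fin n)) ?_ ?_ ?_ ?_
      · intro i _
        rw [Finset.mem_filter]
        exact ⟨Finset.mem_univ _, i.2⟩
      · intro i _ i' _ h
        exact Fin.ext (by simpa using h)
      · intro i hi
        exact ⟨⟨i, (Finset.mem_filter.1 hi).2⟩, Finset.mem_univ _, rfl⟩
      · intro i _
        rw [hterm]
        simp only [hι, Fin.is_lt, dite_true, Fin.eta]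
    rw [h3, Finset.sum_filter]
    refine Finset.sum_congr rfl fun i _ => ?_
    by_cases hi : (i : ℕ) < m
    · rw [if_pos hi]
    · rw [if_neg hi]
      simp only [dif_neg hi, C_0, zero_mul]

theorem TameGen.tameJ {f : MvPolynomial ℕ ℤ} (hf : TameGen k r n f) : TameJ (NG k r) n f := by
  obtain ⟨h1, F, hF, h2⟩ := hf
  exact ⟨h1, F, fun a => ⟨(hF a).1, (hF a).2.fewJ (hF a).1⟩, h2⟩

/-- The main theorem. -/
theorem main_gen (k r c : ℕ) : ∃ A : List Bool → List Bool, PolyTime A ∧
    (∀ x, A x = [true] ∨ A x = [false]) ∧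
    (∀ x ∈ ACIT, A x = [true]) ∧
    (∀ x, (∀ C : List Gate, WF C → bits C ≠ x) → A x = [false]) ∧
    ∀ C : List Gate, TameGen k r ((bits C).length ^ c) (cpoly C) → A (bits C) = [false] := by
  obtain ⟨A, h1, h2, h3, h4, h5⟩ := main_theoremJ (v := NG k r) (NG_pos k r) c
  exact ⟨A, h1, h2, h3, h4, fun C hC => h5 C hC.tameJ⟩

end Pool.Agent.H964R3
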