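import Mathlib
import Pool.Agent.H626R2.PForms

/-!
# Power products of affine forms in far classes
-/

set_option autoImplicit false

namespace Pool.Agent.H964R3

open MvPolynomial Pool.Agent.H626R2

/-- `F` is a rational combination `∑_{i < m} c_i T_i` of `m ≤ n` power products
`T_i = ∏_{j < p} ℓ_j ^ e_ij` of `p ≤ n` nonconstant, pairwise non-proportional affine linear forms
`ℓ_j` in at most `n` variables with integer coefficients of absolute value at most `2 ^ n`. The
exponents `e_ij` are at most `2 ^ n` and the `c_i` are arbitrary rational numbers. The products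
are divided into classes (the class of `T_i` is `lab i`) such that for any two products `T`, `T'`
of different classes one of the polynomials `T / gcd (T, T')`, `T' / gcd (T, T')` has degree more
than `p * m ^ 2`, and for every class at least one of the following holds:
(a) there is a common divisor `∏ ℓ_j ^ w_j` of the products of the class such that the quotients
have transcendence degree at most `k` (no `k + 1` of them are algebraically independent);
(b) the exponent vectors of the products of the class lie in `k` balls of radius `r` for the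
distance `∑_j |e_j - e'_j|`. -/
def FewSep (k r n : ℕ) (F : MvPolynomial ℕ ℚ) : Prop :=
  ∃ (m p : ℕ) (S : Finset ℕ) (a0 : Fin p → ℤ) (a : Fin p → ℕ → ℤ) (e : Fin m → Fin p → ℕ)
    (c : Fin m → ℚ) (lab : Fin m → ℕ),
    m ≤ n ∧ p ≤ n ∧ S.card ≤ n ∧ (∀ j, (a0 j).natAbs ≤ 2 ^ n) ∧ (∀ j i, (a j i).natAbs ≤ 2 ^ n) ∧
    (∀ j, ∃ i ∈ S, a j i ≠ 0) ∧
    (∀ j j', j ≠ j' → ∀ q : ℚ, aff S (a0 j : ℚ) (fun l => (a j l : ℚ)) ≠
      C q * aff S (a0 j' : ℚ) (fun l => (a j' l : ℚ))) ∧
    (∀ i j, e i j ≤ 2 ^ n) ∧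
    (∀ i i', lab i ≠ lab i' →
      p * m ^ 2 < ∑ j, (e i j - e i' j) ∨ p * m ^ 2 < ∑ j, (e i' j - e i j)) ∧
    (∀ l, (∃ w : Fin p → ℕ, (∀ i, lab i = l → ∀ j, w j ≤ e i j) ∧
        ∀ u : Fin (k + 1) → Fin m, (∀ b, lab (u b) = l) → ¬ AlgebraicIndependent ℚ
          (fun b => ∏ j, aff S (a0 j : ℚ) (fun l => (a j l : ℚ)) ^ (e (u b) j - w j))) ∨
      (∃ (B : Fin k → Fin p → ℕ) (g : Fin m → Fin k), ∀ i, lab i = l →
        ∑ j, ((B (g i) j - e i j) + (e i j - B (g i) j)) ≤ r)) ∧
    F = ∑ i, C (c i) * ∏ j, aff S (a0 j : ℚ) (fun l => (a j l : ℚ)) ^ e i j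

/-- `f` divides, over the rational numbers, a product of `n` nonzero polynomials with
`FewSep k r n`, and no power `p ^ (n + 1)` of a prime number `p > n` divides all coefficients of
`f`. -/
def TameSep (k r n : ℕ) (f : MvPolynomial ℕ ℤ) : Prop :=
  (∀ p : ℕ, p.Prime → n < p → ¬ (C ((p : ℤ) ^ (n + 1)) ∣ f)) ∧
    ∃ F : Fin n → MvPolynomial ℕ ℚ, (∀ a, F a ≠ 0 ∧ FewSep k r n (F a)) ∧
      map (Int.castRingHom ℚ) f ∣ ∏ a, F a

end Pool.Agent.H964R3
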