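import Mathlib
import Pool.Agent.H964R3.SepDefs
import Pool.Agent.H964R3.GHit

/-!
# Identity testing for power products of affine forms in far classes
-/

set_option autoImplicit false

namespace Pool.Agent.H964R3

open MvPolynomial Pool.Agent.H531R2 Pool.Agent.H626R2 Pool.Agent.H626R2.Clu Pool.Agent.NPC

variable {k r n : ℕ}

theorem aff_castQ (S : Finset ℕ) (a0 : ℤ) (a : ℕ → ℤ) :
    aff S (a0 : ℚ) (fun i => (a i : ℚ)) = iQ (aff S a0 a) := (iQ_aff S a0 a).symm

/-- The number of points. -/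
def Vn (k r : ℕ) : ℕ := k + Tn k r r + 2

theorem FewSep.fewI {F : MvPolynomial ℕ ℚ} (hF0 : F ≠ 0) (hF : FewSep k r n F) :
    FewI (Vn k r) n F := by
  classical
  obtain ⟨m, p, S, a0, a, e, c, lab, hm, hp, hS, hb0, hb, hnc, hnp, he, hfar, hcl, rfl⟩ := hF
  have hm0 : 0 < m := by
    rcases Nat.eq_zero_or_pos m with rfl | h
    · exact absurd (by simp) hF0
    · exact h
  have hI : Inj (Vn k r) S a0 a e := by
    refine inj_sep (k := k) (r := r) (by rw [Vn]; omega) (by rw [Vn]; omega) (by rw [Vn]; omega)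
      S a0 a e hnc ?_ lab hfar ?_
    · intro j j' hjj x y hx h
      apply hnp j j' hjj ((y : ℚ) / x)
      have hx' : (x : ℚ) ≠ 0 := by exact_mod_cast hx
      have hxC : (C (x : ℚ) : MvPolynomial ℕ ℚ) ≠ 0 := by rw [Ne, C_eq_zero]; exact hx'
      apply mul_left_cancel₀ hxC
      rw [← mul_assoc, ← C_mul, mul_div_cancel₀ _ hx', aff_castQ, aff_castQ]
      have h1 := congrArg iQ h
      rw [map_mul, map_mul, iQ_C, iQ_C] at h1
      exact h1
    · intro l
      rcases hcl l with ⟨w, hw, htr⟩ | h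
      · left
        refine ⟨w, hw, fun u hu hind => htr u hu ?_⟩
        convert! hind using 1
        funext b
        rw [map_prod]
        refine Finset.prod_congr rfl fun j _ => ?_
        rw [map_pow, aff_castQ]
      · right
        exact h
  -- padding
  set ι : Fin n → Fin m := fun i => if h : (i : ℕ) < m then ⟨i, h⟩ else ⟨0, hm0⟩ with hι
  set a0' : Fin n → ℤ := fun j => if h : (j : ℕ) < p then a0 ⟨j, h⟩ else 1 with ha0'
  set a' : Fin n → ℕ → ℤ := fun j => if h : (j : ℕ) < p then a ⟨j, h⟩ else 0 with ha'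
  set e' : Fin n → Fin n → ℕ := fun i j => if h : (j : ℕ) < p then e (ι i) ⟨j, h⟩ else 0 with he'
  have h1n : (1 : ℕ) ≤ 2 ^ n := Nat.one_le_two_pow
  have hprod : ∀ i, ∏ j, aff S (a0' j) (a' j) ^ e' i j = ∏ j, aff S (a0 j) (a j) ^ e (ι i) j := by
    intro i
    have hx : ∀ j : Fin p, ∃ j' : Fin n, (j' : ℕ) = j := fun j => ⟨⟨j, j.2.trans_le hp⟩, rfl⟩
    have h2 : ∏ j : Fin p, aff S (a0 j) (a j) ^ e (ι i) j =
        ∏ j ∈ Finset.univ.filter (fun j : Fin n => (j : ℕ) < p), aff S (a0' j) (a' j) ^ e' i j := by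
      refine Finset.prod_bij (fun j _ => (⟨j, j.2.trans_le hp⟩ : Fin n)) ?_ ?_ ?_ ?_
      · intro j _
        rw [Finset.mem_filter]
        exact ⟨Finset.mem_univ _, j.2⟩
      · intro j _ j' _ h
        exact Fin.ext (by simpa using h)
      · intro j hj
        exact ⟨⟨j, (Finset.mem_filter.1 hj).2⟩, Finset.mem_univ _, rfl⟩
      · intro j _
        simp only [ha0', ha', he', Fin.is_lt, dite_true, Fin.eta]
    rw [h2, Finset.prod_filter]
    refine Finset.prod_congr rfl fun j _ => ?_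
    by_cases hj : (j : ℕ) < p
    · rw [if_pos hj]
    · rw [if_neg hj]
      simp only [he', dif_neg hj, pow_zero]
  refine ⟨S, a0', a', e', fun i => if h : (i : ℕ) < m then c ⟨i, h⟩ else 0, hS, ?_, ?_, ?_, ?_,
    hI.pad ι hprod, ?_⟩
  · intro j
    by_cases hj : (j : ℕ) < p
    · simp only [ha0', dif_pos hj]; exact hb0 _
    · simp only [ha0', dif_neg hj]; simpa using h1n
  · intro j i
    by_cases hj : (j : ℕ) < p
    · simp only [ha', dif_pos hj]; exact hb _ _
    · simp only [ha', dif_neg hj]; simp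
  · intro j
    by_cases hj : (j : ℕ) < p
    · simp only [ha0', ha', dif_pos hj]; exact aff_ne _ (hnc _)
    · simp only [ha0', ha', dif_neg hj]; simp [aff]
  · intro i j
    by_cases hj : (j : ℕ) < p
    · simp only [he', dif_pos hj]; exact he _ _
    · simp only [he', dif_neg hj]; exact Nat.zero_le _
  · have hterm : ∀ i, (∏ j, aff S (a0' j : ℚ) (fun l => (a' j l : ℚ)) ^ e' i j) =
        ∏ j, aff S (a0 j : ℚ) (fun l => (a j l : ℚ)) ^ e (ι i) j := by
      intro i
      have h2 := congrArg iQ (hprod i)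
      rw [map_prod, map_prod] at h2
      simp only [map_pow, iQ_aff] at h2
      exact h2
    have h3 : ∑ i : Fin m, C (c i) * ∏ j, aff S (a0 j : ℚ) (fun l => (a j l : ℚ)) ^ e i j =
        ∑ i ∈ Finset.univ.filter (fun i : Fin n => (i : ℕ) < m),
          C (if h : (i : ℕ) < m then c ⟨i, h⟩ else 0) *
          ∏ j, aff S (a0' j : ℚ) (fun l => (a' j l : ℚ)) ^ e' i j := by
      refine Finset.sum_bij (fun i _ => (⟨i, i.2.trans_le hm⟩ : Fin n)) ?_ ?_ ?_ ?_
      · intro i _
        rw [Finset.mem_filter]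
        exact ⟨Finset.mem_univ _, i.2⟩
      · intro i _ i' _ h
        exact Fin.ext (by simpa using h)
      · intro i hi
        exact ⟨⟨i, (Finset.mem_filter.1 hi).2⟩, Finset.mem_univ _, rfl⟩
      · intro i _
        rw [hterm]
        simp only [hι, Fin.is_lt, dite_true, Fin.eta]
    rw [h3, Finset.sum_filter]
    refine Finset.sum_congr rfl fun i _ => ?_
    by_cases hi : (i : ℕ) < m
    · rw [if_pos hi]
    · rw [if_neg hi]
      simp only [dif_neg hi, C_0, zero_mul]

theorem TameSep.tameI {f : MvPolynomial ℕ ℤ} (hf : TameSep k r n f) : TameI (Vn k r) n f := by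
  obtain ⟨h1, F, hF, h2⟩ := hf
  exact ⟨h1, F, fun a => ⟨(hF a).1, (hF a).2.fewI (hF a).1⟩, h2⟩

/-- The main theorem. -/
theorem main_sep (k r c : ℕ) : ∃ A : List Bool → List Bool, PolyTime A ∧
    (∀ x, A x = [true] ∨ A x = [false]) ∧
    (∀ x ∈ ACIT, A x = [true]) ∧
    (∀ x, (∀ C : List Gate, WF C → bits C ≠ x) → A x = [false]) ∧
    ∀ C : List Gate, TameSep k r ((bits C).length ^ c) (cpoly C) → A (bits C) = [false] := by
  obtain ⟨A, h1, h2, h3, h4, h5⟩ := main_theoremI (v := Vn k r) (by rw [Vn]; omega) c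
  exact ⟨A, h1, h2, h3, h4, fun C hC => h5 C hC.tameI⟩

end Pool.Agent.H964R3
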